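import Pool.Agent.SYS.RB.Defs

/-!
# SYS-RB-Win: the filter `Fth θ` and shifts (no combinatorics)
-/

namespace SYS.RB

open Filter Topology Finset

theorem tendsto_Fth_iff {α : Type*} {F : Filter α} {u : α → ℕ × ℕ} {θ : ℝ} :
    Tendsto u F (Fth θ) ↔ Tendsto (fun x => (u x).1) F atTop ∧
      Tendsto (fun x => ((u x).2 : ℝ) / (u x).1) F (𝓝 θ) := by
  unfold Fth
  rw [tendsto_inf, tendsto_comap_iff, tendsto_comap_iff]
  rfl

theorem Fth_neBot {θ : ℝ} (h : 0 ≤ θ) : (Fth θ).NeBot := by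
  have ht : Tendsto (fun n : ℕ => ((n, ⌊θ * (n : ℝ)⌋₊) : ℕ × ℕ)) atTop (Fth θ) := by
    rw [tendsto_Fth_iff]
    refine ⟨tendsto_id, ?_⟩
    exact (tendsto_nat_floor_mul_div_atTop h).comp tendsto_natCast_atTop_atTop
  exact ht.neBot

theorem fst_nat_atTop (θ : ℝ) : Tendsto (fun p : ℕ × ℕ => p.1) (Fth θ) atTop :=
  Tendsto.mono_left tendsto_comap inf_le_left

theorem fst_atTop (θ : ℝ) : Tendsto (fun p : ℕ × ℕ => (p.1 : ℝ)) (Fth θ) atTop :=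
  tendsto_natCast_atTop_atTop.comp (fst_nat_atTop θ)

theorem div_lim (θ : ℝ) : Tendsto (fun p : ℕ × ℕ => (p.2 : ℝ) / p.1) (Fth θ) (𝓝 θ) :=
  Tendsto.mono_left tendsto_comap inf_le_right

private theorem win_pos (θ : ℝ) : ∀ᶠ p in Fth θ, (0 : ℝ) < ((p : ℕ × ℕ).1 : ℝ) :=
  (fst_atTop θ).eventually_gt_atTop 0

theorem snd_nat_atTop {θ : ℝ} (h : 0 < θ) : Tendsto (fun p : ℕ × ℕ => p.2) (Fth θ) atTop := by
  rw [← tendsto_natCast_atTop_iff (R := ℝ)]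
  refine ((div_lim θ).pos_mul_atTop h (fst_atTop θ)).congr' ?_
  filter_upwards [win_pos θ] with p hp
  exact div_mul_cancel₀ _ hp.ne'

theorem ge_ev (θ : ℝ) (M : ℕ) : ∀ᶠ p in Fth θ, M ≤ p.1 :=
  (fst_nat_atTop θ).eventually_ge_atTop M

theorem ge_ev' {θ : ℝ} (h : 0 < θ) (M : ℕ) : ∀ᶠ p in Fth θ, M ≤ p.2 :=
  (snd_nat_atTop h).eventually_ge_atTop M

theorem gap_lim (θ : ℝ) :
    Tendsto (fun p : ℕ × ℕ => ((p.1 : ℝ) - 2 * p.2) / p.1) (Fth θ) (𝓝 (1 - 2 * θ)) := by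
  have h1 : Tendsto (fun p : ℕ × ℕ => 1 - 2 * ((p.2 : ℝ) / p.1)) (Fth θ) (𝓝 (1 - 2 * θ)) :=
    ((div_lim θ).const_mul 2).const_sub 1
  refine h1.congr' ?_
  filter_upwards [win_pos θ] with p hp
  field_simp

theorem gap {θ : ℝ} (h : θ < 1 / 2) :
    ∃ δ : ℝ, 0 < δ ∧ δ ≤ 1 ∧ ∀ᶠ p in Fth θ, 2 * (p.2 : ℝ) + δ * p.1 ≤ p.1 := by
  have h0 : 0 < (1 - 2 * θ) / 2 := by linarith
  refine ⟨min 1 ((1 - 2 * θ) / 2), lt_min one_pos h0, min_le_left _ _, ?_⟩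
  have h1 : min 1 ((1 - 2 * θ) / 2) < 1 - 2 * θ := lt_of_le_of_lt (min_le_right _ _) (by linarith)
  filter_upwards [win_pos θ, (gap_lim θ).eventually_const_lt h1] with p hp hp2
  rw [lt_div_iff₀ hp] at hp2
  linarith

private theorem win_toNat (x : ℕ) (a : ℤ) (h : a.natAbs ≤ x) :
    ((((x : ℤ) + a).toNat : ℕ) : ℝ) = (x : ℝ) + a := by
  have h1 : ((((x : ℤ) + a).toNat : ℕ) : ℤ) = x + a := Int.toNat_of_nonneg (by omega)
  have h2 := congrArg (Int.cast : ℤ → ℝ) h1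
  push_cast at h2
  exact h2

theorem tendsto_sh {θ : ℝ} (h : 0 < θ) (a b : ℤ) : Tendsto (sh a b) (Fth θ) (Fth θ) := by
  rw [tendsto_Fth_iff]
  constructor
  · rw [tendsto_atTop]
    intro M
    filter_upwards [ge_ev θ (M + a.natAbs)] with p hp
    show M ≤ ((p.1 : ℤ) + a).toNat
    omega
  · have h1 : Tendsto (fun p : ℕ × ℕ => ((p.2 : ℝ) / p.1 + (b : ℝ) / p.1) / (1 + (a : ℝ) / p.1)) (Fth θ)
        (𝓝 ((θ + 0) / (1 + 0))) :=
      ((div_lim θ).add ((fst_atTop θ).const_div_atTop (b : ℝ))).div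
        (((fst_atTop θ).const_div_atTop (a : ℝ)).const_add 1) (by norm_num)
    rw [add_zero, add_zero, div_one] at h1
    refine h1.congr' ?_
    filter_upwards [win_pos θ, ge_ev θ (a.natAbs + 1), ge_ev' h b.natAbs] with p hp ha hb
    show _ = ((((p.2 : ℤ) + b).toNat : ℕ) : ℝ) / ((((p.1 : ℤ) + a).toNat : ℕ) : ℝ)
    rw [win_toNat p.2 b hb, win_toNat p.1 a (by omega)]
    have h2 : (p.2 : ℝ) / p.1 + (b : ℝ) / p.1 = ((p.2 : ℝ) + b) / p.1 := by rw [add_div]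
    have h3 : 1 + (a : ℝ) / p.1 = ((p.1 : ℝ) + a) / p.1 := by rw [add_div, div_self hp.ne']
    rw [h2, h3, div_div_div_cancel_right₀ hp.ne']

theorem sh_sh {θ : ℝ} (h : 0 < θ) (a b a' b' : ℤ) :
    ∀ᶠ p in Fth θ, sh a b (sh a' b' p) = sh (a + a') (b + b') p := by
  filter_upwards [ge_ev θ a'.natAbs, ge_ev' h b'.natAbs] with p h1 h2
  unfold sh
  refine Prod.ext ?_ ?_
  · show ((((p.1 : ℤ) + a').toNat : ℤ) + a).toNat = ((p.1 : ℤ) + (a + a')).toNat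
    omega
  · show ((((p.2 : ℤ) + b').toNat : ℤ) + b).toNat = ((p.2 : ℤ) + (b + b')).toNat
    omega

theorem sh_zero (p : ℕ × ℕ) : sh 0 0 p = p := by
  unfold sh
  refine Prod.ext ?_ ?_
  · show ((p.1 : ℤ) + 0).toNat = p.1
    omega
  · show ((p.2 : ℤ) + 0).toNat = p.2
    omega

end SYS.RB
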