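import Pool.Agent.SYS.RB.Defs
import Pool.Agent.SYS.A.GJT
import Pool.Agent.SYS.A.TodaT

/-!
# SYS-RB-Bri: bridge to block RA
-/

namespace SYS.RB

theorem tt_eq_TT (m g : ℕ) : tt m g = SYS.A.TT m g := by
  match m with
  | 0 => rfl
  | 1 => rfl
  | m + 2 =>
    rw [tt, SYS.A.TT, SYS.A.tau]
    push_cast
    ring

theorem cc_eq_cc (j k : ℕ) : cc j k = SYS.A.cc j k := rfl

theorem gj : GJ := by
  intro n g
  have h := SYS.A.gj n g
  simp only [← tt_eq_TT] at h
  exact h

theorem toda : TODA := by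
  intro n g
  have h := SYS.A.toda_TT n g
  simp only [← tt_eq_TT, ← cc_eq_cc] at h
  exact h

end SYS.RB
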