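import Pool.Agent.SYS.RB.Ul

/-!
# SYS-RB-Fev: the filter `Fth θ` in terms of ε and δ; compactness in `θ`
-/

namespace SYS.RB

open Filter Topology Finset

theorem Fth_ev {θ : ℝ} {P : ℕ × ℕ → Prop} : (∀ᶠ p in Fth θ, P p) ↔
    ∃ δ : ℝ, 0 < δ ∧ ∃ n0 : ℕ, ∀ n ≥ n0, ∀ g : ℕ, |(g : ℝ) / n - θ| < δ → P (n, g) := by
  have hb := ((atTop_basis (α := ℕ)).comap (Prod.fst : ℕ × ℕ → ℕ)).inf
    ((Metric.nhds_basis_ball (x := θ)).comap (fun p : ℕ × ℕ => (p.2 : ℝ) / p.1))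
  unfold Fth
  rw [hb.eventually_iff]
  constructor
  · rintro ⟨⟨n0, δ⟩, ⟨-, hδ⟩, h⟩
    refine ⟨δ, hδ, n0, fun n hn g hg => h ⟨hn, ?_⟩⟩
    show dist ((g : ℝ) / n) θ < δ
    rw [Real.dist_eq]
    exact hg
  · rintro ⟨δ, hδ, n0, h⟩
    refine ⟨⟨n0, δ⟩, ⟨trivial, hδ⟩, ?_⟩
    rintro ⟨n, g⟩ ⟨h1, h2⟩
    refine h n h1 g ?_
    have h3 : dist ((g : ℝ) / n) θ < δ := h2
    rwa [Real.dist_eq] at h3

theorem compact_ev {a b : ℝ} {P : ℕ × ℕ → Prop}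
    (h : ∀ θ : ℝ, a ≤ θ → θ ≤ b → ∀ᶠ p in Fth θ, P p) :
    ∃ n0 : ℕ, ∀ n ≥ n0, ∀ g : ℕ, a * n ≤ g → (g : ℝ) ≤ b * n → P (n, g) := by
  by_contra hcon
  have hcon' : ∀ n0 : ℕ, ∃ n ≥ n0, ∃ g : ℕ, a * n ≤ g ∧ (g : ℝ) ≤ b * n ∧ ¬ P (n, g) := by
    intro n0
    by_contra h1
    apply hcon
    refine ⟨n0, fun n hn g h2 h3 => ?_⟩
    by_contra h4
    exact h1 ⟨n, hn, g, h2, h3, h4⟩
  choose n hn g h1 h2 h3 using hcon'
  have hU : ((hyperfilter ℕ : Ultrafilter ℕ) : Filter ℕ) ≤ atTop := Nat.hyperfilter_le_atTop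
  have h4 : ((Ultrafilter.map (fun k => (g k : ℝ) / n k) (hyperfilter ℕ) : Ultrafilter ℝ) : Filter ℝ) ≤
      𝓟 (Set.Icc a b) := by
    rw [Ultrafilter.coe_map]
    rw [← tendsto_iff_comap.trans (Iff.intro (fun h => map_le_iff_le_comap.2 h)
      (fun h => map_le_iff_le_comap.1 h)), tendsto_principal]
    filter_upwards [hU (eventually_ge_atTop 1)] with k hk
    have h5 : (0 : ℝ) < n k := by
      have := hn k
      have h6 : 0 < n k := by omega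
      exact_mod_cast h6
    rw [Set.mem_Icc, le_div_iff₀ h5, div_le_iff₀ h5]
    exact ⟨h1 k, h2 k⟩
  obtain ⟨θ, hθ, h5⟩ := isCompact_Icc.ultrafilter_le_nhds _ h4
  have h6 : Tendsto (fun k => ((n k, g k) : ℕ × ℕ)) (hyperfilter ℕ : Ultrafilter ℕ) (Fth θ) := by
    rw [tendsto_Fth_iff]
    refine ⟨?_, h5⟩
    exact tendsto_atTop_mono hn (tendsto_id.mono_left hU)
  obtain ⟨k, hk⟩ := (h6.eventually (h θ hθ.1 hθ.2)).exists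
  exact h3 k hk

end SYS.RB
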