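import Pool.Agent.SYS.RB.Defs

/-!
# SYS-RB-Mo: `V x = 3 x cosh x/(sinh x (cosh² x + 2))` is strictly decreasing on `(0, ∞)`

PROOF.  `s = sinh x`, `c = cosh x`.
* `sinh_bound`: `3 sinh y < y (cosh y + 2)` for `y > 0`: `φ y = y (cosh y + 2) - 3 sinh y`, `φ 0 = 0`, `φ' = cosh y + 2 + y sinh y - 3 cosh y = 2 + y sinh y - 2 cosh y`, `φ' 0 = 0`,
  `φ'' = y cosh y - sinh y > 0` for `y > 0` (again by derivative `y sinh y > 0`).
* `V_anti`: numerator `N = 3 x c`, denominator `D = s (c² + 2)`; `V' = (N' D - N D')/D²`, `N' = 3 c + 3 x s`, `D' = c (c²+2) + 2 s² c`.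
  `N' D - N D' < 0` iff (divide by `N D > 0`) `1/x + s/c - c/s - 2 s c/(c²+2) < 0`.  By `sinh_bound` at `y = 2x` (`sinh 2x = 2 s c`, `cosh 2x = 2 c² - 1`):
  `6 s c < 2x (2c² + 1)`, i.e. `1/x < (2c²+1)/(3 s c)`, so the left side is
  `< (2c²+1)/(3sc) + s/c - c/s - 2sc/(c²+2) = (2c² + 1 + 3 s² - 3 c²)/(3 s c) - 2 s c/(c²+2) = (2 c² - 2)/(3 s c) - 2sc/(c²+2)` (`s² = c² - 1`)
  `= (2 s/(3 c)) - 2 s c/(c²+2) = 2 s (c² + 2 - 3 c²)/(3 c (c²+2)) ≤ 0` as `c ≥ 1`.
  (`strictAntiOn_of_deriv_neg (convex_Ioi 0)`.)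
* `V_inj`: both `x` and `y` have `V = v`.
-/

namespace SYS.RB

private theorem Mo_pos {f f' : ℝ → ℝ} (h0 : f 0 = 0) (hd : ∀ y, HasDerivAt f (f' y) y)
    (hp : ∀ y, 0 < y → 0 < f' y) {y : ℝ} (hy : 0 < y) : 0 < f y := by
  have hc : Continuous f := continuous_iff_continuousAt.mpr fun y => (hd y).continuousAt
  have hm : StrictMonoOn f (Set.Ici 0) := by
    refine strictMonoOn_of_deriv_pos (convex_Ici 0) hc.continuousOn ?_
    intro x hx
    rw [interior_Ici] at hx
    rw [(hd x).deriv]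
    exact hp x hx
  have h1 := hm (Set.mem_Ici.mpr le_rfl) (Set.mem_Ici.mpr hy.le) hy
  rw [h0] at h1
  exact h1

theorem sinh_bound {y : ℝ} (hy : 0 < y) : 3 * Real.sinh y < y * (Real.cosh y + 2) := by
  have h1 : ∀ y : ℝ, 0 < y → 0 < y * Real.cosh y - Real.sinh y := by
    intro y hy
    refine Mo_pos (f := fun y => y * Real.cosh y - Real.sinh y) (f' := fun y => y * Real.sinh y)
      (by simp) ?_ ?_ hy
    · intro y
      have h := ((hasDerivAt_id y).mul (Real.hasDerivAt_cosh y)).sub (Real.hasDerivAt_sinh y)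
      refine h.congr_deriv ?_
      simp only [id]
      ring
    · intro y hy
      exact mul_pos hy (Real.sinh_pos_iff.mpr hy)
  have h2 : ∀ y : ℝ, 0 < y → 0 < 2 + y * Real.sinh y - 2 * Real.cosh y := by
    intro y hy
    refine Mo_pos (f := fun y => 2 + y * Real.sinh y - 2 * Real.cosh y)
      (f' := fun y => y * Real.cosh y - Real.sinh y) (by simp) ?_ h1 hy
    intro y
    have h := (((hasDerivAt_id y).mul (Real.hasDerivAt_sinh y)).const_add 2).sub
      ((Real.hasDerivAt_cosh y).const_mul 2)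
    refine h.congr_deriv ?_
    simp only [id]
    ring
  have h3 : 0 < y * (Real.cosh y + 2) - 3 * Real.sinh y := by
    refine Mo_pos (f := fun y => y * (Real.cosh y + 2) - 3 * Real.sinh y)
      (f' := fun y => 2 + y * Real.sinh y - 2 * Real.cosh y) (by simp) ?_ h2 hy
    intro y
    have h := ((hasDerivAt_id y).mul ((Real.hasDerivAt_cosh y).add_const 2)).sub
      ((Real.hasDerivAt_sinh y).const_mul 3)
    refine h.congr_deriv ?_
    simp only [id]
    ring
  linarith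

private theorem Mo_key {x : ℝ} (hx : 0 < x) :
    Real.cosh x * Real.sinh x * (Real.cosh x ^ 2 + 2) <
      x * (2 * Real.cosh x ^ 4 - Real.cosh x ^ 2 + 2) := by
  have h := sinh_bound (y := 2 * x) (by linarith)
  rw [Real.sinh_two_mul, Real.cosh_two_mul, Real.sinh_sq] at h
  have hc : 0 < Real.cosh x ^ 2 + 2 := by positivity
  have h2 := mul_lt_mul_of_pos_right h hc
  have h3 : 0 ≤ x * (Real.cosh x ^ 2 - 1) ^ 2 := by positivity
  nlinarith [h2, h3]

theorem V_anti : StrictAntiOn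
    (fun x : ℝ => 3 * x * Real.cosh x / (Real.sinh x * (Real.cosh x ^ 2 + 2))) (Set.Ioi 0) := by
  have hD : ∀ x : ℝ, 0 < x → 0 < Real.sinh x * (Real.cosh x ^ 2 + 2) := by
    intro x hx
    have := Real.sinh_pos_iff.mpr hx
    positivity
  have hd : ∀ x : ℝ, 0 < x → HasDerivAt
      (fun x : ℝ => 3 * x * Real.cosh x / (Real.sinh x * (Real.cosh x ^ 2 + 2)))
      (((3 * Real.cosh x + 3 * x * Real.sinh x) * (Real.sinh x * (Real.cosh x ^ 2 + 2)) -
        3 * x * Real.cosh x * (Real.cosh x * (Real.cosh x ^ 2 + 2) +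
          Real.sinh x * (2 * Real.cosh x * Real.sinh x))) /
        (Real.sinh x * (Real.cosh x ^ 2 + 2)) ^ 2) x := by
    intro x hx
    have hN : HasDerivAt (fun x : ℝ => 3 * x * Real.cosh x)
        (3 * Real.cosh x + 3 * x * Real.sinh x) x := by
      have h := ((hasDerivAt_id x).const_mul 3).mul (Real.hasDerivAt_cosh x)
      refine h.congr_deriv ?_
      simp only [id, mul_one]
    have hDD : HasDerivAt (fun x : ℝ => Real.sinh x * (Real.cosh x ^ 2 + 2))
        (Real.cosh x * (Real.cosh x ^ 2 + 2) + Real.sinh x * (2 * Real.cosh x * Real.sinh x)) x := by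
      have h := (Real.hasDerivAt_sinh x).mul (((Real.hasDerivAt_cosh x).pow 2).add_const 2)
      refine h.congr_deriv ?_
      simp
    exact hN.div hDD (hD x hx).ne'
  refine strictAntiOn_of_deriv_neg (convex_Ioi 0)
    (fun x hx => (hd x hx).continuousAt.continuousWithinAt) ?_
  intro x hx
  rw [interior_Ioi] at hx
  rw [(hd x hx).deriv]
  refine div_neg_of_neg_of_pos ?_ (pow_pos (hD x hx) 2)
  have h1 := Mo_key (x := x) hx
  have h2 := Real.sinh_sq x
  have e : (3 * Real.cosh x + 3 * x * Real.sinh x) * (Real.sinh x * (Real.cosh x ^ 2 + 2)) -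
        3 * x * Real.cosh x * (Real.cosh x * (Real.cosh x ^ 2 + 2) +
          Real.sinh x * (2 * Real.cosh x * Real.sinh x)) =
      3 * (Real.cosh x * Real.sinh x * (Real.cosh x ^ 2 + 2) -
        x * (2 * Real.cosh x ^ 4 - Real.cosh x ^ 2 + 2)) := by
    linear_combination (3 * x * (Real.cosh x ^ 2 + 2) - 6 * x * Real.cosh x ^ 2) * h2
  rw [e]
  linarith

theorem V_inj {x y v : ℝ} (hx : 0 < x) (hy : 0 < y)
    (h1 : 3 * x * Real.cosh x = v * (Real.sinh x * (Real.cosh x ^ 2 + 2)))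
    (h2 : 3 * y * Real.cosh y = v * (Real.sinh y * (Real.cosh y ^ 2 + 2))) : x = y := by
  have hD : ∀ x : ℝ, 0 < x → 0 < Real.sinh x * (Real.cosh x ^ 2 + 2) := by
    intro x hx
    have := Real.sinh_pos_iff.mpr hx
    positivity
  refine V_anti.injOn hx hy ?_
  show 3 * x * Real.cosh x / (Real.sinh x * (Real.cosh x ^ 2 + 2)) =
    3 * y * Real.cosh y / (Real.sinh y * (Real.cosh y ^ 2 + 2))
  rw [h1, h2, mul_div_cancel_right₀ v (hD x hx).ne', mul_div_cancel_right₀ v (hD y hy).ne']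

end SYS.RB
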