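import Pool.Agent.SYS.Num.Defs
import Pool.Agent.SYS.RB.Mo

/-!
# SYS-RB-RpA: the growth ratio as a function of `x` and of `θ`

`yy x = cosh x/(4 (√(cosh² x + 2))³)` (`Num/Defs`), `Par θ x`: `0 < θ < 1/2`, `x > 0`, `V x = 1 - 2 θ`, `V x = 3 x cosh x/(sinh x (cosh² x + 2))`.
PROOF.
* `yy_eq`: `(c²+2)^(3/2) = (√(c²+2))³` (`Real.sqrt_eq_rpow`, `Real.rpow_natCast`, `Real.rpow_mul`).
* `yy_anti`: `c ↦ c²/(c²+2)³` is antitone for `c ≥ 1` (`yy x ^ 2 = c²/(16 (c²+2)³)`; with `a = c² ≤ b = c'²`, `a, b ≥ 1`: `b (a+2)³ ≤ a (b+2)³`, i.e.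
  `a (b+2)³ - b (a+2)³ = (b - a) (a b (a + b) + 6 a b - 8) ≥ 0` as `a, b ≥ 1`); `cosh` is increasing on `[0, ∞)` (`Real.cosh_le_cosh`).
* `yy_cont`: continuity of the composition (`rr x > 0`).
* `par_mono`: `V` strictly decreasing (`V_anti`): if `x' < x` then `V x' > V x`, i.e. `1 - 2 θ' > 1 - 2 θ`.
* `par_delta`: by continuity of `yy` at `x` there is `x0 ∈ (0, x)` with `yy x0 ≤ yy x + ε`; `V x0 > V x = 1 - 2 θ`; `δ := (V x0 - V x)/2 > 0`.  If `Par θ' x'` and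
  `θ - δ ≤ θ'` then `V x' = 1 - 2 θ' ≤ 1 - 2 θ + 2 δ = V x0`, so `x0 ≤ x'` and `yy x' ≤ yy x0 ≤ yy x + ε`.
-/

namespace SYS.RB

open Real Filter Topology

private theorem RpA_rr_pos (x : ℝ) : 0 < Num.rr x := by
  unfold Num.rr
  positivity

private theorem RpA_rr_sq (x : ℝ) : Num.rr x ^ 2 = cosh x ^ 2 + 2 := by
  unfold Num.rr
  exact Real.sq_sqrt (by positivity)

theorem yy_eq (x : ℝ) : Num.yy x = cosh x / (4 * (cosh x ^ 2 + 2) ^ (3 / 2 : ℝ)) := by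
  have hb : 0 ≤ cosh x ^ 2 + 2 := by positivity
  have h0 : ∀ b : ℝ, 0 ≤ b → b ^ (3 / 2 : ℝ) = (√b) ^ 3 := by
    intro b hb
    rw [Real.sqrt_eq_rpow, ← Real.rpow_natCast, ← Real.rpow_mul hb]
    norm_num
  have h1 : (cosh x ^ 2 + 2) ^ (3 / 2 : ℝ) = (√(cosh x ^ 2 + 2)) ^ 3 := h0 _ hb
  rw [h1]
  rfl

theorem yy_pos (x : ℝ) : 0 < Num.yy x := by
  have h1 := RpA_rr_pos x
  have h2 := Real.cosh_pos x
  unfold Num.yy
  positivity

theorem yy_anti {x y : ℝ} (hx : 0 ≤ x) (hxy : x ≤ y) : Num.yy y ≤ Num.yy x := by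
  have hr1 := RpA_rr_pos x
  have hr2 := RpA_rr_pos y
  have hc1 := Real.one_le_cosh x
  have hc3 : cosh x ≤ cosh y := by
    rw [Real.cosh_le_cosh, abs_of_nonneg hx, abs_of_nonneg (hx.trans hxy)]
    exact hxy
  have hc2 : 1 ≤ cosh y := hc1.trans hc3
  unfold Num.yy
  rw [div_le_div_iff₀ (by positivity) (by positivity)]
  have key : cosh y * Num.rr x ^ 3 ≤ cosh x * Num.rr y ^ 3 := by
    rw [← pow_le_pow_iff_left₀ (by positivity) (by positivity) (two_ne_zero)]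
    have e1 : (cosh y * Num.rr x ^ 3) ^ 2 = cosh y ^ 2 * (cosh x ^ 2 + 2) ^ 3 := by
      rw [← RpA_rr_sq]
      ring
    have e2 : (cosh x * Num.rr y ^ 3) ^ 2 = cosh x ^ 2 * (cosh y ^ 2 + 2) ^ 3 := by
      rw [← RpA_rr_sq]
      ring
    rw [e1, e2]
    have ha : 1 ≤ cosh x ^ 2 := one_le_pow₀ hc1
    have hb : 1 ≤ cosh y ^ 2 := one_le_pow₀ hc2
    have hab : cosh x ^ 2 ≤ cosh y ^ 2 := pow_le_pow_left₀ (by linarith) hc3 2
    generalize cosh x ^ 2 = a at *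
    generalize cosh y ^ 2 = b at *
    have h1 : 1 ≤ a * b := by nlinarith
    have h2 : 0 ≤ a * b * (a + b) + 6 * (a * b) - 8 := by nlinarith
    have h3 : 0 ≤ (b - a) * (a * b * (a + b) + 6 * (a * b) - 8) := mul_nonneg (by linarith) h2
    have h4 : a * (b + 2) ^ 3 - b * (a + 2) ^ 3 = (b - a) * (a * b * (a + b) + 6 * (a * b) - 8) := by ring
    linarith
  calc cosh y * (4 * Num.rr x ^ 3) = 4 * (cosh y * Num.rr x ^ 3) := by ring
    _ ≤ 4 * (cosh x * Num.rr y ^ 3) := by linarith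
    _ = cosh x * (4 * Num.rr y ^ 3) := by ring

theorem yy_cont : Continuous Num.yy := by
  have h1 : Continuous Num.rr := by
    unfold Num.rr
    exact ((Real.continuous_cosh.pow 2).add continuous_const).sqrt
  unfold Num.yy
  refine Real.continuous_cosh.div (continuous_const.mul (h1.pow 3)) ?_
  intro x
  have := RpA_rr_pos x
  positivity

private theorem RpA_V {θ x : ℝ} (h : Num.Par θ x) :
    3 * x * cosh x / (sinh x * (cosh x ^ 2 + 2)) = 1 - 2 * θ := by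
  obtain ⟨_, _, h3, h4⟩ := h
  have h5 := Real.sinh_pos_iff.mpr h3
  have h6 : 0 < sinh x * (cosh x ^ 2 + 2) := by positivity
  rw [h4, mul_div_cancel_right₀ _ h6.ne']

theorem par_mono {θ θ' x x' : ℝ} (h : Num.Par θ x) (h' : Num.Par θ' x') (hθ : θ ≤ θ') : x ≤ x' := by
  by_contra hc
  push Not at hc
  have h1 := V_anti (Set.mem_Ioi.mpr h'.2.2.1) (Set.mem_Ioi.mpr h.2.2.1) hc
  have h2 := RpA_V h
  have h3 := RpA_V h'
  simp only at h1
  rw [h2, h3] at h1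
  linarith

theorem par_unique {θ x x' : ℝ} (h : Num.Par θ x) (h' : Num.Par θ x') : x = x' :=
  le_antisymm (par_mono h h' le_rfl) (par_mono h' h le_rfl)

theorem par_delta {θ x : ℝ} (h : Num.Par θ x) {ε : ℝ} (hε : 0 < ε) :
    ∃ δ : ℝ, 0 < δ ∧ ∀ θ' x' : ℝ, Num.Par θ' x' → θ - δ ≤ θ' → Num.yy x' ≤ Num.yy x + ε := by
  have hx := h.2.2.1
  have h1 : ∀ᶠ z in 𝓝 x, Num.yy z < Num.yy x + ε :=
    (yy_cont.tendsto x).eventually_lt_const (by linarith)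
  obtain ⟨d, hd, hd2⟩ := Metric.eventually_nhds_iff.1 h1
  obtain ⟨x0, hx0, hx1, hx2⟩ : ∃ x0 : ℝ, 0 < x0 ∧ x0 < x ∧ dist x0 x < d := by
    refine ⟨max (x / 2) (x - d / 2), ?_, ?_, ?_⟩
    · exact lt_max_of_lt_left (by linarith)
    · exact max_lt (by linarith) (by linarith)
    · rw [Real.dist_eq, abs_lt]
      constructor
      · have := le_max_right (x / 2) (x - d / 2)
        linarith
      · have : max (x / 2) (x - d / 2) < x := max_lt (by linarith) (by linarith)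
        linarith
  have h2 := hd2 hx2
  have h3 := V_anti (Set.mem_Ioi.mpr hx0) (Set.mem_Ioi.mpr hx) hx1
  have h4 := RpA_V h
  simp only at h3
  rw [h4] at h3
  refine ⟨(3 * x0 * cosh x0 / (sinh x0 * (cosh x0 ^ 2 + 2)) - (1 - 2 * θ)) / 2, by linarith, ?_⟩
  intro θ' x' h' hθ
  have h5 : x0 ≤ x' := by
    by_contra hc
    push Not at hc
    have h6 := V_anti (Set.mem_Ioi.mpr h'.2.2.1) (Set.mem_Ioi.mpr hx0) hc
    simp only at h6
    rw [RpA_V h'] at h6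
    linarith
  have h7 := yy_anti hx0.le h5
  linarith

end SYS.RB
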