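import Pool.Agent.SYS.RB.Pos
import Pool.Agent.GNH.SplitIneq

/-!
# SYS-RB-RpB: the ratio tends to zero near `θ = 1/2`
-/

namespace SYS.RB

theorem near_half {ε : ℝ} (hε : 0 < ε) : ∃ δ : ℝ, 0 < δ ∧ ∃ n0 : ℕ, ∀ n ≥ n0, ∀ g : ℕ,
    (1 / 2 - δ) * n ≤ g → SST.nu (n - 1) g ≤ ε * SST.nu n g := by
  refine ⟨min (ε / 4) (1 / 10), lt_min (by positivity) (by norm_num), max 2 (⌈1 / ε⌉₊ + 1), ?_⟩
  intro n hn g hg
  have hn2 : 2 ≤ n := le_trans (le_max_left _ _) hn
  obtain ⟨m, rfl⟩ : ∃ m, n = m + 1 := ⟨n - 1, by omega⟩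
  have hm : 1 ≤ m := by omega
  have hmε : 1 / ε ≤ (m : ℝ) := by
    have h1 : ⌈1 / ε⌉₊ + 1 ≤ m + 1 := le_trans (le_max_right _ _) hn
    have h2 : ⌈1 / ε⌉₊ ≤ m := by omega
    exact le_trans (Nat.le_ceil _) (by exact_mod_cast h2)
  have hnn := nu_nn (m + 1) g
  show SST.nu m g ≤ ε * SST.nu (m + 1) g
  by_cases h : m + 1 < 2 * g
  · rw [nu_zero hm h]
    positivity
  · obtain ⟨V, hV⟩ : ∃ V, V = m + 2 - 2 * g := ⟨_, rfl⟩
    have hV1 : 1 ≤ V := by omega
    have key := GNH.mv_split hm hV1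
    have e1 : SST.nu m g = GNH.mv m V := by
      rw [GNH.mv_nu (by omega), hV]
    have e2 : SST.nu (m + 1) g = GNH.mv (m + 1) (V + 1) := by
      rw [GNH.mv_nu (by omega)]
      congr 1
      omega
    rw [← e1, ← e2] at key
    have hVr : (V : ℝ) = m + 2 - 2 * g := by
      have h1 : V + 2 * g = m + 2 := by omega
      have h2 : (V : ℝ) + 2 * g = m + 2 := by exact_mod_cast h1
      linarith
    have hm1 : (1 : ℝ) ≤ m := by exact_mod_cast hm
    obtain ⟨δ, hδ⟩ : ∃ δ, δ = min (ε / 4) (1 / 10) := ⟨_, rfl⟩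
    rw [← hδ] at hg
    have hδ1 : δ ≤ ε / 4 := by rw [hδ]; exact min_le_left _ _
    have hδ2 : δ ≤ 1 / 10 := by rw [hδ]; exact min_le_right _ _
    push_cast at hg
    have hV2 : (V : ℝ) ≤ 1 + 2 * δ * (m + 1) := by
      rw [hVr]
      nlinarith
    have hV3 : (V : ℝ) ≤ 2 * m := by
      have h1 : 2 * δ * ((m : ℝ) + 1) ≤ 1 / 5 * (m + 1) := by
        apply mul_le_mul_of_nonneg_right _ (by linarith)
        linarith
      linarith
    have hme : 1 ≤ ε * m := by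
      have h1 : ε * (1 / ε) ≤ ε * m := mul_le_mul_of_nonneg_left hmε hε.le
      have h2 : ε * (1 / ε) = 1 := by field_simp
      linarith
    have h4 : (V : ℝ) * (m + 1) ≤ ε * (m * (6 * m - V)) := by
      have h5 : (V : ℝ) * (m + 1) ≤ (1 + 2 * δ * (m + 1)) * (m + 1) :=
        mul_le_mul_of_nonneg_right hV2 (by linarith)
      have h6 : 2 * δ * (((m : ℝ) + 1) * (m + 1)) ≤ ε / 2 * (4 * (m * m)) := by
        have h7 : ((m : ℝ) + 1) * (m + 1) ≤ 4 * (m * m) := by nlinarith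
        have h8 : 2 * δ * (((m : ℝ) + 1) * (m + 1)) ≤ ε / 2 * (((m : ℝ) + 1) * (m + 1)) :=
          mul_le_mul_of_nonneg_right (by linarith) (by positivity)
        have h9 : ε / 2 * (((m : ℝ) + 1) * (m + 1)) ≤ ε / 2 * (4 * (m * m)) :=
          mul_le_mul_of_nonneg_left h7 (by positivity)
        linarith
      have h10 : (m : ℝ) + 1 ≤ 2 * (ε * m * m) := by nlinarith
      have h11 : ε * (m * (4 * m)) ≤ ε * (m * (6 * m - V)) := by
        apply mul_le_mul_of_nonneg_left _ hε.le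
        apply mul_le_mul_of_nonneg_left _ (by linarith)
        linarith
      nlinarith
    have hpos : 0 < (m : ℝ) * (6 * m - V) := by
      apply mul_pos (by linarith)
      linarith
    have h12 : (m : ℝ) * (6 * m - V) * SST.nu m g ≤ (m : ℝ) * (6 * m - V) * (ε * SST.nu (m + 1) g) := by
      calc (m : ℝ) * (6 * m - V) * SST.nu m g ≤ V * (m + 1) * SST.nu (m + 1) g := key
        _ ≤ ε * (m * (6 * m - V)) * SST.nu (m + 1) g := mul_le_mul_of_nonneg_right h4 hnn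
        _ = (m : ℝ) * (6 * m - V) * (ε * SST.nu (m + 1) g) := by ring
    exact le_of_mul_le_mul_left h12 hpos

end SYS.RB
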