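import Pool.Agent.SYS.RB.Fin
import Pool.Agent.SYS.RB.Bri
import Pool.Agent.SYS.RB.RpA
import Pool.Agent.SYS.RB.RpB
import Pool.Agent.SYS.RB.Fev

/-!
# SYS-RB-Out: THEOREM RAT and RAT+ in the notation of `Num/Defs`
-/

namespace SYS.RB

open Filter Topology Finset Real

theorem exists_par {θ : ℝ} (h : 0 < θ) (h' : θ < 1 / 2) : ∃ x : ℝ, Num.Par θ x := by
  obtain ⟨x, hx, e, -, -⟩ := rat gj toda h h'
  exact ⟨x, h, h', hx, e⟩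

theorem rat_n {θ x : ℝ} (h : Num.Par θ x) :
    Tendsto (fun p : ℕ × ℕ => SST.nu (p.1 - 1) p.2 / SST.nu p.1 p.2) (Num.Fth θ)
      (𝓝 (Num.yy x)) := by
  obtain ⟨y, hy, e, h1, -⟩ := rat gj toda h.1 h.2.1
  have : x = y := V_inj h.2.2.1 hy h.2.2.2 e
  subst this
  rw [yy_eq]
  exact h1

theorem rat_g {θ x : ℝ} (h : Num.Par θ x) :
    Tendsto (fun p : ℕ × ℕ => (p.1 : ℝ) ^ 2 * SST.nu p.1 (p.2 - 1) / SST.nu p.1 p.2) (Num.Fth θ)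
      (𝓝 (4 / 9 * sinh x ^ 2 * (cosh x ^ 2 + 2) ^ 2 / cosh x ^ 2)) := by
  obtain ⟨y, hy, e, -, h2⟩ := rat gj toda h.1 h.2.1
  have : x = y := V_inj h.2.2.1 hy h.2.2.2 e
  subst this
  exact h2

/-- RAT in ε-δ form. -/
theorem rat_eps {θ x : ℝ} (h : Num.Par θ x) {ε : ℝ} (hε : 0 < ε) :
    ∃ δ : ℝ, 0 < δ ∧ ∃ n0 : ℕ, ∀ n ≥ n0, ∀ g : ℕ, |(g : ℝ) / n - θ| < δ →
      0 < SST.nu n g ∧ (Num.yy x - ε) * SST.nu n g ≤ SST.nu (n - 1) g ∧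
        SST.nu (n - 1) g ≤ (Num.yy x + ε) * SST.nu n g := by
  refine (Fth_ev (P := fun p : ℕ × ℕ => 0 < SST.nu p.1 p.2 ∧
    (Num.yy x - ε) * SST.nu p.1 p.2 ≤ SST.nu (p.1 - 1) p.2 ∧
      SST.nu (p.1 - 1) p.2 ≤ (Num.yy x + ε) * SST.nu p.1 p.2)).1 ?_
  have h1 : ∀ᶠ p in Fth θ, |SST.nu (p.1 - 1) p.2 / SST.nu p.1 p.2 - Num.yy x| < ε := by
    have := Metric.tendsto_nhds.1 (rat_n h) ε hε
    simp only [Real.dist_eq] at this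
    exact this
  obtain ⟨δ, hδ, hδ1, h2⟩ := gap h.2.1
  filter_upwards [h1, h2, ge_ev θ 1] with p h1 h2 h3
  have h4 : 2 * p.2 ≤ p.1 := by
    have : 2 * (p.2 : ℝ) ≤ p.1 := by nlinarith [(Nat.cast_nonneg p.1 : (0 : ℝ) ≤ p.1)]
    exact_mod_cast this
  have h5 : 0 < SST.nu p.1 p.2 := SST.nu_pos hypTwo h3 (by omega)
  rw [abs_lt] at h1
  refine ⟨h5, ?_, ?_⟩
  · rw [← le_div_iff₀ h5]
    linarith
  · rw [← div_le_iff₀ h5]
    linarith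

/-- RAT+. -/
theorem rat_plus {θ x : ℝ} (h : Num.Par θ x) {ε : ℝ} (hε : 0 < ε) :
    ∃ δ : ℝ, 0 < δ ∧ ∃ n0 : ℕ, ∀ n ≥ n0, ∀ g : ℕ, (θ - δ) * n ≤ g →
      SST.nu (n - 1) g ≤ (Num.yy x + ε) * SST.nu n g := by
  obtain ⟨δ1, hδ1, n1, h1⟩ := near_half hε
  obtain ⟨δ2, hδ2, h2⟩ := par_delta h (half_pos hε)
  obtain ⟨hθ, hθ', hx, -⟩ := h
  obtain ⟨n2, h3⟩ := compact_ev (a := θ - min δ2 (θ / 2)) (b := 1 / 2 - δ1)
    (P := fun p => SST.nu (p.1 - 1) p.2 ≤ (Num.yy x + ε) * SST.nu p.1 p.2) (by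
      intro θ' ha hb
      have hθ1 : 0 < θ' := by
        have := min_le_right δ2 (θ / 2)
        linarith
      have hθ2 : θ' < 1 / 2 := by linarith
      obtain ⟨x', hx'⟩ := exists_par hθ1 hθ2
      have h4 := h2 θ' x' hx' (by
        have := min_le_left δ2 (θ / 2)
        linarith)
      refine Fth_ev.2 ?_
      obtain ⟨δ, hδ, n0, h5⟩ := rat_eps hx' (half_pos hε)
      refine ⟨δ, hδ, n0, fun n hn g hg => ?_⟩
      obtain ⟨h6, -, h7⟩ := h5 n hn g hg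
      refine h7.trans (mul_le_mul_of_nonneg_right ?_ h6.le)
      linarith)
  refine ⟨min δ2 (θ / 2), lt_min hδ2 (by linarith), max n1 n2, fun n hn g hg => ?_⟩
  rcases le_total ((1 / 2 - δ1) * n) (g : ℝ) with h4 | h4
  · have h5 := h1 n (le_trans (le_max_left _ _) hn) g h4
    refine h5.trans (mul_le_mul_of_nonneg_right ?_ (nu_nn n g))
    have := yy_pos x
    linarith
  · exact h3 n (le_trans (le_max_right _ _) hn) g hg h4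

end SYS.RB
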