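import Pool.Agent.SYS.RB.Out

/-!
# SYS-RB-Rpl: uniform geometric bound (RAT+ iterated)

`n^(2j) nu (n-l) (g-j) ≤ K ((1+ε) y)^l nu n g` for all `l ≤ n`, `n → ∞`, `g/n → θ`.
-/

namespace SYS.RB

open Filter Topology Finset Real

private theorem rpl_nu_zero {n g : ℕ} (hg : n + 2 < 2 * g) : SST.nu n g = 0 := by
  have h1 : SST.Trn n g = ∅ := by
    rw [Set.eq_empty_iff_forall_notMem]
    intro T hT
    have h2 : Nat.card T.V + 2 * g = n + 2 := hT.2
    omega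
  unfold SST.nu
  rw [h1, Set.ncard_empty]
  simp

private theorem rpl_col {θ x : ℝ} (h : Num.Par θ x) (j : ℕ) :
    ∃ K : ℝ, 0 < K ∧ ∀ᶠ p in Fth θ,
      (p.1 : ℝ) ^ (2 * j) * SST.nu p.1 (p.2 - j) ≤ K * SST.nu p.1 p.2 := by
  obtain ⟨C, hC, h1⟩ := bd gj h.1 h.2.1 0 j
  refine ⟨C, by linarith, ?_⟩
  filter_upwards [h1, ge_ev θ 1] with p hp h1
  rw [Nat.sub_zero] at hp
  have h2 := tt_le10 gj h1 p.2
  rw [tt_succ h1] at hp h2
  have h3 : (0 : ℝ) < (3 * p.1 + 2) * (6 * p.1) := by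
    have : (1 : ℝ) ≤ p.1 := by exact_mod_cast h1
    positivity
  have h4 := tt_nn p.1 p.2
  refine le_of_mul_le_mul_left ?_ h3
  calc (3 * (p.1 : ℝ) + 2) * (6 * p.1) * ((p.1 : ℝ) ^ (2 * j) * SST.nu p.1 (p.2 - j))
      = (p.1 : ℝ) ^ (2 * j) * ((3 * p.1 + 2) * (6 * p.1) * SST.nu p.1 (p.2 - j)) := by ring
    _ ≤ C * tt p.1 p.2 := hp
    _ ≤ C * ((3 * p.1 + 2) * (6 * p.1) * SST.nu p.1 p.2) :=
        mul_le_mul_of_nonneg_left (by linarith) (by linarith)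
    _ = _ := by ring

theorem rat_pow {θ x : ℝ} (h : Num.Par θ x) {ε : ℝ} (hε : 0 < ε) (j : ℕ) :
    ∃ K : ℝ, 0 < K ∧ ∀ᶠ p in Num.Fth θ, ∀ l ≤ p.1,
      (p.1 : ℝ) ^ (2 * j) * SST.nu (p.1 - l) (p.2 - j) ≤
        K * ((1 + ε) * Num.yy x) ^ l * SST.nu p.1 p.2 := by
  have hy := yy_pos x
  obtain ⟨δ, hδ, n0, h1⟩ := rat_plus h (mul_pos hε hy)
  obtain ⟨K, hK, h2⟩ := rpl_col h j
  refine ⟨K, hK, ?_⟩
  have h3 : ∀ᶠ p in Fth θ, θ - δ / 2 < (p.2 : ℝ) / p.1 :=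
    (div_lim θ).eventually (lt_mem_nhds (by linarith))
  obtain ⟨M, hM⟩ := exists_nat_gt (2 * (j : ℝ) / δ)
  filter_upwards [h2, h3, ge_ev θ (M + 1), ge_ev' h.1 (n0 + j + 2)] with p h2 h3 h4 h5
  have hn : (0 : ℝ) < p.1 := by
    have : 0 < p.1 := by omega
    exact_mod_cast this
  have h6 : (j : ℝ) ≤ δ / 2 * p.1 := by
    have h7 : ((M + 1 : ℕ) : ℝ) ≤ p.1 := by exact_mod_cast h4
    push_cast at h7
    rw [div_lt_iff₀ hδ] at hM
    nlinarith
  have h7 : (θ - δ) * p.1 ≤ ((p.2 - j : ℕ) : ℝ) := by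
    rw [lt_div_iff₀ hn] at h3
    rw [Nat.cast_sub (by omega)]
    nlinarith
  have key : ∀ l ≤ p.1, SST.nu (p.1 - l) (p.2 - j) ≤
      ((1 + ε) * Num.yy x) ^ l * SST.nu p.1 (p.2 - j) := by
    intro l
    induction l with
    | zero => intro _; simp
    | succ l ih =>
      intro hl
      have h8 := ih (by omega)
      rcases le_or_gt n0 (p.1 - l) with h9 | h9
      · have h10 := h1 (p.1 - l) h9 (p.2 - j) (by
          rcases le_total 0 (θ - δ) with h0 | h0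
          · refine le_trans (mul_le_mul_of_nonneg_left ?_ h0) h7
            exact_mod_cast Nat.sub_le _ _
          · exact le_trans (mul_nonpos_of_nonpos_of_nonneg h0 (Nat.cast_nonneg _))
              (Nat.cast_nonneg _))
        rw [show p.1 - l - 1 = p.1 - (l + 1) by omega] at h10
        refine h10.trans ?_
        have h11 : Num.yy x + ε * Num.yy x = (1 + ε) * Num.yy x := by ring
        rw [h11]
        calc (1 + ε) * Num.yy x * SST.nu (p.1 - l) (p.2 - j)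
            ≤ (1 + ε) * Num.yy x * (((1 + ε) * Num.yy x) ^ l * SST.nu p.1 (p.2 - j)) :=
              mul_le_mul_of_nonneg_left h8 (by positivity)
          _ = _ := by ring
      · rw [rpl_nu_zero (by omega)]
        have := nu_nn p.1 (p.2 - j)
        positivity
  intro l hl
  calc (p.1 : ℝ) ^ (2 * j) * SST.nu (p.1 - l) (p.2 - j)
      ≤ (p.1 : ℝ) ^ (2 * j) * (((1 + ε) * Num.yy x) ^ l * SST.nu p.1 (p.2 - j)) :=
        mul_le_mul_of_nonneg_left (key l hl) (by positivity)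
    _ = ((1 + ε) * Num.yy x) ^ l * ((p.1 : ℝ) ^ (2 * j) * SST.nu p.1 (p.2 - j)) := by ring
    _ ≤ ((1 + ε) * Num.yy x) ^ l * (K * SST.nu p.1 p.2) :=
        mul_le_mul_of_nonneg_left h2 (by positivity)
    _ = _ := by ring

end SYS.RB
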