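import Pool.Agent.SYS.RB.Win

/-!
# SYS-RB-Ul: ultrafilters `U ≤ Fth θ` (no combinatorics)

PROOF.
* `Adm_SH`: `Ultrafilter.coe_map`, `tendsto_sh`.  `SH_zero`: `sh 0 0 = id` (`sh_zero`), `Ultrafilter.map_id`.
* `SH_SH`: `Ultrafilter.map_map` and two functions which are equal eventually along `U` have the same image ultrafilter
  (`Filter.map_congr`, `Ultrafilter.coe_injective`; `sh_sh`).
* `isR_SH`, `isQ_SH`: `Filter.tendsto_map'_iff`.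
* `lim_of_all`: `tendsto_iff_ultrafilter`.
* `exists_lim`: `Icc a b` is compact: `isCompact_Icc.ultrafilter_le_nhds` for `U.map f`; limits lie in `Icc a b`.
* `exists_max`: the set `S = {r | ∃ U, Adm θ U ∧ Tendsto f U (𝓝 r)}` is the set of cluster points `{r | MapClusterPt r (Fth θ) f}`
  (`mapClusterPt_iff_ultrafilter`), closed (`isClosed_setOf_clusterPt`), contained in `Icc a b`, nonempty (take any ultrafilter
  `≤ Fth θ`, `Ultrafilter.of` (`Fth_neBot`), and `exists_lim`): `IsCompact.exists_isGreatest`, `IsCompact.exists_isLeast`.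
-/

namespace SYS.RB

open Filter Topology Finset

theorem Adm_SH {θ : ℝ} (h : 0 < θ) {U : Ultrafilter (ℕ × ℕ)} (hU : Adm θ U) (a b : ℤ) :
    Adm θ (SH a b U) :=
  (tendsto_sh h a b).mono_left hU

theorem SH_zero (U : Ultrafilter (ℕ × ℕ)) : SH 0 0 U = U := by
  have : sh 0 0 = id := funext sh_zero
  rw [SH, this, Ultrafilter.map_id]

theorem SH_SH {θ : ℝ} (h : 0 < θ) {U : Ultrafilter (ℕ × ℕ)} (hU : Adm θ U) (a b a' b' : ℤ) :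
    SH a b (SH a' b' U) = SH (a + a') (b + b') U := by
  apply Ultrafilter.coe_injective
  show Filter.map (sh a b) (Filter.map (sh a' b') (U : Filter (ℕ × ℕ))) =
    Filter.map (sh (a + a') (b + b')) (U : Filter (ℕ × ℕ))
  rw [Filter.map_map]
  exact Filter.map_congr ((sh_sh h a b a' b').filter_mono hU)

theorem isR_SH {U : Ultrafilter (ℕ × ℕ)} {a b : ℤ} {r : ℝ} :
    IsR (SH a b U) r ↔ Tendsto (fun p => rho (sh a b p)) (U : Filter (ℕ × ℕ)) (𝓝 r) :=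
  Filter.tendsto_map'_iff

theorem isQ_SH {U : Ultrafilter (ℕ × ℕ)} {a b : ℤ} {q : ℝ} :
    IsQ (SH a b U) q ↔ Tendsto (fun p => kap (sh a b p)) (U : Filter (ℕ × ℕ)) (𝓝 q) :=
  Filter.tendsto_map'_iff

theorem lim_of_all {θ : ℝ} {f : ℕ × ℕ → ℝ} {r : ℝ}
    (h : ∀ U : Ultrafilter (ℕ × ℕ), Adm θ U → Tendsto f (U : Filter (ℕ × ℕ)) (𝓝 r)) :
    Tendsto f (Fth θ) (𝓝 r) :=
  (tendsto_iff_ultrafilter f (Fth θ) (𝓝 r)).2 h

theorem exists_lim {f : ℕ × ℕ → ℝ} {a b : ℝ} (U : Ultrafilter (ℕ × ℕ))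
    (h : ∀ᶠ p in (U : Filter (ℕ × ℕ)), f p ∈ Set.Icc a b) :
    ∃ r ∈ Set.Icc a b, Tendsto f (U : Filter (ℕ × ℕ)) (𝓝 r) := by
  have hU : ((U.map f : Ultrafilter ℝ) : Filter ℝ) ≤ 𝓟 (Set.Icc a b) := by
    rw [Filter.le_principal_iff]
    exact h
  obtain ⟨r, hr, hle⟩ := isCompact_Icc.ultrafilter_le_nhds _ hU
  exact ⟨r, hr, hle⟩

private theorem ul_compact {θ : ℝ} (hθ : 0 ≤ θ) {f : ℕ × ℕ → ℝ} {a b : ℝ}
    (h : ∀ᶠ p in Fth θ, f p ∈ Set.Icc a b) :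
    IsCompact {r : ℝ | MapClusterPt r (Fth θ) f} ∧ {r : ℝ | MapClusterPt r (Fth θ) f}.Nonempty := by
  constructor
  · refine isCompact_Icc (a := a) (b := b) |>.of_isClosed_subset ?_ ?_
    · exact isClosed_setOf_clusterPt
    · intro r hr
      obtain ⟨U, hU, ht⟩ := mapClusterPt_iff_ultrafilter.1 hr
      exact isClosed_Icc.mem_of_tendsto ht (h.filter_mono hU)
  · haveI := Fth_neBot hθ
    obtain ⟨r, -, hr⟩ := exists_lim (Ultrafilter.of (Fth θ))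
      (h.filter_mono (Ultrafilter.of_le (Fth θ)))
    exact ⟨r, mapClusterPt_iff_ultrafilter.2 ⟨_, Ultrafilter.of_le (Fth θ), hr⟩⟩

theorem exists_max {θ : ℝ} (hθ : 0 ≤ θ) {f : ℕ × ℕ → ℝ} {a b : ℝ}
    (h : ∀ᶠ p in Fth θ, f p ∈ Set.Icc a b) :
    ∃ (U : Ultrafilter (ℕ × ℕ)) (r : ℝ), Adm θ U ∧ Tendsto f (U : Filter (ℕ × ℕ)) (𝓝 r) ∧
      ∀ (U' : Ultrafilter (ℕ × ℕ)) (r' : ℝ), Adm θ U' → Tendsto f (U' : Filter (ℕ × ℕ)) (𝓝 r') →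
        r' ≤ r := by
  obtain ⟨hc, hn⟩ := ul_compact hθ h
  obtain ⟨r, hr, hmax⟩ := hc.exists_isGreatest hn
  obtain ⟨U, hU, ht⟩ := mapClusterPt_iff_ultrafilter.1 hr
  exact ⟨U, r, hU, ht, fun U' r' hU' ht' =>
    hmax (mapClusterPt_iff_ultrafilter.2 ⟨U', hU', ht'⟩)⟩

theorem exists_min {θ : ℝ} (hθ : 0 ≤ θ) {f : ℕ × ℕ → ℝ} {a b : ℝ}
    (h : ∀ᶠ p in Fth θ, f p ∈ Set.Icc a b) :
    ∃ (U : Ultrafilter (ℕ × ℕ)) (r : ℝ), Adm θ U ∧ Tendsto f (U : Filter (ℕ × ℕ)) (𝓝 r) ∧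
      ∀ (U' : Ultrafilter (ℕ × ℕ)) (r' : ℝ), Adm θ U' → Tendsto f (U' : Filter (ℕ × ℕ)) (𝓝 r') →
        r ≤ r' := by
  obtain ⟨hc, hn⟩ := ul_compact hθ h
  obtain ⟨r, hr, hmin⟩ := hc.exists_isLeast hn
  obtain ⟨U, hU, ht⟩ := mapClusterPt_iff_ultrafilter.1 hr
  exact ⟨U, r, hU, ht, fun U' r' hU' ht' =>
    hmin (mapClusterPt_iff_ultrafilter.2 ⟨U', hU', ht'⟩)⟩

end SYS.RB
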