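import Pool.Agent.SYS.RB.Bd
import Pool.Agent.SYS.RB.Ul

/-!
# SYS-RB-Be: existence and positivity of the limits

Eventual bounds of the ratios and limits along ultrafilters.
-/

namespace SYS.RB

open Filter Topology Finset

theorem rho_mem (hG : GJ) {θ : ℝ} (h : 0 < θ) (h' : θ < 1 / 2) :
    ∃ c : ℝ, 0 < c ∧ ∀ᶠ p in Fth θ, rho p ∈ Set.Icc c 1 := by
  obtain ⟨C, hC, hbd⟩ := bd_up h'
  have hC0 : 0 < C := lt_of_lt_of_le one_pos hC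
  refine ⟨1 / C, by positivity, ?_⟩
  filter_upwards [(tendsto_sh h (-1) 0).eventually hbd, ge_ev θ 2, ev_pos h'] with p h1 h2 h3
  have e1 : (sh (-1) 0 p).1 = p.1 - 1 := by
    show ((p.1 : ℤ) + -1).toNat = p.1 - 1
    omega
  have e2 : (sh (-1) 0 p).2 = p.2 := by
    show ((p.2 : ℤ) + 0).toNat = p.2
    omega
  have e3 : p.1 - 1 + 1 = p.1 := by omega
  rw [e1, e2, e3] at h1
  have h4 := tt_le10 hG (n := p.1 - 1) (by omega) p.2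
  rw [e3] at h4
  have h5 := tt_nn (p.1 - 1) p.2
  unfold rho
  refine ⟨?_, ?_⟩
  · rw [le_div_iff₀ h3, div_mul_eq_mul_div, one_mul, div_le_iff₀ hC0, mul_comm]
    exact h1
  · rw [div_le_one h3]
    linarith

theorem kap_mem (hG : GJ) {θ : ℝ} (h : 0 < θ) (h' : θ < 1 / 2) :
    ∃ C : ℝ, ∀ᶠ p in Fth θ, kap p ∈ Set.Icc 0 C := by
  obtain ⟨C, _, hbd⟩ := bd_g hG h h'
  refine ⟨C, ?_⟩
  filter_upwards [hbd, ev_pos h'] with p h1 h2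
  refine ⟨kap_nn p, ?_⟩
  unfold kap
  rw [div_le_iff₀ h2]
  exact h1

theorem rpos_of_isR (hG : GJ) {θ : ℝ} (h : 0 < θ) (h' : θ < 1 / 2) {U : Ultrafilter (ℕ × ℕ)}
    (hU : Adm θ U) {r : ℝ} (hr : IsR U r) : 0 < r := by
  obtain ⟨c, hc, hev⟩ := rho_mem hG h h'
  have h1 : ∀ᶠ p in (U : Filter (ℕ × ℕ)), c ≤ rho p := (hev.filter_mono hU).mono fun p hp => hp.1
  exact lt_of_lt_of_le hc (ge_of_tendsto hr h1)

theorem qnn_of_isQ {U : Ultrafilter (ℕ × ℕ)} {q : ℝ} (hq : IsQ U q) : 0 ≤ q :=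
  ge_of_tendsto' hq fun p => kap_nn p

theorem exists_isR (hG : GJ) {θ : ℝ} (h : 0 < θ) (h' : θ < 1 / 2) {U : Ultrafilter (ℕ × ℕ)}
    (hU : Adm θ U) : ∃ r, IsR U r := by
  obtain ⟨c, _, hev⟩ := rho_mem hG h h'
  obtain ⟨r, _, hr⟩ := exists_lim U (hev.filter_mono hU)
  exact ⟨r, hr⟩

theorem exists_isQ (hG : GJ) {θ : ℝ} (h : 0 < θ) (h' : θ < 1 / 2) {U : Ultrafilter (ℕ × ℕ)}
    (hU : Adm θ U) : ∃ q, IsQ U q := by
  obtain ⟨C, hev⟩ := kap_mem hG h h'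
  obtain ⟨q, _, hq⟩ := exists_lim U (hev.filter_mono hU)
  exact ⟨q, hq⟩

end SYS.RB
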