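import Pool.Agent.SYS.RB.Cr
import Pool.Agent.SYS.RB.Be

/-!
# SYS-RB-Dr: ratio of the main terms at `m - 1` and at `m`

`p = (m, g)`, `sh (-1) 0 p = (m - 1, g)`, `k = g + 1 - l`, `j = m - i`, `V = j + 2 - 2 k`.
-/

namespace SYS.RB

open Filter Topology Finset

private theorem gapN {θ : ℝ} (h' : θ < 1 / 2) (M : ℕ) :
    ∀ᶠ p in Fth θ, 2 * p.2 + M ≤ p.1 := by
  obtain ⟨δ, hδ, _, hg⟩ := gap h'
  have h1 : Tendsto (fun p : ℕ × ℕ => δ * (p.1 : ℝ)) (Fth θ) atTop :=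
    (fst_atTop θ).const_mul_atTop hδ
  filter_upwards [hg, h1.eventually_ge_atTop (M : ℝ)] with p h2 h3
  have h4 : (2 * (p.2 : ℝ) + M) ≤ p.1 := by linarith
  exact_mod_cast h4

private theorem VV_atTop {θ : ℝ} (h' : θ < 1 / 2) (i l : ℕ) :
    Tendsto (fun p : ℕ × ℕ => ((p.1 - i + 2 - 2 * (p.2 + 1 - l) : ℕ) : ℝ)) (Fth θ) atTop := by
  rw [tendsto_natCast_atTop_iff]
  rw [tendsto_atTop]
  intro b
  filter_upwards [gapN h' (i + b)] with p hp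
  omega

private theorem JJ_atTop {θ : ℝ} (i : ℕ) :
    Tendsto (fun p : ℕ × ℕ => ((p.1 - i : ℕ) : ℝ)) (Fth θ) atTop := by
  rw [tendsto_natCast_atTop_iff]
  rw [tendsto_atTop]
  intro b
  filter_upwards [ge_ev θ (i + b)] with p hp
  omega

theorem Dt_pos_ev {θ : ℝ} (h : 0 < θ) (h' : θ < 1 / 2) (i l : ℕ) :
    ∀ᶠ p in Fth θ, 0 < Dt i l p := by
  filter_upwards [gapN h' (i + 2 * l + 10)] with p hp
  unfold Dt
  have h1 : 0 < tt i 0 := tt_pos (by omega)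
  have h2 : 0 < ((p.1 - i + 2 - 2 * (p.2 + 1 - l)).choose (2 * l) : ℝ) := by
    have : 0 < (p.1 - i + 2 - 2 * (p.2 + 1 - l)).choose (2 * l) :=
      Nat.choose_pos (by omega)
    exact_mod_cast this
  have h3 : 0 < SST.nu (p.1 - i) (p.2 + 1 - l) :=
    SST.nu_pos hypTwo (by omega) (by omega)
  have h4 : (0 : ℝ) < ((p.1 - i : ℕ) : ℝ) := by
    have : 0 < p.1 - i := by omega
    exact_mod_cast this
  positivity

private theorem ratio_eq {i l : ℕ} {p : ℕ × ℕ} (hp : 2 * p.2 + (i + 2 * l + 10) ≤ p.1)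
    (hl : l ≤ p.2) :
    Dt i l (sh (-1) 0 p) / Dt i l p =
      (1 - 2 * (l : ℝ) / ((p.1 - i + 2 - 2 * (p.2 + 1 - l) : ℕ) : ℝ)) *
        (rho (sh (1 - (i : ℤ)) (1 - (l : ℤ)) p) * (1 + 3 / (3 * ((p.1 - i : ℕ) : ℝ) - 1))) := by
  obtain ⟨m, g⟩ := p
  simp only at hp hl
  obtain ⟨k, hk⟩ : ∃ k, k = g + 1 - l := ⟨_, rfl⟩
  obtain ⟨n, hn⟩ : ∃ n, m = i + 1 + (n + 1) := ⟨m - i - 2, by omega⟩
  obtain ⟨W, hW⟩ : ∃ W, m - i + 2 - 2 * k = W + 1 := ⟨m - i + 1 - 2 * k, by omega⟩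
  have e1 : sh (-1) 0 (m, g) = (m - 1, g) := by
    refine Prod.ext ?_ ?_
    · show ((m : ℤ) + -1).toNat = m - 1
      omega
    · show ((g : ℤ) + 0).toNat = g
      omega
  have e2 : sh (1 - (i : ℤ)) (1 - (l : ℤ)) (m, g) = (m - i + 1, k) := by
    refine Prod.ext ?_ ?_
    · show ((m : ℤ) + (1 - (i : ℤ))).toNat = m - i + 1
      omega
    · show ((g : ℤ) + (1 - (l : ℤ))).toNat = k
      omega
  rw [e1, e2]
  unfold Dt rho
  simp only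
  rw [← hk]
  have e3 : m - i = n + 2 := by omega
  have e4 : m - 1 - i = n + 1 := by omega
  have e5 : m - 1 - i + 2 - 2 * k = W := by omega
  rw [e5, hW, e4, e3]
  have e6 : n + 2 + 1 - 1 = n + 2 := by omega
  rw [e6]
  have t1 := tau_eq (j := n + 2) (by omega) k
  have t2 := tau_eq (j := n + 1) (by omega) k
  rw [t1, t2]
  have p1 : 0 < tt (n + 1 + 1) k := tt_pos (by omega)
  have p2 : 0 < tt (n + 2 + 1) k := tt_pos (by omega)
  have p3 : 0 < tt i 0 := tt_pos (by omega)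
  have c1 : W.choose (2 * l) * (W + 1) = (W + 1).choose (2 * l) * (W + 1 - 2 * l) :=
    Nat.choose_mul_succ_eq W (2 * l)
  have c2 : (W.choose (2 * l) : ℝ) * (W + 1) = ((W + 1).choose (2 * l) : ℝ) * (W + 1 - 2 * l) := by
    have h5 : ((W + 1 - 2 * l : ℕ) : ℝ) = (W : ℝ) + 1 - 2 * l := by
      rw [Nat.cast_sub (by omega)]
      push_cast
      ring
    rw [← h5]
    exact_mod_cast c1
  have c3 : (0 : ℝ) < ((W + 1).choose (2 * l) : ℝ) := by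
    have : 0 < (W + 1).choose (2 * l) := Nat.choose_pos (by omega)
    exact_mod_cast this
  have c4 : (W.choose (2 * l) : ℝ) =
      ((W + 1).choose (2 * l) : ℝ) * (1 - 2 * (l : ℝ) / ((W + 1 : ℕ) : ℝ)) := by
    have h6 : ((W : ℝ) + 1) ≠ 0 := by positivity
    push_cast
    field_simp
    linarith
  rw [c4]
  have e7 : tt (n + 1 + 1) k = tt (n + 2) k := rfl
  rw [e7]
  have h7 : (0 : ℝ) < (n : ℝ) + 2 := by positivity
  have h8 : (3 * (((n + 2 : ℕ) : ℝ)) - 1) ≠ 0 := by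
    push_cast
    have : (0 : ℝ) ≤ n := by positivity
    nlinarith
  have h9 : (3 * (((n + 1 : ℕ) : ℝ)) + 2) = (3 * (((n + 2 : ℕ) : ℝ)) - 1) := by
    push_cast
    ring
  rw [h9]
  have h10 : (1 + 3 / (3 * (((n + 2 : ℕ) : ℝ)) - 1)) =
      (3 * (((n + 2 : ℕ) : ℝ)) + 2) / (3 * (((n + 2 : ℕ) : ℝ)) - 1) := by
    field_simp
    ring
  rw [h10]
  have h11 : (3 * (((n + 2 : ℕ) : ℝ)) + 2) ≠ 0 := by positivity
  generalize (3 * (((n + 2 : ℕ) : ℝ)) - 1) = A at *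
  generalize (3 * (((n + 2 : ℕ) : ℝ)) + 2) = B at *
  generalize (1 - 2 * (l : ℝ) / ((W + 1 : ℕ) : ℝ)) = E at *
  field_simp

theorem dt_ratio {θ : ℝ} (h : 0 < θ) (h' : θ < 1 / 2) {U : Ultrafilter (ℕ × ℕ)} (hU : Adm θ U)
    {i l : ℕ} (hl : 1 ≤ l) {x : ℝ} (hx : IsR (SH (1 - (i : ℤ)) (1 - (l : ℤ)) U) x) :
    Tendsto (fun p => Dt i l (sh (-1) 0 p) / Dt i l p) (U : Filter (ℕ × ℕ)) (𝓝 x) := by
  have hV := VV_atTop h' i l
  have hJ := JJ_atTop (θ := θ) i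
  have hE : Tendsto (fun p : ℕ × ℕ =>
      1 - 2 * (l : ℝ) / ((p.1 - i + 2 - 2 * (p.2 + 1 - l) : ℕ) : ℝ)) (Fth θ) (𝓝 (1 - 0)) :=
    tendsto_const_nhds.sub (tendsto_const_nhds.div_atTop hV)
  have hF : Tendsto (fun p : ℕ × ℕ => 1 + 3 / (3 * ((p.1 - i : ℕ) : ℝ) - 1)) (Fth θ)
      (𝓝 (1 + 0)) := by
    refine tendsto_const_nhds.add (tendsto_const_nhds.div_atTop ?_)
    exact tendsto_atTop_add_const_right _ _ (hJ.const_mul_atTop (by norm_num : (0 : ℝ) < 3))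
  have hR := isR_SH.1 hx
  have hm := (hE.mono_left hU).mul (hR.mul (hF.mono_left hU))
  rw [sub_zero, add_zero, mul_one, one_mul] at hm
  refine hm.congr' ?_
  have hev : ∀ᶠ p in Fth θ, Dt i l (sh (-1) 0 p) / Dt i l p =
      (1 - 2 * (l : ℝ) / ((p.1 - i + 2 - 2 * (p.2 + 1 - l) : ℕ) : ℝ)) *
        (rho (sh (1 - (i : ℤ)) (1 - (l : ℤ)) p) * (1 + 3 / (3 * ((p.1 - i : ℕ) : ℝ) - 1))) := by
    filter_upwards [gapN h' (i + 2 * l + 10), ge_ev' h l] with p hp1 hp2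
    exact ratio_eq hp1 hp2
  filter_upwards [hev.filter_mono hU] with p hp
  exact hp.symm

theorem wt_shift {θ : ℝ} (h : 0 < θ) (h' : θ < 1 / 2) {U : Ultrafilter (ℕ × ℕ)} (hU : Adm θ U)
    {i l : ℕ} (hl : 1 ≤ l) {x w : ℝ} (hx : IsR (SH (1 - (i : ℤ)) (1 - (l : ℤ)) U) x)
    (hw : Tendsto (wt i l) (U : Filter (ℕ × ℕ)) (𝓝 w)) :
    Tendsto (fun p : ℕ × ℕ => Dt i l (sh (-1) 0 p) / (p.1 * tt p.1 p.2)) (U : Filter (ℕ × ℕ))
      (𝓝 (w * x)) := by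
  have h1 := hw.mul (dt_ratio h h' hU hl hx)
  refine h1.congr' ?_
  filter_upwards [(Dt_pos_ev h h' i l).filter_mono hU] with p hp
  unfold wt
  rw [div_mul_div_comm, mul_comm (Dt i l p), mul_div_mul_right _ _ hp.ne']

end SYS.RB
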