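import Pool.Agent.SYS.RB.Tl
import Pool.Agent.SYS.RB.Dr

/-!
# SYS-RB-Av: averaging identity

PROOF.  `p = (m, g)`.  `exists_w`: eventually `0 ≤ wt i l p ≤ 1`: `main_le` with `K = i + 1`, `L = l` and nonnegativity; divide by `m tt m g > 0`; `exists_lim`.
`aver`: (1) `main_le` at `p` divided by `m tt m g`: `∑∑ wt i l p ≤ 1`, limit (`le_of_tendsto`, `tendsto_finset_sum`).
(2) `main_le` at `sh (-1) 0 p = (m-1, g)` (`tendsto_sh`): `∑∑ Dt i l (sh (-1) 0 p) ≤ (m-1) tt (m-1) g`; divide by `m tt m g`: the left side tends to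
`∑∑ w i l * R i l` (`wt_shift`), the right side is `((m-1)/m) * rho p → r0`.
(3), (4): the same with `main_mass`.
-/

namespace SYS.RB

open Filter Topology Finset

private theorem av_pos {θ : ℝ} (h' : θ < 1 / 2) {U : Ultrafilter (ℕ × ℕ)} (hU : Adm θ U) :
    ∀ᶠ p in (U : Filter (ℕ × ℕ)), 0 < (p.1 : ℝ) * tt p.1 p.2 := by
  filter_upwards [hU (ev_pos h'), hU (ge_ev θ 1)] with p h1 h2
  have h3 : (0 : ℝ) < p.1 := by exact_mod_cast h2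
  exact mul_pos h3 h1

private theorem av_dt_le {K L i l : ℕ} (hi : i < K) (hl : 1 ≤ l) (hl' : l ≤ L) (p : ℕ × ℕ) :
    Dt i l p ≤ ∑ i ∈ range K, ∑ l ∈ Icc 1 L, Dt i l p := by
  have h1 : Dt i l p ≤ ∑ l ∈ Icc 1 L, Dt i l p :=
    Finset.single_le_sum (f := fun l => Dt i l p) (fun l _ => Dt_nn i l p)
      (Finset.mem_Icc.2 ⟨hl, hl'⟩)
  refine h1.trans ?_
  exact Finset.single_le_sum (f := fun i => ∑ l ∈ Icc 1 L, Dt i l p)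
    (fun i _ => Finset.sum_nonneg fun l _ => Dt_nn i l p) (Finset.mem_range.2 hi)

private theorem av_sum_wt (K L : ℕ) (p : ℕ × ℕ) :
    ∑ i ∈ range K, ∑ l ∈ Icc 1 L, wt i l p =
      (∑ i ∈ range K, ∑ l ∈ Icc 1 L, Dt i l p) / (p.1 * tt p.1 p.2) := by
  unfold wt
  simp only [← Finset.sum_div]

private theorem av_lim {U : Ultrafilter (ℕ × ℕ)} {f : ℕ → ℕ → ℕ × ℕ → ℝ} {w : ℕ → ℕ → ℝ}
    (hw : ∀ i l, 1 ≤ l → Tendsto (f i l) (U : Filter (ℕ × ℕ)) (𝓝 (w i l))) (K L : ℕ) :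
    Tendsto (fun p => ∑ i ∈ range K, ∑ l ∈ Icc 1 L, f i l p) (U : Filter (ℕ × ℕ))
      (𝓝 (∑ i ∈ range K, ∑ l ∈ Icc 1 L, w i l)) :=
  tendsto_finsetSum _ fun i _ => tendsto_finsetSum _ fun l hl => hw i l (Finset.mem_Icc.1 hl).1

private theorem av_rhs {θ : ℝ} {U : Ultrafilter (ℕ × ℕ)} (hU : Adm θ U) {r0 : ℝ} (hr : IsR U r0) :
    Tendsto (fun p : ℕ × ℕ => ((sh (-1) 0 p).1 : ℝ) * tt (sh (-1) 0 p).1 (sh (-1) 0 p).2 /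
      (p.1 * tt p.1 p.2)) (U : Filter (ℕ × ℕ)) (𝓝 r0) := by
  have h1 : Tendsto (fun p : ℕ × ℕ => (1 - ((p.1 : ℝ))⁻¹) * rho p) (U : Filter (ℕ × ℕ))
      (𝓝 ((1 - 0) * r0)) := by
    refine Tendsto.mul (Tendsto.sub tendsto_const_nhds ?_) hr
    exact (tendsto_inv_atTop_zero.comp (fst_atTop θ)).mono_left hU
  rw [sub_zero, one_mul] at h1
  refine h1.congr' ?_
  filter_upwards [hU (ge_ev θ 1)] with p hp
  obtain ⟨m, g⟩ := p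
  obtain ⟨n, rfl⟩ : ∃ n, m = n + 1 := ⟨m - 1, by simp only at hp; omega⟩
  have h2 : sh (-1) 0 (n + 1, g) = (n, g) := by
    unfold sh
    ext <;> simp
  rw [h2]
  unfold rho
  simp only [Nat.add_sub_cancel]
  have h3 : ((n + 1 : ℕ) : ℝ) ≠ 0 := by positivity
  have h4 : (1 : ℝ) - (((n + 1 : ℕ) : ℝ))⁻¹ = n / ((n + 1 : ℕ) : ℝ) := by
    rw [eq_div_iff h3, sub_mul, inv_mul_cancel₀ h3]
    push_cast
    ring
  rw [h4, div_mul_div_comm]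

theorem exists_w (hT : TODA) {θ : ℝ} (h : 0 < θ) (h' : θ < 1 / 2) {U : Ultrafilter (ℕ × ℕ)}
    (hU : Adm θ U) {i l : ℕ} (hl : 1 ≤ l) :
    ∃ w : ℝ, 0 ≤ w ∧ Tendsto (wt i l) (U : Filter (ℕ × ℕ)) (𝓝 w) := by
  obtain ⟨r, hr, hr'⟩ := exists_lim (f := wt i l) (a := 0) (b := 1) U (by
    filter_upwards [hU (main_le hT h (i + 1) l), av_pos h' hU] with p h1 h2
    refine ⟨wt_nn i l p, ?_⟩
    unfold wt
    rw [div_le_one h2]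
    exact (av_dt_le (Nat.lt_succ_self i) hl le_rfl p).trans h1)
  exact ⟨r, hr.1, hr'⟩

theorem sum_le_one (hT : TODA) {θ : ℝ} (h : 0 < θ) (h' : θ < 1 / 2) {U : Ultrafilter (ℕ × ℕ)}
    (hU : Adm θ U) {w : ℕ → ℕ → ℝ}
    (hw : ∀ i l, 1 ≤ l → Tendsto (wt i l) (U : Filter (ℕ × ℕ)) (𝓝 (w i l))) (K L : ℕ) :
    ∑ i ∈ range K, ∑ l ∈ Icc 1 L, w i l ≤ 1 := by
  refine le_of_tendsto (av_lim hw K L) ?_
  filter_upwards [hU (main_le hT h K L), av_pos h' hU] with p h1 h2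
  rw [av_sum_wt, div_le_one h2]
  exact h1

theorem sum_ge (hG : GJ) (hT : TODA) {θ : ℝ} (h : 0 < θ) (h' : θ < 1 / 2)
    {U : Ultrafilter (ℕ × ℕ)} (hU : Adm θ U) {w : ℕ → ℕ → ℝ}
    (hw : ∀ i l, 1 ≤ l → Tendsto (wt i l) (U : Filter (ℕ × ℕ)) (𝓝 (w i l)))
    {ε : ℝ} (hε : 0 < ε) :
    ∃ K0 L0 : ℕ, ∀ K ≥ K0, ∀ L ≥ L0, 1 - ε ≤ ∑ i ∈ range K, ∑ l ∈ Icc 1 L, w i l := by
  obtain ⟨K0, L0, h0⟩ := main_mass hG hT h h' hε
  refine ⟨K0, L0, fun K hK L hL => ?_⟩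
  refine ge_of_tendsto (av_lim hw K L) ?_
  filter_upwards [hU (h0 K hK L hL), av_pos h' hU] with p h1 h2
  rw [av_sum_wt, le_div_iff₀ h2]
  exact h1

theorem aver_le (hT : TODA) {θ : ℝ} (h : 0 < θ) (h' : θ < 1 / 2) {U : Ultrafilter (ℕ × ℕ)}
    (hU : Adm θ U) {r0 : ℝ} (hr : IsR U r0) {w R : ℕ → ℕ → ℝ}
    (hw : ∀ i l, 1 ≤ l → Tendsto (wt i l) (U : Filter (ℕ × ℕ)) (𝓝 (w i l)))
    (hR : ∀ i l : ℕ, 1 ≤ l → IsR (SH (1 - (i : ℤ)) (1 - (l : ℤ)) U) (R i l)) (K L : ℕ) :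
    ∑ i ∈ range K, ∑ l ∈ Icc 1 L, w i l * R i l ≤ r0 := by
  refine le_of_tendsto_of_tendsto (av_lim (fun i l hl => wt_shift h h' hU hl (hR i l hl)
    (hw i l hl)) K L) (av_rhs hU hr) ?_
  filter_upwards [hU ((tendsto_sh h (-1) 0).eventually (main_le hT h K L)), av_pos h' hU]
    with p h1 h2
  simp only [← Finset.sum_div]
  exact div_le_div_of_nonneg_right h1 h2.le

theorem aver_ge (hG : GJ) (hT : TODA) {θ : ℝ} (h : 0 < θ) (h' : θ < 1 / 2)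
    {U : Ultrafilter (ℕ × ℕ)} (hU : Adm θ U) {r0 : ℝ} (hr : IsR U r0) {w R : ℕ → ℕ → ℝ}
    (hw : ∀ i l, 1 ≤ l → Tendsto (wt i l) (U : Filter (ℕ × ℕ)) (𝓝 (w i l)))
    (hR : ∀ i l : ℕ, 1 ≤ l → IsR (SH (1 - (i : ℤ)) (1 - (l : ℤ)) U) (R i l))
    {ε : ℝ} (hε : 0 < ε) :
    ∃ K0 L0 : ℕ, ∀ K ≥ K0, ∀ L ≥ L0,
      (1 - ε) * r0 ≤ ∑ i ∈ range K, ∑ l ∈ Icc 1 L, w i l * R i l := by
  obtain ⟨K0, L0, h0⟩ := main_mass hG hT h h' hε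
  refine ⟨K0, L0, fun K hK L hL => ?_⟩
  refine le_of_tendsto_of_tendsto ((av_rhs hU hr).const_mul (1 - ε))
    (av_lim (fun i l hl => wt_shift h h' hU hl (hR i l hl) (hw i l hl)) K L) ?_
  filter_upwards [hU ((tendsto_sh h (-1) 0).eventually (h0 K hK L hL)), av_pos h' hU]
    with p h1 h2
  simp only [← Finset.sum_div]
  rw [← mul_div_assoc]
  exact div_le_div_of_nonneg_right h1 h2.le

end SYS.RB
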