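import Pool.Agent.SYS.RB.Cr
import Pool.Agent.SYS.RB.Win

/-!
# SYS-RB-Bd: crude bounds in the window

PROOF.  `gap`: eventually `2 p.2 + δ p.1 ≤ p.1`.
* `ev_pos`: `2 p.2 ≤ p.1` eventually, `tt_pos`.
* `bd_up`: `tt_one` with `p.1 = n + 1` (`n ≥ 1`): `V = n + 3 - 2 p.2 = p.1 + 2 - 2 p.2 ≥ δ p.1 + 2`, so `choose V 2 = V (V-1)/2 ≥ δ² p.1²/2` and
  `(3n+5) (6 (n+1)) = 6 (3 p.1 + 2) p.1 ≤ 30 p.1²` : `C = 60/δ²`.
* `bd_g`: `tt_two` at `g - 1` (`p.2 = g ≥ 1`, `p.1 = n + 1`): `V = n + 3 - 2(g-1) ≥ δ p.1 + 4`, `choose V 4 ≥ (δ p.1)^4/24`, so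
  `(δ p.1)^4/24 * tt (p.1 + 1) (p.2 - 1) ≤ 30 p.1² tt p.1 p.2`, and `tt p.1 (p.2 - 1) ≤ tt (p.1 + 1) (p.2 - 1)` (`tt_le10`).
  (See `choose_lb` in `Pool/Agent/SST/E/Pos.lean`, copy it.)
* `bd`: induction on `k`.  `k = 0`: `tt (p.1 + 1 - i) g ≤ tt (p.1 + 1) g ≤ C tt p.1 g` for large `p.1` (`tt_le10` iterated: `tt` is increasing in the first index from
  index `1` on; `bd_up`).  Step: `p.1^(2 (k+1)) tt (p.1 + 1 - i) (p.2 - (k+1)) = p.1^2 * (p.1^(2k) tt (p.1 + 1 - i) ((p.2 - 1) - k)) ≤ C p.1^2 tt p.1 (p.2 - 1)` by the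
  induction hypothesis at the shifted point `sh 0 (-1) p = (p.1, p.2 - 1)` (`(tendsto_sh h 0 (-1)).eventually`) and then `bd_g`.
-/

namespace SYS.RB

open Filter Topology Finset

private theorem bd_choose_lb (v k : ℕ) (x : ℝ) (hx : 0 ≤ x) (h : x + k ≤ v + 1) :
    x ^ k ≤ k.factorial * (v.choose k : ℝ) := by
  have hk : k ≤ v + 1 := by
    have : (k : ℝ) ≤ ((v + 1 : ℕ) : ℝ) := by
      push_cast
      linarith
    exact_mod_cast this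
  have h1 := Nat.pow_sub_le_descFactorial v k
  rw [Nat.descFactorial_eq_factorial_mul_choose] at h1
  have h2 : ((v + 1 - k : ℕ) : ℝ) ^ k ≤ k.factorial * (v.choose k : ℝ) := by exact_mod_cast h1
  refine le_trans (pow_le_pow_left₀ hx ?_ k) h2
  rw [Nat.cast_sub hk]
  push_cast
  linarith

theorem ev_pos {θ : ℝ} (h : θ < 1 / 2) : ∀ᶠ p in Fth θ, 0 < tt p.1 p.2 := by
  obtain ⟨δ, hδ, -, hev⟩ := gap h
  filter_upwards [hev] with p hp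
  apply tt_pos
  have h1 : (0 : ℝ) ≤ δ * p.1 := by positivity
  have h2 : ((2 * p.2 : ℕ) : ℝ) ≤ (p.1 : ℝ) := by
    push_cast
    linarith
  exact_mod_cast h2

theorem bd_up {θ : ℝ} (h' : θ < 1 / 2) :
    ∃ C : ℝ, 1 ≤ C ∧ ∀ᶠ p in Fth θ, tt (p.1 + 1) p.2 ≤ C * tt p.1 p.2 := by
  obtain ⟨δ, hδ, hδ1, hev⟩ := gap h'
  have hδ2 : 0 < δ ^ 2 := by positivity
  have hδ21 : δ ^ 2 ≤ 1 := pow_le_one₀ hδ.le hδ1
  refine ⟨60 / δ ^ 2, ?_, ?_⟩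
  · rw [le_div_iff₀ hδ2]
    linarith
  filter_upwards [hev, ge_ev θ 2] with p hp hN
  obtain ⟨N, g⟩ := p
  simp only at hp hN ⊢
  obtain ⟨n, rfl⟩ : ∃ n, N = n + 1 := ⟨N - 1, by omega⟩
  have hn : 1 ≤ n := by omega
  have hN0 : (0 : ℝ) < ((n + 1 : ℕ) : ℝ) := by positivity
  have hg : 2 * g ≤ n + 1 := by
    have h1 : (0 : ℝ) ≤ δ * ((n + 1 : ℕ) : ℝ) := by positivity
    have h2 : ((2 * g : ℕ) : ℝ) ≤ ((n + 1 : ℕ) : ℝ) := by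
      push_cast at hp h1 ⊢
      linarith
    exact_mod_cast h2
  have a1 := tt_one hn g
  have a2 : (δ * ((n + 1 : ℕ) : ℝ)) ^ 2 ≤
      (Nat.factorial 2 : ℕ) * ((n + 3 - 2 * g).choose 2 : ℝ) := by
    refine bd_choose_lb _ 2 _ (by positivity) ?_
    rw [Nat.cast_sub (by omega)]
    push_cast at hp ⊢
    linarith
  have a3 : ((Nat.factorial 2 : ℕ) : ℝ) = 2 := by norm_num [Nat.factorial]
  rw [a3] at a2
  have a4 := tt_nn (n + 2) g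
  have a5 := tt_nn (n + 1) g
  have key : (3 * (n : ℝ) + 5) * (6 * (n + 1)) ≤ 30 * ((n + 1 : ℕ) : ℝ) ^ 2 := by
    push_cast
    nlinarith [(Nat.cast_nonneg n : (0 : ℝ) ≤ n)]
  have a6 : (δ * ((n + 1 : ℕ) : ℝ)) ^ 2 * tt (n + 2) g ≤
      60 * ((n + 1 : ℕ) : ℝ) ^ 2 * tt (n + 1) g := by
    calc (δ * ((n + 1 : ℕ) : ℝ)) ^ 2 * tt (n + 2) g
        ≤ 2 * ((n + 3 - 2 * g).choose 2 : ℝ) * tt (n + 2) g :=
          mul_le_mul_of_nonneg_right a2 a4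
      _ ≤ 2 * ((3 * n + 5) * (6 * (n + 1)) * tt (n + 1) g) := by linarith
      _ ≤ 2 * (30 * ((n + 1 : ℕ) : ℝ) ^ 2 * tt (n + 1) g) := by
          have := mul_le_mul_of_nonneg_right key a5
          linarith
      _ = 60 * ((n + 1 : ℕ) : ℝ) ^ 2 * tt (n + 1) g := by ring
  have a7 : δ ^ 2 * tt (n + 2) g ≤ 60 * tt (n + 1) g := by
    have : 0 < ((n + 1 : ℕ) : ℝ) ^ 2 := by positivity
    refine le_of_mul_le_mul_left ?_ this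
    calc ((n + 1 : ℕ) : ℝ) ^ 2 * (δ ^ 2 * tt (n + 2) g)
        = (δ * ((n + 1 : ℕ) : ℝ)) ^ 2 * tt (n + 2) g := by ring
      _ ≤ _ := a6
      _ = _ := by ring
  rw [div_mul_eq_mul_div, le_div_iff₀ hδ2, mul_comm]
  exact a7

theorem bd_g (hG : GJ) {θ : ℝ} (h : 0 < θ) (h' : θ < 1 / 2) :
    ∃ C : ℝ, 1 ≤ C ∧ ∀ᶠ p in Fth θ, (p.1 : ℝ) ^ 2 * tt p.1 (p.2 - 1) ≤ C * tt p.1 p.2 := by
  obtain ⟨δ, hδ, hδ1, hev⟩ := gap h'
  have hδ4 : 0 < δ ^ 4 := by positivity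
  have hδ41 : δ ^ 4 ≤ 1 := pow_le_one₀ hδ.le hδ1
  refine ⟨720 / δ ^ 4, ?_, ?_⟩
  · rw [le_div_iff₀ hδ4]
    linarith
  filter_upwards [hev, ge_ev θ 2, ge_ev' h 1] with p hp hN hg1
  obtain ⟨N, G⟩ := p
  simp only at hp hN hg1 ⊢
  obtain ⟨n, rfl⟩ : ∃ n, N = n + 1 := ⟨N - 1, by omega⟩
  obtain ⟨g, rfl⟩ : ∃ g, G = g + 1 := ⟨G - 1, by omega⟩
  rw [Nat.add_sub_cancel]
  have hn : 1 ≤ n := by omega
  have hN0 : (0 : ℝ) < ((n + 1 : ℕ) : ℝ) := by positivity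
  have hg : 2 * (g + 1) ≤ n + 1 := by
    have h1 : (0 : ℝ) ≤ δ * ((n + 1 : ℕ) : ℝ) := by positivity
    have h2 : ((2 * (g + 1) : ℕ) : ℝ) ≤ ((n + 1 : ℕ) : ℝ) := by
      push_cast at hp h1 ⊢
      linarith
    exact_mod_cast h2
  have a1 := tt_two hn g
  have a2 : (δ * ((n + 1 : ℕ) : ℝ)) ^ 4 ≤
      (Nat.factorial 4 : ℕ) * ((n + 3 - 2 * g).choose 4 : ℝ) := by
    refine bd_choose_lb _ 4 _ (by positivity) ?_
    rw [Nat.cast_sub (by omega)]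
    push_cast at hp ⊢
    linarith
  have a3 : ((Nat.factorial 4 : ℕ) : ℝ) = 24 := by norm_num [Nat.factorial]
  rw [a3] at a2
  have a4 := tt_nn (n + 2) g
  have a5 := tt_nn (n + 1) (g + 1)
  have a8 := tt_le10 hG (n := n + 1) (by omega) g
  have a9 := tt_nn (n + 1) g
  have key : (3 * (n : ℝ) + 5) * (6 * (n + 1)) ≤ 30 * ((n + 1 : ℕ) : ℝ) ^ 2 := by
    push_cast
    nlinarith [(Nat.cast_nonneg n : (0 : ℝ) ≤ n)]
  have a6 : (δ * ((n + 1 : ℕ) : ℝ)) ^ 4 * tt (n + 2) g ≤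
      720 * ((n + 1 : ℕ) : ℝ) ^ 2 * tt (n + 1) (g + 1) := by
    calc (δ * ((n + 1 : ℕ) : ℝ)) ^ 4 * tt (n + 2) g
        ≤ 24 * ((n + 3 - 2 * g).choose 4 : ℝ) * tt (n + 2) g :=
          mul_le_mul_of_nonneg_right a2 a4
      _ ≤ 24 * ((3 * n + 5) * (6 * (n + 1)) * tt (n + 1) (g + 1)) := by linarith
      _ ≤ 24 * (30 * ((n + 1 : ℕ) : ℝ) ^ 2 * tt (n + 1) (g + 1)) := by
          have := mul_le_mul_of_nonneg_right key a5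
          linarith
      _ = 720 * ((n + 1 : ℕ) : ℝ) ^ 2 * tt (n + 1) (g + 1) := by ring
  have a10 : (δ * ((n + 1 : ℕ) : ℝ)) ^ 4 * tt (n + 1) g ≤
      720 * ((n + 1 : ℕ) : ℝ) ^ 2 * tt (n + 1) (g + 1) := by
    refine le_trans (mul_le_mul_of_nonneg_left ?_ (by positivity)) a6
    show tt (n + 1) g ≤ tt (n + 1 + 1) g
    linarith
  have a7 : δ ^ 4 * (((n + 1 : ℕ) : ℝ) ^ 2 * tt (n + 1) g) ≤ 720 * tt (n + 1) (g + 1) := by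
    have : 0 < ((n + 1 : ℕ) : ℝ) ^ 2 := by positivity
    refine le_of_mul_le_mul_left ?_ this
    calc ((n + 1 : ℕ) : ℝ) ^ 2 * (δ ^ 4 * (((n + 1 : ℕ) : ℝ) ^ 2 * tt (n + 1) g))
        = (δ * ((n + 1 : ℕ) : ℝ)) ^ 4 * tt (n + 1) g := by ring
      _ ≤ _ := a10
      _ = _ := by ring
  rw [div_mul_eq_mul_div, le_div_iff₀ hδ4, mul_comm]
  exact a7

private theorem bd_mono (hG : GJ) (g : ℕ) {a b : ℕ} (ha : 1 ≤ a) (hab : a ≤ b) :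
    tt a g ≤ tt b g := by
  induction b, hab using Nat.le_induction with
  | base => exact le_rfl
  | succ b hb ih =>
    have h1 := tt_le10 hG (n := b) (by omega) g
    have h2 := tt_nn b g
    linarith

theorem bd (hG : GJ) {θ : ℝ} (h : 0 < θ) (h' : θ < 1 / 2) (i k : ℕ) :
    ∃ C : ℝ, 1 ≤ C ∧ ∀ᶠ p in Fth θ,
      (p.1 : ℝ) ^ (2 * k) * tt (p.1 + 1 - i) (p.2 - k) ≤ C * tt p.1 p.2 := by
  induction k with
  | zero =>
    obtain ⟨C, hC, hev⟩ := bd_up h'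
    refine ⟨C, hC, ?_⟩
    filter_upwards [hev, ge_ev θ i] with p hp hi
    rw [Nat.mul_zero, pow_zero, one_mul, Nat.sub_zero]
    exact (bd_mono hG _ (by omega) (by omega)).trans hp
  | succ k ih =>
    obtain ⟨C, hC, hev⟩ := ih
    obtain ⟨C', hC', hev'⟩ := bd_g hG h h'
    refine ⟨C * C', by nlinarith, ?_⟩
    have hs := (tendsto_sh h 0 (-1)).eventually hev
    filter_upwards [hs, hev'] with p hp hp'
    have e1 : (sh 0 (-1) p).1 = p.1 := by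
      simp [sh]
    have e2 : (sh 0 (-1) p).2 = p.2 - 1 := by
      simp only [sh]
      omega
    rw [e1, e2] at hp
    have e3 : p.2 - 1 - k = p.2 - (k + 1) := by omega
    rw [e3] at hp
    calc (p.1 : ℝ) ^ (2 * (k + 1)) * tt (p.1 + 1 - i) (p.2 - (k + 1))
        = (p.1 : ℝ) ^ 2 * ((p.1 : ℝ) ^ (2 * k) * tt (p.1 + 1 - i) (p.2 - (k + 1))) := by ring
      _ ≤ (p.1 : ℝ) ^ 2 * (C * tt p.1 (p.2 - 1)) :=
          mul_le_mul_of_nonneg_left hp (by positivity)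
      _ = C * ((p.1 : ℝ) ^ 2 * tt p.1 (p.2 - 1)) := by ring
      _ ≤ C * (C' * tt p.1 p.2) := mul_le_mul_of_nonneg_left hp' (by linarith)
      _ = C * C' * tt p.1 p.2 := by ring

end SYS.RB
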