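import Pool.Agent.SYS.RB.Pos

/-!
# SYS-RB-Cr: elementary consequences of the recursions

PROOF.
* `an_*`: `an n = 4 (3n+2)/(n+1) = 12 - 4/(n+1)`.
* `gj_an`: divide `GJ` by `n + 1`.
* `tt_le` (`n ≥ 1`): in `gj_an` keep only the two terms `(p, q) = ((0,n),(0,g))` and `((n,0),(g,0))` of the double sum (different as
  `n ≥ 1`; all other terms are nonnegative, also the first one: `n (3n-2) ≥ 0`): `an n * (2 * (1/2) * tt n g) ≤ tt (n+1) g`.
* `tt_le10`: `an 1 = 10` and `an` is increasing (`an_mono`).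
* `tt_one`, `tt_two`: `SST.toda_one`, `SST.toda_two` in terms of `tt` (`tt_succ` for `n ≥ 1` and `n + 1`): multiply by
  `(3 (n+1) + 2) * (6 (n+1))`; `6 n (3 n + 2) nu n g = tt (n+1) g`.
* `tau_two`: for `j = n + 1 ≥ 2`: `toda_two`: `choose (j+2-2k) 4 * nu j k ≤ 6 n (3n+2) nu n (k+1) = tt j (k+1) ≤ tt (j+1) (k+1)/10` (`tt_le10`)
  and `tt (j+1) (k+1) = (3j+2) * (6 j) * nu j (k+1)`.  Here `n + 3 - 2k = j + 2 - 2k`.
* `cc_le`: `TODA` at `n = j - 1`, `g = k - 1`: on the right only the term `p = (0, j)`, `q = (0, k)`: `(1/3) (1/2) cc j k ≤ j tt j (k-1)`.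
-/

namespace SYS.RB

open Filter Topology Finset

theorem an_eq (n : ℕ) : an n = 12 - 4 / ((n : ℝ) + 1) := by
  have h : (n : ℝ) + 1 ≠ 0 := by positivity
  unfold an
  field_simp
  ring

theorem an_mono {m n : ℕ} (h : m ≤ n) : an m ≤ an n := by
  rw [an_eq, an_eq]
  have h1 : (m : ℝ) ≤ n := by exact_mod_cast h
  have h2 : (4 : ℝ) / ((n : ℝ) + 1) ≤ 4 / ((m : ℝ) + 1) := by
    apply div_le_div_of_nonneg_left (by norm_num) (by positivity) (by linarith)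
  linarith

theorem an_ge (n : ℕ) : 8 ≤ an n := by
  have h1 := an_mono (Nat.zero_le n)
  have h2 : an 0 = 8 := by
    unfold an
    norm_num
  rw [h2] at h1
  exact h1

theorem an_lt (n : ℕ) : an n < 12 := by
  rw [an_eq]
  have h2 : (0 : ℝ) < 4 / ((n : ℝ) + 1) := by positivity
  linarith

theorem gj_an (h : GJ) (n g : ℕ) : tt (n + 1) g =
    an n * (n * (3 * n - 2) * (if g = 0 then 0 else tt (n - 1) (g - 1)) +
      ∑ p ∈ antidiagonal n, ∑ q ∈ antidiagonal g, tt p.1 q.1 * tt p.2 q.2) := by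
  have h0 : (n : ℝ) + 1 ≠ 0 := by positivity
  have h1 := h n g
  unfold an
  rw [div_mul_eq_mul_div, eq_div_iff h0, mul_comm, h1]

theorem tt_le (h : GJ) {n : ℕ} (hn : 1 ≤ n) (g : ℕ) : an n * tt n g ≤ tt (n + 1) g := by
  rw [gj_an h n g]
  have h0 : 0 ≤ an n := by
    have := an_ge n
    linarith
  refine mul_le_mul_of_nonneg_left ?_ h0
  have hn' : (1 : ℝ) ≤ n := by exact_mod_cast hn
  have h1 : 0 ≤ (n : ℝ) * (3 * n - 2) * (if g = 0 then 0 else tt (n - 1) (g - 1)) := by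
    have h2 : (0 : ℝ) ≤ if g = 0 then 0 else tt (n - 1) (g - 1) := by
      split_ifs
      · exact le_rfl
      · exact tt_nn _ _
    have h3 : (0 : ℝ) ≤ n * (3 * n - 2) := by nlinarith
    exact mul_nonneg h3 h2
  have hnn : ∀ p ∈ antidiagonal n, 0 ≤ ∑ q ∈ antidiagonal g, tt p.1 q.1 * tt p.2 q.2 :=
    fun p _ => Finset.sum_nonneg fun q _ => mul_nonneg (tt_nn _ _) (tt_nn _ _)
  have hsub : ({(0, n), (n, 0)} : Finset (ℕ × ℕ)) ⊆ antidiagonal n := by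
    intro p hp
    rw [Finset.mem_insert, Finset.mem_singleton] at hp
    rcases hp with rfl | rfl <;> simp
  have hne : ((0, n) : ℕ × ℕ) ≠ (n, 0) := by
    intro hc
    have := congrArg Prod.fst hc
    simp at this
    omega
  have h4 := Finset.sum_le_sum_of_subset_of_nonneg hsub fun p hp _ => hnn p hp
  rw [Finset.sum_pair hne] at h4
  have h5 : tt 0 0 * tt n g ≤ ∑ q ∈ antidiagonal g, tt (0, n).1 q.1 * tt (0, n).2 q.2 :=
    Finset.single_le_sum (f := fun q : ℕ × ℕ => tt 0 q.1 * tt n q.2)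
      (fun q _ => mul_nonneg (tt_nn _ _) (tt_nn _ _))
      (show ((0, g) : ℕ × ℕ) ∈ antidiagonal g by simp)
  have h6 : tt n g * tt 0 0 ≤ ∑ q ∈ antidiagonal g, tt (n, 0).1 q.1 * tt (n, 0).2 q.2 :=
    Finset.single_le_sum (f := fun q : ℕ × ℕ => tt n q.1 * tt 0 q.2)
      (fun q _ => mul_nonneg (tt_nn _ _) (tt_nn _ _))
      (show ((g, 0) : ℕ × ℕ) ∈ antidiagonal g by simp)
  rw [tt_zero_zero] at h5 h6
  linarith

theorem tt_le10 (h : GJ) {n : ℕ} (hn : 1 ≤ n) (g : ℕ) : 10 * tt n g ≤ tt (n + 1) g := by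
  have h1 := tt_le h hn g
  have h2 := an_mono hn
  have h3 : an 1 = 10 := by
    unfold an
    norm_num
  rw [h3] at h2
  exact (mul_le_mul_of_nonneg_right h2 (tt_nn n g)).trans h1

theorem tt_one {n : ℕ} (hn : 1 ≤ n) (g : ℕ) :
    ((n + 3 - 2 * g).choose 2 : ℝ) * tt (n + 2) g ≤ (3 * n + 5) * (6 * (n + 1)) * tt (n + 1) g := by
  have h1 := SST.toda_one (n := n) (g := g) hn
  have h2 := tt_succ hn g
  have h3 := tt_succ (show 1 ≤ n + 1 by omega) g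
  have h4 : (0 : ℝ) ≤ (3 * n + 5) * (6 * (n + 1)) := by positivity
  have h5 := mul_le_mul_of_nonneg_left h1 h4
  have e1 : tt (n + 2) g = (3 * n + 5) * (6 * (n + 1)) * SST.nu (n + 1) g := by
    rw [h3]
    push_cast
    ring
  rw [e1, h2]
  calc ((n + 3 - 2 * g).choose 2 : ℝ) * ((3 * n + 5) * (6 * (n + 1)) * SST.nu (n + 1) g)
      = (3 * n + 5) * (6 * (n + 1)) * (((n + 3 - 2 * g).choose 2 : ℝ) * SST.nu (n + 1) g) := by
        ring
    _ ≤ (3 * n + 5) * (6 * (n + 1)) * (6 * n * (3 * n + 2) * SST.nu n g) := h5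
    _ = _ := by ring

theorem tt_two {n : ℕ} (hn : 1 ≤ n) (g : ℕ) :
    ((n + 3 - 2 * g).choose 4 : ℝ) * tt (n + 2) g ≤
      (3 * n + 5) * (6 * (n + 1)) * tt (n + 1) (g + 1) := by
  have h1 := SST.toda_two (n := n) (g := g) hn
  have h2 := tt_succ hn (g + 1)
  have h3 := tt_succ (show 1 ≤ n + 1 by omega) g
  have h4 : (0 : ℝ) ≤ (3 * n + 5) * (6 * (n + 1)) := by positivity
  have h5 := mul_le_mul_of_nonneg_left h1 h4
  have e1 : tt (n + 2) g = (3 * n + 5) * (6 * (n + 1)) * SST.nu (n + 1) g := by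
    rw [h3]
    push_cast
    ring
  rw [e1, h2]
  calc ((n + 3 - 2 * g).choose 4 : ℝ) * ((3 * n + 5) * (6 * (n + 1)) * SST.nu (n + 1) g)
      = (3 * n + 5) * (6 * (n + 1)) * (((n + 3 - 2 * g).choose 4 : ℝ) * SST.nu (n + 1) g) := by
        ring
    _ ≤ (3 * n + 5) * (6 * (n + 1)) * (6 * n * (3 * n + 2) * SST.nu n (g + 1)) := h5
    _ = _ := by ring

theorem tau_two (h : GJ) {j : ℕ} (hj : 2 ≤ j) (k : ℕ) :
    ((j + 2 - 2 * k).choose 4 : ℝ) * (6 * j * SST.nu j k) ≤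
      (1 / 10) * (3 * j + 2) * (6 * j) * (6 * j * SST.nu j (k + 1)) := by
  obtain ⟨n, rfl⟩ : ∃ n, j = n + 1 := ⟨j - 1, by omega⟩
  have hn : 1 ≤ n := by omega
  have h1 := SST.toda_two (n := n) (g := k) hn
  have h2 := tt_succ hn (k + 1)
  have h3 := tt_succ (show 1 ≤ n + 1 by omega) (k + 1)
  have h4 := tt_le10 h (show 1 ≤ n + 1 by omega) (k + 1)
  have e1 : n + 1 + 2 - 2 * k = n + 3 - 2 * k := by omega
  rw [e1]
  have h5 : ((n + 3 - 2 * k).choose 4 : ℝ) * SST.nu (n + 1) k ≤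
      (1 / 10) * ((3 * ((n + 1 : ℕ) : ℝ) + 2) * (6 * ((n + 1 : ℕ) : ℝ)) *
        SST.nu (n + 1) (k + 1)) := by
    rw [← h3]
    have e2 : 6 * (n : ℝ) * (3 * n + 2) * SST.nu n (k + 1) = tt (n + 1) (k + 1) := by
      rw [h2]
      ring
    rw [e2] at h1
    linarith
  have h6 : (0 : ℝ) ≤ 6 * ((n + 1 : ℕ) : ℝ) := by positivity
  have h7 := mul_le_mul_of_nonneg_left h5 h6
  calc ((n + 3 - 2 * k).choose 4 : ℝ) * (6 * ((n + 1 : ℕ) : ℝ) * SST.nu (n + 1) k)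
      = 6 * ((n + 1 : ℕ) : ℝ) * (((n + 3 - 2 * k).choose 4 : ℝ) * SST.nu (n + 1) k) := by ring
    _ ≤ _ := h7
    _ = _ := by ring

theorem cc_le (h : TODA) {j k : ℕ} (hj : 1 ≤ j) (hk : 1 ≤ k) : cc j k ≤ 6 * j * tt j (k - 1) := by
  obtain ⟨n, rfl⟩ : ∃ n, j = n + 1 := ⟨j - 1, by omega⟩
  obtain ⟨g, rfl⟩ : ∃ g, k = g + 1 := ⟨k - 1, by omega⟩
  have h1 := h n g
  have hnn : ∀ p ∈ antidiagonal (n + 1), 0 ≤ ∑ q ∈ antidiagonal (g + 1), tt p.1 q.1 * cc p.2 q.2 :=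
    fun p _ => Finset.sum_nonneg fun q _ => mul_nonneg (tt_nn _ _) (cc_nn _ _)
  have h2 := Finset.single_le_sum hnn (show ((0, n + 1) : ℕ × ℕ) ∈ antidiagonal (n + 1) by simp)
  have h3 : tt 0 0 * cc (n + 1) (g + 1) ≤
      ∑ q ∈ antidiagonal (g + 1), tt (0, n + 1).1 q.1 * cc (0, n + 1).2 q.2 :=
    Finset.single_le_sum (f := fun q : ℕ × ℕ => tt 0 q.1 * cc (n + 1) q.2)
      (fun q _ => mul_nonneg (tt_nn _ _) (cc_nn _ _))
      (show ((0, g + 1) : ℕ × ℕ) ∈ antidiagonal (g + 1) by simp)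
  rw [tt_zero_zero] at h3
  have e1 : g + 1 - 1 = g := by omega
  rw [e1]
  push_cast
  linarith

end SYS.RB
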