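import Pool.Agent.SYS.RB.Bd

/-!
# SYS-RB-Cv: from the ratios of `tt` to the ratios of `nu`

PROOF.  `p = (n, g)`, `n ≥ 2`.  `nu n g = tt (n+1) g/((3n+2) (6n))` (`tt_succ`).
`nu (n-1) g/nu n g = rho (n+1, g) * ((3n+2) n)/((3n-1) (n-1))`: `rho ∘ sh 1 0 → r` (`tendsto_sh`), the elementary factor `→ 1`.
`n² nu n (g-1)/nu n g = n² tt (n+1) (g-1)/tt (n+1) g = (n/(n+1))² kap (n+1, g)`.
-/

namespace SYS.RB

open Filter Topology Finset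

private theorem cv_inv (θ : ℝ) : Tendsto (fun p : ℕ × ℕ => ((p.1 : ℝ))⁻¹) (Fth θ) (𝓝 0) :=
  tendsto_inv_atTop_zero.comp (fst_atTop θ)

private theorem cv_f1 (θ : ℝ) :
    Tendsto (fun p : ℕ × ℕ => (3 * (p.1 : ℝ) + 2) * p.1 / ((3 * (p.1 : ℝ) - 1) * ((p.1 : ℝ) - 1))) (Fth θ) (𝓝 1) := by
  have h1 : Tendsto (fun p : ℕ × ℕ => (3 + 2 * ((p.1 : ℝ))⁻¹) / ((3 - ((p.1 : ℝ))⁻¹) * (1 - ((p.1 : ℝ))⁻¹))) (Fth θ)
      (𝓝 ((3 + 2 * 0) / ((3 - 0) * (1 - 0)))) := by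
    refine Tendsto.div (tendsto_const_nhds.add ((cv_inv θ).const_mul 2))
      ((tendsto_const_nhds.sub (cv_inv θ)).mul (tendsto_const_nhds.sub (cv_inv θ))) (by norm_num)
  have h2 : ((3 : ℝ) + 2 * 0) / ((3 - 0) * (1 - 0)) = 1 := by norm_num
  rw [h2] at h1
  refine h1.congr' ?_
  filter_upwards [ge_ev θ 2] with p hp
  have h3 : (2 : ℝ) ≤ (p.1 : ℝ) := by exact_mod_cast hp
  have h4 : (p.1 : ℝ) ≠ 0 := by linarith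
  have h5 : 3 * (p.1 : ℝ) - 1 ≠ 0 := by linarith
  have h6 : (p.1 : ℝ) - 1 ≠ 0 := by linarith
  have h7 : (3 : ℝ) - ((p.1 : ℝ))⁻¹ = (3 * (p.1 : ℝ) - 1) / p.1 := by field_simp
  have h8 : (1 : ℝ) - ((p.1 : ℝ))⁻¹ = ((p.1 : ℝ) - 1) / p.1 := by field_simp
  have h9 : (3 : ℝ) + 2 * ((p.1 : ℝ))⁻¹ = (3 * (p.1 : ℝ) + 2) / p.1 := by field_simp
  rw [h7, h8, h9]
  field_simp

private theorem cv_f2 (θ : ℝ) :
    Tendsto (fun p : ℕ × ℕ => ((p.1 : ℝ) / ((p.1 : ℝ) + 1)) ^ 2) (Fth θ) (𝓝 1) := by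
  have h1 : Tendsto (fun p : ℕ × ℕ => (1 / (1 + ((p.1 : ℝ))⁻¹)) ^ 2) (Fth θ) (𝓝 ((1 / (1 + 0)) ^ 2)) := by
    refine Tendsto.pow (Tendsto.div tendsto_const_nhds (tendsto_const_nhds.add (cv_inv θ)) (by norm_num)) 2
  have h2 : ((1 : ℝ) / (1 + 0)) ^ 2 = 1 := by norm_num
  rw [h2] at h1
  refine h1.congr' ?_
  filter_upwards [ge_ev θ 1] with p hp
  have h3 : (1 : ℝ) ≤ (p.1 : ℝ) := by exact_mod_cast hp
  have h4 : (p.1 : ℝ) ≠ 0 := by linarith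
  have h5 : (p.1 : ℝ) + 1 ≠ 0 := by linarith
  have h6 : (1 : ℝ) + ((p.1 : ℝ))⁻¹ = ((p.1 : ℝ) + 1) / p.1 := by field_simp
  rw [h6, one_div_div]

private theorem cv_sh (p : ℕ × ℕ) : sh 1 0 p = (p.1 + 1, p.2) := by
  unfold sh
  refine Prod.ext ?_ ?_
  · show ((p.1 : ℤ) + 1).toNat = p.1 + 1
    omega
  · show ((p.2 : ℤ) + 0).toNat = p.2
    omega

theorem nu_ratio {θ : ℝ} (h : 0 < θ) {r : ℝ} (hr : Tendsto rho (Fth θ) (𝓝 r)) :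
    Tendsto (fun p : ℕ × ℕ => SST.nu (p.1 - 1) p.2 / SST.nu p.1 p.2) (Fth θ) (𝓝 r) := by
  have h1 := (hr.comp (tendsto_sh h 1 0)).mul (cv_f1 θ)
  rw [mul_one] at h1
  refine h1.congr' ?_
  filter_upwards [ge_ev θ 2] with p hp
  obtain ⟨N, g⟩ := p
  simp only at hp
  obtain ⟨n, rfl⟩ : ∃ n, N = n + 2 := ⟨N - 2, by omega⟩
  show rho (sh 1 0 (n + 2, g)) * ((3 * ((n + 2 : ℕ) : ℝ) + 2) * ((n + 2 : ℕ) : ℝ) /
    ((3 * ((n + 2 : ℕ) : ℝ) - 1) * (((n + 2 : ℕ) : ℝ) - 1))) = SST.nu (n + 2 - 1) g / SST.nu (n + 2) g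
  rw [cv_sh]
  show tt (n + 2 + 1 - 1) g / tt (n + 2 + 1) g * _ = _
  have e1 : n + 2 + 1 - 1 = (n + 1) + 1 := by omega
  have e2 : n + 2 - 1 = n + 1 := by omega
  rw [e1, e2, tt_succ (by omega : 1 ≤ n + 1) g, tt_succ (by omega : 1 ≤ n + 2) g]
  push_cast
  have h2 : (0 : ℝ) ≤ n := Nat.cast_nonneg n
  have h3 : 3 * ((n : ℝ) + 2) - 1 ≠ 0 := by linarith
  have h4 : (n : ℝ) + 2 - 1 ≠ 0 := by linarith
  have h5 : 3 * ((n : ℝ) + 1) + 2 ≠ 0 := by linarith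
  have h6 : 3 * ((n : ℝ) + 2) + 2 ≠ 0 := by linarith
  have h7 : (n : ℝ) + 1 ≠ 0 := by linarith
  have h8 : (n : ℝ) + 2 ≠ 0 := by linarith
  have e3 : 3 * ((n : ℝ) + 2) - 1 = 3 * ((n : ℝ) + 1) + 2 := by ring
  have e4 : (n : ℝ) + 2 - 1 = (n : ℝ) + 1 := by ring
  rw [e3, e4]
  by_cases h0 : SST.nu (n + 2) g = 0
  · rw [h0, mul_zero, div_zero, zero_mul, div_zero]
  · field_simp

theorem nu_ratio_g {θ : ℝ} (h : 0 < θ) {q : ℝ} (hq : Tendsto kap (Fth θ) (𝓝 q)) :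
    Tendsto (fun p : ℕ × ℕ => (p.1 : ℝ) ^ 2 * SST.nu p.1 (p.2 - 1) / SST.nu p.1 p.2) (Fth θ)
      (𝓝 q) := by
  have h1 := (hq.comp (tendsto_sh h 1 0)).mul (cv_f2 θ)
  rw [mul_one] at h1
  refine h1.congr' ?_
  filter_upwards [ge_ev θ 1] with p hp
  obtain ⟨n, g⟩ := p
  simp only at hp
  show kap (sh 1 0 (n, g)) * ((n : ℝ) / ((n : ℝ) + 1)) ^ 2 = (n : ℝ) ^ 2 * SST.nu n (g - 1) / SST.nu n g
  rw [cv_sh]
  show ((n + 1 : ℕ) : ℝ) ^ 2 * tt (n + 1) (g - 1) / tt (n + 1) g * _ = _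
  rw [tt_succ hp (g - 1), tt_succ hp g]
  push_cast
  have h2 : (1 : ℝ) ≤ n := by exact_mod_cast hp
  have h3 : (n : ℝ) + 1 ≠ 0 := by linarith
  have h4 : (n : ℝ) ≠ 0 := by linarith
  have h5 : 3 * (n : ℝ) + 2 ≠ 0 := by linarith
  by_cases h0 : SST.nu n g = 0
  · rw [h0, mul_zero, div_zero, zero_mul, div_zero]
  · field_simp

end SYS.RB
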