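import Pool.Agent.SST.Defs

/-!
# Project SYS (MP_650813_pr), block RB (ratio theorem without holes): definitions.  DO NOT CHANGE.

`nu n g` is `SST.nu`.  Paper notation: `T(n,g) = (3n+2) * 6n * nu n g` for `n >= 1`, `T(0,0) = 2`, `T(-1,0) = 1/2`.
Lean: `tt m g = T(m-1, g)`, so the index is shifted by one: `tt (n+1) g = T(n,g)`.
`GJ` is the Goulden-Jackson recursion, `TODA` the Toda equation (both are proved by block RA).
-/

namespace SYS.RB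

open Filter Topology Finset

/-- `tt m g = T(m-1, g)`. -/
noncomputable def tt : ℕ → ℕ → ℝ
  | 0, g => if g = 0 then 1 / 2 else 0
  | 1, g => if g = 0 then 2 else 0
  | m + 2, g => (3 * ((m : ℝ) + 1) + 2) * (6 * ((m : ℝ) + 1)) * SST.nu (m + 1) g

/-- `cc j k = ∑_{l ≥ 1} binom(j + 2 - 2 (k - l), 2 l) * tau(j, k - l)`, `tau(j,h) = 6 j nu j h`, `h = k - l`. -/
noncomputable def cc (j k : ℕ) : ℝ :=
  ∑ h ∈ range k, ((j + 2 - 2 * h).choose (2 * (k - h)) : ℝ) * (6 * j * SST.nu j h)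

/-- Goulden-Jackson recursion. -/
def GJ : Prop :=
  ∀ n g : ℕ, ((n : ℝ) + 1) * tt (n + 1) g =
    4 * (3 * n + 2) * (n * (3 * n - 2) * (if g = 0 then 0 else tt (n - 1) (g - 1)) +
      ∑ p ∈ antidiagonal n, ∑ q ∈ antidiagonal g, tt p.1 q.1 * tt p.2 q.2)

/-- Toda equation. -/
def TODA : Prop :=
  ∀ n g : ℕ, ((n : ℝ) + 1) * tt (n + 1) g =
    (1 / 3) * ∑ p ∈ antidiagonal (n + 1), ∑ q ∈ antidiagonal (g + 1), tt p.1 q.1 * cc p.2 q.2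

/-- `n → ∞`, `g / n → θ` (points are pairs `(n, g)`). -/
noncomputable def Fth (θ : ℝ) : Filter (ℕ × ℕ) :=
  comap Prod.fst atTop ⊓ comap (fun p : ℕ × ℕ => (p.2 : ℝ) / p.1) (𝓝 θ)

/-- Shift of a point `(n, g)` by `(a, b)`. -/
def sh (a b : ℤ) (p : ℕ × ℕ) : ℕ × ℕ := (((p.1 : ℤ) + a).toNat, ((p.2 : ℤ) + b).toNat)

/-- ratio in `n` -/
noncomputable def rho (p : ℕ × ℕ) : ℝ := tt (p.1 - 1) p.2 / tt p.1 p.2

/-- ratio in `g` -/
noncomputable def kap (p : ℕ × ℕ) : ℝ := (p.1 : ℝ) ^ 2 * tt p.1 (p.2 - 1) / tt p.1 p.2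

/-- shifted ultrafilter -/
noncomputable def SH (a b : ℤ) (U : Ultrafilter (ℕ × ℕ)) : Ultrafilter (ℕ × ℕ) := U.map (sh a b)

/-- the ratio in `n` tends to `r` along `U` -/
def IsR (U : Ultrafilter (ℕ × ℕ)) (r : ℝ) : Prop := Tendsto rho U (𝓝 r)

/-- the ratio in `g` tends to `q` along `U` -/
def IsQ (U : Ultrafilter (ℕ × ℕ)) (q : ℝ) : Prop := Tendsto kap U (𝓝 q)

/-- `U` is a limit point `n → ∞`, `g / n → θ`. -/
def Adm (θ : ℝ) (U : Ultrafilter (ℕ × ℕ)) : Prop := (U : Filter (ℕ × ℕ)) ≤ Fth θ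

/-- The main terms of `TODA` at `p = (m, g)` (that is, of `m * tt m g`):
`(i, h = 0)` on the left, `l` in the sum of `cc (m - i) (g + 1)`. -/
noncomputable def Dt (i l : ℕ) (p : ℕ × ℕ) : ℝ :=
  (1 / 3) * tt i 0 * (((p.1 - i + 2 - 2 * (p.2 + 1 - l)).choose (2 * l) : ℝ) *
    (6 * ((p.1 - i : ℕ) : ℝ) * SST.nu (p.1 - i) (p.2 + 1 - l)))

/-- normalised main terms -/
noncomputable def wt (i l : ℕ) (p : ℕ × ℕ) : ℝ := Dt i l p / (p.1 * tt p.1 p.2)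

/-- the part of `wt` which is not elementary -/
noncomputable def Pw (i l : ℕ) (p : ℕ × ℕ) : ℝ :=
  (p.1 : ℝ) ^ (2 * (l - 1)) * tt (p.1 + 1 - i) (p.2 + 1 - l) / tt p.1 p.2

/-- The maximum principle for the value `r`. -/
def MP (θ r : ℝ) : Prop :=
  ∀ U : Ultrafilter (ℕ × ℕ), Adm θ U → IsR U r → ∀ i l : ℕ, 1 ≤ l →
    (∃ c : ℝ, 0 < c ∧ ∀ᶠ p in (U : Filter (ℕ × ℕ)), c ≤ wt i l p) →
    IsR (SH (1 - (i : ℤ)) (1 - (l : ℤ)) U) r

/-- Constant limits in all rows that matter. -/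
structure Cst (θ : ℝ) (U : Ultrafilter (ℕ × ℕ)) (r q : ℝ) : Prop where
  adm : Adm θ U
  rpos : 0 < r
  qnn : 0 ≤ q
  row : ∀ a : ℤ, IsR (SH a 0 U) r ∧ IsQ (SH a 0 U) q
  rows : q ≠ 0 → ∀ (a : ℤ) (b : ℕ), IsR (SH a (-(b : ℤ)) U) r ∧ IsQ (SH a (-(b : ℤ)) U) q

/-- planar series -/
noncomputable def GG (r : ℝ) : ℝ := ∑' i, tt i 0 * r ^ i

/-- `(cosh (v √q) - 1) / q`, or `v ^ 2 / 2` if `q = 0` -/
noncomputable def SS (v q : ℝ) : ℝ := ∑' l : ℕ, v ^ (2 * l + 2) * q ^ l / ((2 * l + 2).factorial : ℝ)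

/-! ## Convolutions as power series in the genus variable -/

open PowerSeries

/-- coefficientwise order -/
def SLe (f g : PowerSeries ℝ) : Prop := ∀ k, coeff k f ≤ coeff k g

/-- `tp i = ∑_g tt i g X^g` -/
noncomputable def tp (i : ℕ) : PowerSeries ℝ := PowerSeries.mk (tt i)

/-- `4 (3n+2)/(n+1)`, increasing from `8` to `12` -/
noncomputable def an (n : ℕ) : ℝ := 4 * (3 * n + 2) / (n + 1)

/-- index sets -/
def WS (K n : ℕ) : Finset (ℕ × ℕ) := {p ∈ antidiagonal n | K ≤ p.1 ∧ K ≤ p.2}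
def HS (K n : ℕ) : Finset (ℕ × ℕ) := {p ∈ antidiagonal n | K ≤ p.1 ∧ p.1 ≤ p.2}
def LS (K n : ℕ) : Finset (ℕ × ℕ) := {p ∈ antidiagonal n | K ≤ p.1 ∧ p.1 < p.2}

noncomputable def SP (n : ℕ) : PowerSeries ℝ := ∑ p ∈ antidiagonal n, tp p.1 * tp p.2
noncomputable def WP (K n : ℕ) : PowerSeries ℝ := ∑ p ∈ WS K n, tp p.1 * tp p.2
noncomputable def HP (K n : ℕ) : PowerSeries ℝ := ∑ p ∈ HS K n, tp p.1 * tp p.2
noncomputable def LP (K n : ℕ) : PowerSeries ℝ := ∑ p ∈ LS K n, tp p.1 * tp p.2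

/-- no mass beyond `K`: constant `c` for all `n ≥ N`, uniformly in the genus -/
def NM (K N : ℕ) (c : ℝ) : Prop := ∀ n ≥ N, SLe (C (an n) * WP K n) (C c * tp (n + 1))

/-- coefficient of `WP` -/
noncomputable def WW (K n g : ℕ) : ℝ :=
  ∑ p ∈ WS K n, ∑ q ∈ antidiagonal g, tt p.1 q.1 * tt p.2 q.2

end SYS.RB
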