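import Pool.Agent.SYS.RB.Cr
import Pool.Agent.SYS.RB.Win

/-!
# SYS-RB-El: the elementary factor of the normalised main terms

`p = (m, g)`, `v = 1 - 2θ`.  `wt i l p = El i l p * Pw i l p` with `El` elementary.
-/

namespace SYS.RB

open Filter Topology Finset

/-- elementary factor -/
noncomputable def El (i l : ℕ) (p : ℕ × ℕ) : ℝ :=
  (1 / 3) * tt i 0 * (((p.1 - i + 2 - 2 * (p.2 + 1 - l)).choose (2 * l) : ℝ) / (p.1 : ℝ) ^ (2 * l)) *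
    ((p.1 : ℝ) / (3 * ((p.1 - i : ℕ) : ℝ) + 2))

theorem wt_eq (θ : ℝ) {i l : ℕ} (hl : 1 ≤ l) : ∀ᶠ p in Fth θ, wt i l p = El i l p * Pw i l p := by
  filter_upwards [ge_ev θ (i + 1)] with p hp
  have h1 : 1 ≤ p.1 - i := by omega
  have h2 := tau_eq h1 (p.2 + 1 - l)
  have h3 : p.1 - i + 1 = p.1 + 1 - i := by omega
  rw [h3] at h2
  have hm : (p.1 : ℝ) ≠ 0 := by
    have : p.1 ≠ 0 := by omega
    exact_mod_cast this
  have hD : (3 * ((p.1 - i : ℕ) : ℝ) + 2) ≠ 0 := by positivity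
  unfold wt El Pw Dt
  rw [h2]
  obtain ⟨k, rfl⟩ : ∃ k, l = k + 1 := ⟨l - 1, by omega⟩
  have h4 : 2 * (k + 1 - 1) = 2 * k := by omega
  have h5 : (p.1 : ℝ) ^ (2 * (k + 1)) = (p.1 : ℝ) ^ (2 * k) * (p.1 : ℝ) ^ 2 := by
    rw [← pow_add]; congr 1
  rw [h4, h5]
  rcases eq_or_ne (tt p.1 p.2) 0 with h0 | h0
  · rw [h0]; simp
  · field_simp

private theorem el_inv (θ c : ℝ) : Tendsto (fun p : ℕ × ℕ => c / (p.1 : ℝ)) (Fth θ) (𝓝 0) :=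
  (fst_atTop θ).const_div_atTop c

private theorem el_V {θ : ℝ} (h : 0 < θ) (h' : θ < 1 / 2) (i l : ℕ) :
    ∀ᶠ p in Fth θ, 2 * l ≤ p.1 - i + 2 - 2 * (p.2 + 1 - l) ∧
      ((p.1 - i + 2 - 2 * (p.2 + 1 - l) : ℕ) : ℝ) = (p.1 : ℝ) - 2 * p.2 + (2 * l - i) := by
  obtain ⟨δ, hδ0, hδ1, hgap⟩ := gap h'
  have hbig : ∀ᶠ p in Fth θ, (i : ℝ) ≤ δ * (p.1 : ℝ) :=
    ((fst_atTop θ).const_mul_atTop hδ0).eventually_ge_atTop _
  filter_upwards [hgap, hbig, ge_ev θ i, ge_ev' h l] with p h1 h2 h3 h4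
  have h5 : (2 * (p.2 : ℝ) + i) ≤ p.1 := by linarith
  have h6 : 2 * p.2 + i ≤ p.1 := by exact_mod_cast h5
  obtain ⟨V, hV⟩ : ∃ V : ℕ, V = p.1 - i + 2 - 2 * (p.2 + 1 - l) := ⟨_, rfl⟩
  rw [← hV]
  have h7 : V + 2 * p.2 + i = p.1 + 2 * l := by omega
  refine ⟨by omega, ?_⟩
  have h8 : (V : ℝ) + 2 * p.2 + i = p.1 + 2 * l := by exact_mod_cast h7
  linarith

private theorem el_fac {θ : ℝ} (h : 0 < θ) (h' : θ < 1 / 2) (i l s : ℕ) (hs : s < 2 * l) :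
    Tendsto (fun p : ℕ × ℕ => (((p.1 - i + 2 - 2 * (p.2 + 1 - l)) - s : ℕ) : ℝ) / (p.1 : ℝ)) (Fth θ)
      (𝓝 (1 - 2 * θ)) := by
  have h1 := (gap_lim θ).add (el_inv θ (2 * l - i - s))
  rw [add_zero] at h1
  refine h1.congr' ?_
  filter_upwards [el_V h h' i l] with p hp
  have h2 : s ≤ p.1 - i + 2 - 2 * (p.2 + 1 - l) := le_trans hs.le hp.1
  rw [Nat.cast_sub h2, hp.2, ← add_div]
  congr 1
  ring

private theorem el_cho {θ : ℝ} (h : 0 < θ) (h' : θ < 1 / 2) (i l : ℕ) :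
    Tendsto (fun p : ℕ × ℕ => ((p.1 - i + 2 - 2 * (p.2 + 1 - l)).choose (2 * l) : ℝ) /
      (p.1 : ℝ) ^ (2 * l)) (Fth θ) (𝓝 ((1 - 2 * θ) ^ (2 * l) / ((2 * l).factorial : ℝ))) := by
  have h1 : Tendsto (fun p : ℕ × ℕ => ∏ s ∈ range (2 * l),
      ((((p.1 - i + 2 - 2 * (p.2 + 1 - l)) - s : ℕ) : ℝ) / (p.1 : ℝ))) (Fth θ)
      (𝓝 (∏ s ∈ range (2 * l), (1 - 2 * θ))) :=
    tendsto_finsetProd _ fun s hs => el_fac h h' i l s (mem_range.1 hs)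
  rw [prod_const, card_range] at h1
  refine (h1.div_const ((2 * l).factorial : ℝ)).congr fun p => ?_
  rw [prod_div_distrib, prod_const, card_range, ← Nat.cast_prod, ← Nat.descFactorial_eq_prod_range,
    Nat.descFactorial_eq_factorial_mul_choose, Nat.cast_mul]
  have hf : ((2 * l).factorial : ℝ) ≠ 0 := by positivity
  field_simp

theorem El_lim {θ : ℝ} (h : 0 < θ) (h' : θ < 1 / 2) {i l : ℕ} (hl : 1 ≤ l) :
    Tendsto (El i l) (Fth θ)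
      (𝓝 (tt i 0 / 9 * ((1 - 2 * θ) ^ (2 * l) / ((2 * l).factorial : ℝ)))) := by
  have h1 : Tendsto (fun p : ℕ × ℕ => (p.1 : ℝ) / (3 * ((p.1 - i : ℕ) : ℝ) + 2)) (Fth θ) (𝓝 (1 / 3)) := by
    have h2 : Tendsto (fun p : ℕ × ℕ => 1 / (3 + (2 - 3 * (i : ℝ)) / (p.1 : ℝ))) (Fth θ) (𝓝 (1 / (3 + 0))) :=
      (tendsto_const_nhds.div (tendsto_const_nhds.add (el_inv θ _)) (by norm_num))
    rw [add_zero] at h2
    refine h2.congr' ?_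
    filter_upwards [ge_ev θ (i + 1)] with p hp
    have hm : (p.1 : ℝ) ≠ 0 := by
      have : p.1 ≠ 0 := by omega
      exact_mod_cast this
    rw [Nat.cast_sub (by omega)]
    have hi : (i : ℝ) + 1 ≤ p.1 := by exact_mod_cast hp
    have hD : (3 * ((p.1 : ℝ) - i) + 2) ≠ 0 := by
      have : 0 < 3 * ((p.1 : ℝ) - i) + 2 := by linarith
      exact this.ne'
    have hE : 3 + (2 - 3 * (i : ℝ)) / (p.1 : ℝ) = (3 * ((p.1 : ℝ) - i) + 2) / p.1 := by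
      field_simp
      ring
    rw [hE, one_div_div]
  have h3 := ((tendsto_const_nhds (x := (1 / 3) * tt i 0)).mul (el_cho h h' i l)).mul h1
  have h4 : (1 / 3) * tt i 0 * ((1 - 2 * θ) ^ (2 * l) / ((2 * l).factorial : ℝ)) * (1 / 3) =
      tt i 0 / 9 * ((1 - 2 * θ) ^ (2 * l) / ((2 * l).factorial : ℝ)) := by ring
  rw [h4] at h3
  exact h3

end SYS.RB
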