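import Pool.Agent.SYS.RB.Ssr

/-!
# SYS-RB-Pa: parametrisation of the solutions

PROOF.  `4 G² - 1 = 64 r G³ > 0`.  From `24 r G ≤ 1` (`h2`, `q ≥ 0`): `24 r G = (3/8) (4G²-1)/G² ≤ 1`, so `3 (4 G² - 1) ≤ 8 G²`, `4 G² ≤ 3`, `4 G² - 1 ≤ 2`.
`c := √(2/(4G²-1)) ≥ 1`, `x := Real.arcosh c` (or: `Real.cosh` is onto `[1,∞)` on `[0,∞)`: intermediate value theorem, e.g. `x = log (c + √(c²-1))`), `c = cosh x`, `x ≥ 0`.
`c² (4 G² - 1) = 2`, so `G² = (c²+2)/(4c²)`; `w := √(c²+2)`, `G = w/(2c)`; `r = (4G²-1)/(64 G³) = (2/c²)/(8 w³/c³) = c/(4 w³)`, `w³ = (c²+2)^(3/2)`;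
`24 r G = 3/(c²+2)`; `h2`: `36 q r² = (c²-1)/(c²+2)`, `r² = c²/(16 (c²+2)³)`: `q = (4/9) (c²-1) (c²+2)²/c²`, `c² - 1 = sinh² x`; `G/r = 2 (c²+2)²/c²`.
If `x = 0`: `c = 1`, `q = 0`, `G = 18 r`, `SS_zero_eq`: `18 r v²/2 = 9 r`, `v² = 1`: contradiction with `0 < v < 1`.
If `x > 0`: `q > 0`, `SS_pos_eq`, `h3`: `cosh (v √q) - 1 = 9 r q/G = 9 q c²/(2 (c²+2)²) = 2 sinh² x`, so `cosh (v √q) = cosh (2x)` (`Real.cosh_two_mul`, `Real.cosh_sq`), `v √q = 2 x`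
(both `≥ 0`; `Real.cosh_le_cosh`/`Real.cosh_strictMonoOn`/`cosh_abs`), `√q = (2/3) sinh x (c²+2)/c`, so `v sinh x (c²+2) = 3 x c`.
-/

namespace SYS.RB

open Filter Topology Finset

private theorem pa_rpow {P : ℝ} (hP : 0 ≤ P) : P ^ (3 / 2 : ℝ) = √P ^ 3 := by
  rw [Real.sqrt_eq_rpow, ← Real.rpow_natCast, ← Real.rpow_mul hP]
  norm_num

theorem param {v r q G : ℝ} (hv : 0 < v) (hv1 : v < 1) (hr : 0 < r) (hq : 0 ≤ q) (hG : 1 / 2 < G)
    (h1 : 4 * G ^ 2 - 64 * r * G ^ 3 = 1) (h2 : 24 * r * G + 36 * q * r ^ 2 = 1)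
    (h3 : G * SS v q = 9 * r) :
    ∃ x : ℝ, 0 < x ∧ 3 * x * Real.cosh x = v * (Real.sinh x * (Real.cosh x ^ 2 + 2)) ∧
      r = Real.cosh x / (4 * (Real.cosh x ^ 2 + 2) ^ (3 / 2 : ℝ)) ∧
      q = 4 / 9 * Real.sinh x ^ 2 * (Real.cosh x ^ 2 + 2) ^ 2 / Real.cosh x ^ 2 := by
  have hG0 : 0 < G := by linarith
  have hD : 0 < 4 * G ^ 2 - 1 := by
    have : 0 < r * G ^ 3 := by positivity
    nlinarith
  have hD2 : 4 * G ^ 2 - 1 ≤ 2 := by
    have h5 : 24 * r * G ≤ 1 := by nlinarith [mul_nonneg hq (sq_nonneg r)]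
    have h6 : 24 * r * G * (8 * G ^ 2) ≤ 1 * (8 * G ^ 2) :=
      mul_le_mul_of_nonneg_right h5 (by positivity)
    nlinarith
  obtain ⟨c, hc0, hc⟩ : ∃ c : ℝ, 0 < c ∧ c ^ 2 * (4 * G ^ 2 - 1) = 2 := by
    refine ⟨√(2 / (4 * G ^ 2 - 1)), by positivity, ?_⟩
    rw [Real.sq_sqrt (by positivity)]
    field_simp
  have hc1 : 1 ≤ c := by
    by_contra h
    push Not at h
    have h5 : c ^ 2 < 1 := by nlinarith
    nlinarith [mul_pos hD (sub_pos.2 h5)]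
  obtain ⟨x, hx0, hx⟩ : ∃ x : ℝ, 0 ≤ x ∧ Real.cosh x = c :=
    ⟨Real.arcosh c, Real.arcosh_nonneg hc1, Real.cosh_arcosh hc1⟩
  obtain ⟨w, hw0, hw⟩ : ∃ w : ℝ, 0 < w ∧ w ^ 2 = c ^ 2 + 2 ∧ √(c ^ 2 + 2) = w :=
    ⟨√(c ^ 2 + 2), by positivity, Real.sq_sqrt (by positivity), rfl⟩
  obtain ⟨hw2, hww⟩ := hw
  have hGw : 2 * c * G = w := by
    have h5 : (2 * c * G) ^ 2 = w ^ 2 := by rw [hw2]; linarith
    exact (pow_left_inj₀ (by positivity) hw0.le (by norm_num)).1 h5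
  have hr1 : 4 * r * w ^ 3 = c := by
    have h5 : 64 * r * G ^ 3 * c ^ 2 = 2 := by
      have : 64 * r * G ^ 3 = 4 * G ^ 2 - 1 := by linarith
      rw [this]; linarith
    have h6 : 8 * r * w ^ 3 = 2 * c := by
      rw [← hGw]
      have : 8 * r * (2 * c * G) ^ 3 = (64 * r * G ^ 3 * c ^ 2) * c := by ring
      rw [this, h5]
    linarith
  have hq1 : 9 * q * c ^ 2 = 4 * (c ^ 2 - 1) * (c ^ 2 + 2) ^ 2 := by
    have h5 : 24 * r * G * w ^ 2 = 3 := by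
      have h6 : 24 * r * G * w ^ 2 * c = 3 * c := by
        have : 24 * r * G * w ^ 2 * c = 3 * (4 * r * (w ^ 2 * (2 * c * G))) := by ring
        rw [this, hGw, ← hr1]; ring
      exact mul_right_cancel₀ hc0.ne' h6
    have h6 : 36 * q * r ^ 2 * w ^ 2 = w ^ 2 - 3 := by
      have : 36 * q * r ^ 2 = 1 - 24 * r * G := by linarith
      rw [this]; linarith
    have h7 : 16 * r ^ 2 * w ^ 6 = c ^ 2 := by rw [← hr1]; ring
    have h8 : 9 * q * c ^ 2 = 4 * (w ^ 2 - 3) * (w ^ 2) ^ 2 := by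
      rw [← h7, ← h6]; ring
    rw [h8, hw2]; ring
  have hGr : G * c ^ 2 = 2 * r * (c ^ 2 + 2) ^ 2 := by
    have h5 : 2 * c * (G * c ^ 2) = 2 * c * (2 * r * (c ^ 2 + 2) ^ 2) := by
      have h6 : 2 * c * (G * c ^ 2) = w * c * c := by rw [← hGw]; ring
      rw [h6, ← hw2]
      nth_rewrite 1 [← hr1]
      ring
    exact mul_left_cancel₀ (by positivity) h5
  have hs : Real.sinh x ^ 2 = c ^ 2 - 1 := by
    have := Real.cosh_sq x
    rw [hx] at this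
    linarith
  have hxpos : 0 < x := by
    rcases hx0.eq_or_lt with h | h
    · exfalso
      rw [← h, Real.cosh_zero] at hx
      rw [← hx] at hq1 hGr
      have hq0 : q = 0 := by linarith
      rw [hq0, SS_zero_eq] at h3
      have hG18 : G = 18 * r := by linarith
      rw [hG18] at h3
      have : v ^ 2 = 1 := by
        have h5 : r * (v ^ 2) = r * 1 := by linarith
        exact mul_left_cancel₀ hr.ne' h5
      nlinarith
    · exact h
  have hspos : 0 < Real.sinh x := Real.sinh_pos_iff.2 hxpos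
  have hqpos : 0 < q := by
    have h5 : 0 < 9 * q * c ^ 2 := by
      rw [hq1, ← hs]; positivity
    by_contra h
    push Not at h
    have : q * c ^ 2 ≤ 0 := mul_nonpos_of_nonpos_of_nonneg h (by positivity)
    linarith
  refine ⟨x, hxpos, ?_, ?_, ?_⟩
  · rw [SS_pos_eq v hqpos] at h3
    have h4 : G * (Real.cosh (v * √q) - 1) = 9 * r * q := by
      field_simp at h3
      linarith
    have h5 : Real.cosh (v * √q) - 1 = 2 * Real.sinh x ^ 2 := by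
      have h6 : 2 * r * (c ^ 2 + 2) ^ 2 * (Real.cosh (v * √q) - 1) =
          2 * r * (c ^ 2 + 2) ^ 2 * (2 * Real.sinh x ^ 2) := by
        rw [hs]
        calc 2 * r * (c ^ 2 + 2) ^ 2 * (Real.cosh (v * √q) - 1)
            = (G * (Real.cosh (v * √q) - 1)) * c ^ 2 := by rw [← hGr]; ring
          _ = r * (9 * q * c ^ 2) := by rw [h4]; ring
          _ = 2 * r * (c ^ 2 + 2) ^ 2 * (2 * (c ^ 2 - 1)) := by rw [hq1]; ring
      exact mul_left_cancel₀ (by positivity) h6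
    have h6 : Real.cosh (v * √q) = Real.cosh (2 * x) := by
      rw [Real.cosh_two_mul, Real.cosh_sq]
      linarith
    have h7 : v * √q = 2 * x := by
      have h8 := Real.arcosh_cosh (x := v * √q) (by positivity)
      have h9 := Real.arcosh_cosh (x := 2 * x) (by positivity)
      rw [← h8, h6, h9]
    have h8 : √q * (3 * c) = 2 * Real.sinh x * (c ^ 2 + 2) := by
      have h9 : (√q * (3 * c)) ^ 2 = (2 * Real.sinh x * (c ^ 2 + 2)) ^ 2 := by
        have e1 : (√q * (3 * c)) ^ 2 = 9 * (√q ^ 2) * c ^ 2 := by ring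
        rw [e1, Real.sq_sqrt hqpos.le, hq1, ← hs]; ring
      exact (pow_left_inj₀ (by positivity) (by positivity) (by norm_num)).1 h9
    rw [hx]
    have h10 : 2 * (3 * x * c) = 2 * (v * (Real.sinh x * (c ^ 2 + 2))) := by
      calc 2 * (3 * x * c) = (2 * x) * (3 * c) := by ring
        _ = v * (√q * (3 * c)) := by rw [← h7]; ring
        _ = 2 * (v * (Real.sinh x * (c ^ 2 + 2))) := by rw [h8]; ring
    linarith
  · rw [hx, pa_rpow (by positivity), hww, eq_div_iff (by positivity), ← hr1]; ring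
  · rw [hx, hs, eq_div_iff (by positivity)]
    linarith

end SYS.RB
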