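import Pool.Agent.SYS.RB.Pos

/-!
# SYS-RB-Pl: the planar series satisfies `4 G² - 64 r G³ = 1`

PROOF.  `t i = tt i 0`; `GJ` at genus `0`: `(n+1) t (n+1) = 4 (3n+2) ∑_{i+j=n} t i t j`.  Formal power series `A = ∑ t i X^i`: the coefficient of `X^n` of
`A' = 24 X A A' + 8 A²` is exactly this (`X (A²)'` has coefficient `n * [X^n] A²`; `(A²)' = 2 A A'`; `12 n + 8 = 4 (3n+2)`).
So the derivative of `B = 4 A² - 64 X A³` is `8 A A' - 64 A³ - 192 X A² A' = 8 A (A' - 24 X A A' - 8 A²) = 0`; constant coefficient `4 (1/2)² = 1`;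
`B = 1` by `PowerSeries.derivative.ext` (`planar_formal`).
Evaluation at `r ≥ 0`: `a i = t i r^i` is summable with nonnegative terms; `G² = ∑_n (∑_{i+j=n} t i t j) r^n`, `G³` similarly
(`tsum_mul_tsum_eq_tsum_sum_antidiagonal_of_summable_norm`, `summable_norm_sum_mul_antidiagonal_of_summable_norm`); compare coefficients with `B = 1`:
`4 G² = 1 + 64 r G³`: `4 [X^(n+1)] A² = 64 [X^n] A³`, `4 [X^0] A² = 1` (`Summable.tsum_eq_zero_add`).
`GG_gt`: `G ≥ t 0 + t 1 r = 1/2 + 2 r` (`Summable.sum_le_tsum` for `range 2`).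
-/

namespace SYS.RB

open Filter Topology Finset

private noncomputable def plA : PowerSeries ℝ := PowerSeries.mk fun i => tt i 0

private noncomputable def plb (n : ℕ) : ℝ := ∑ p ∈ antidiagonal n, tt p.1 0 * tt p.2 0

private noncomputable def plc (n : ℕ) : ℝ := ∑ p ∈ antidiagonal n, plb p.1 * tt p.2 0

private theorem pl_coeff_sq (n : ℕ) : PowerSeries.coeff n (plA ^ 2) = plb n := by
  rw [pow_two, PowerSeries.coeff_mul, plb]
  refine Finset.sum_congr rfl fun p _ => ?_
  simp [plA, PowerSeries.coeff_mk]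

private theorem pl_coeff_cube (n : ℕ) : PowerSeries.coeff n (plA ^ 3) = plc n := by
  rw [pow_succ, PowerSeries.coeff_mul, plc]
  refine Finset.sum_congr rfl fun p _ => ?_
  rw [pl_coeff_sq]
  simp [plA, PowerSeries.coeff_mk]

private theorem pl_rec (hG : GJ) (n : ℕ) :
    ((n : ℝ) + 1) * tt (n + 1) 0 = 4 * (3 * n + 2) * plb n := by
  have h := hG n 0
  rw [if_pos rfl, mul_zero, zero_add] at h
  rw [h, plb]
  congr 1
  refine Finset.sum_congr rfl fun p _ => ?_
  simp

open PowerSeries in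
private theorem pl_deriv (hG : GJ) :
    derivative ℝ plA = 24 * X * plA * derivative ℝ plA + 8 * plA ^ 2 := by
  have h2 : derivative ℝ (plA ^ 2) = 2 * plA * derivative ℝ plA := by
    rw [derivative_pow]
    norm_num
  have h3 : 24 * X * plA * derivative ℝ plA = C (12 : ℝ) * (X * derivative ℝ (plA ^ 2)) := by
    have e : C (12 : ℝ) = 12 := map_ofNat _ 12
    rw [h2, e]
    ring
  have h4 : (8 : PowerSeries ℝ) * plA ^ 2 = C (8 : ℝ) * plA ^ 2 := by
    have e : C (8 : ℝ) = 8 := map_ofNat _ 8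
    rw [e]
  rw [h3, h4]
  ext n
  rw [coeff_derivative, map_add, coeff_C_mul, coeff_C_mul, pl_coeff_sq]
  have h5 : coeff n (X * derivative ℝ (plA ^ 2)) = n * plb n := by
    rcases n with _ | n
    · simp
    · rw [coeff_succ_X_mul, coeff_derivative, pl_coeff_sq]
      push_cast
      ring
  have h6 : coeff (n + 1) plA = tt (n + 1) 0 := by simp [plA, coeff_mk]
  rw [h5, h6]
  have := pl_rec hG n
  linear_combination this

open PowerSeries in
theorem planar_formal (hG : GJ) :
    4 * (PowerSeries.mk fun i => tt i 0) ^ 2 -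
      64 * PowerSeries.X * (PowerSeries.mk fun i => tt i 0) ^ 3 = 1 := by
  change 4 * plA ^ 2 - 64 * X * plA ^ 3 = 1
  apply derivative.ext
  · have e1 : (4 : PowerSeries ℝ) = C (4 : ℝ) := (map_ofNat C 4).symm
    have e2 : (64 : PowerSeries ℝ) = C (64 : ℝ) := (map_ofNat C 64).symm
    have d1 : derivative ℝ (4 : PowerSeries ℝ) = 0 := by rw [e1, derivative_C]
    have d2 : derivative ℝ (64 : PowerSeries ℝ) = 0 := by rw [e2, derivative_C]
    rw [map_sub, Derivation.leibniz, Derivation.leibniz, Derivation.leibniz, d1, d2,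
      derivative_pow, derivative_pow, derivative_X, derivative_one]
    simp only [smul_eq_mul]
    have hd := pl_deriv hG
    push_cast
    norm_num
    linear_combination (8 * plA) * hd
  · rw [← coeff_zero_eq_constantCoeff_apply, ← coeff_zero_eq_constantCoeff_apply]
    have e1 : (4 : PowerSeries ℝ) = C (4 : ℝ) := (map_ofNat C 4).symm
    rw [map_sub, mul_assoc, mul_left_comm, coeff_zero_X_mul, e1, coeff_C_mul, pl_coeff_sq, plb]
    simp [tt_zero_zero]
    norm_num

private theorem pl_zero (hG : GJ) : 4 * plb 0 = 1 := by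
  simp [plb, tt_zero_zero]
  norm_num

open PowerSeries in
private theorem pl_succ (hG : GJ) (n : ℕ) : 4 * plb (n + 1) = 64 * plc n := by
  have h := congrArg (coeff (n + 1)) (planar_formal hG)
  change coeff (n + 1) (4 * plA ^ 2 - 64 * X * plA ^ 3) = coeff (n + 1) 1 at h
  have e1 : (4 : PowerSeries ℝ) = C (4 : ℝ) := (map_ofNat C 4).symm
  have e2 : (64 : PowerSeries ℝ) = C (64 : ℝ) := (map_ofNat C 64).symm
  rw [map_sub, mul_assoc, e1, e2, coeff_C_mul, coeff_C_mul, coeff_succ_X_mul, pl_coeff_sq,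
    pl_coeff_cube, coeff_one, if_neg (Nat.succ_ne_zero n)] at h
  linarith

theorem planar (hG : GJ) {r : ℝ} (hr : 0 ≤ r) (hs : Summable (fun i => tt i 0 * r ^ i)) :
    4 * GG r ^ 2 - 64 * r * GG r ^ 3 = 1 := by
  have hn : Summable fun i => ‖tt i 0 * r ^ i‖ := hs.norm
  have hb1 := summable_norm_sum_mul_antidiagonal_of_summable_norm hn hn
  have hb2 := tsum_mul_tsum_eq_tsum_sum_antidiagonal_of_summable_norm hn hn
  have hbe : (fun n => ∑ kl ∈ antidiagonal n, (tt kl.1 0 * r ^ kl.1) * (tt kl.2 0 * r ^ kl.2)) =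
      fun n => plb n * r ^ n := by
    funext n
    rw [plb, Finset.sum_mul]
    refine Finset.sum_congr rfl fun p hp => ?_
    rw [HasAntidiagonal.mem_antidiagonal] at hp
    rw [← hp, pow_add]
    ring
  rw [hbe] at hb2
  have hb1' : Summable fun n => ‖plb n * r ^ n‖ := by
    refine hb1.congr fun n => ?_
    rw [← congrFun hbe n]
  have hc2 := tsum_mul_tsum_eq_tsum_sum_antidiagonal_of_summable_norm hb1' hn
  have hce : (fun n => ∑ kl ∈ antidiagonal n, (plb kl.1 * r ^ kl.1) * (tt kl.2 0 * r ^ kl.2)) =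
      fun n => plc n * r ^ n := by
    funext n
    rw [plc, Finset.sum_mul]
    refine Finset.sum_congr rfl fun p hp => ?_
    rw [HasAntidiagonal.mem_antidiagonal] at hp
    rw [← hp, pow_add]
    ring
  rw [hce] at hc2
  have hsq : GG r ^ 2 = ∑' n, plb n * r ^ n := by
    rw [← hb2, pow_two]
    rfl
  have hcu : GG r ^ 3 = ∑' n, plc n * r ^ n := by
    rw [← hc2, pow_succ, hsq]
    rfl
  have hz : ∑' n, plb n * r ^ n = plb 0 + ∑' n, plb (n + 1) * r ^ (n + 1) := by
    rw [hb1'.of_norm.tsum_eq_zero_add, pow_zero, mul_one]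
  have hm : ∑' n, plb (n + 1) * r ^ (n + 1) = 16 * r * ∑' n, plc n * r ^ n := by
    rw [← tsum_mul_left]
    refine tsum_congr fun n => ?_
    have := pl_succ hG n
    have e : plb (n + 1) = 16 * plc n := by linarith
    rw [e]
    ring
  rw [hsq, hcu, hz, hm]
  have := pl_zero hG
  linear_combination this

theorem GG_gt {r : ℝ} (hr : 0 < r) (hs : Summable (fun i => tt i 0 * r ^ i)) : 1 / 2 < GG r := by
  have h := hs.sum_le_tsum (range 2) (fun i _ => mul_nonneg (tt_nn i 0) (pow_nonneg hr.le i))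
  rw [Finset.sum_range_succ, Finset.sum_range_one, tt_zero_zero, tt_one_zero, pow_zero,
    pow_one] at h
  change _ ≤ GG r at h
  linarith

end SYS.RB
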