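import Pool.Agent.SYS.RB.El
import Pool.Agent.SYS.RB.Be

/-!
# SYS-RB-Wl: limits and positivity of the normalised main terms

`wt i l = El i l * Pw i l` eventually; `El` has a positive limit, `Pw` is bounded below by `bd_up`.
-/

namespace SYS.RB

open Filter Topology Finset

theorem wt_lim {θ : ℝ} (h : 0 < θ) (h' : θ < 1 / 2) {U : Ultrafilter (ℕ × ℕ)} (hU : Adm θ U)
    {i l : ℕ} (hl : 1 ≤ l) {x : ℝ} (hx : Tendsto (Pw i l) (U : Filter (ℕ × ℕ)) (𝓝 x)) :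
    Tendsto (wt i l) (U : Filter (ℕ × ℕ))
      (𝓝 (tt i 0 / 9 * ((1 - 2 * θ) ^ (2 * l) / ((2 * l).factorial : ℝ)) * x)) := by
  have h1 := (El_lim h h' (i := i) hl).mono_left hU
  refine (h1.mul hx).congr' ?_
  exact ((wt_eq θ (i := i) hl).filter_mono hU).mono (fun p hp => hp.symm)

private theorem wl_down {θ : ℝ} (h : 0 < θ) (h' : θ < 1 / 2) (i : ℕ) :
    ∃ C : ℝ, 1 ≤ C ∧ ∀ᶠ p in Fth θ, tt p.1 p.2 ≤ C * tt (p.1 - i) p.2 := by
  induction i with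
  | zero => exact ⟨1, le_rfl, Eventually.of_forall fun p => by rw [Nat.sub_zero, one_mul]⟩
  | succ i ih =>
    obtain ⟨C, hC, hev⟩ := ih
    obtain ⟨C', hC', hev'⟩ := bd_up h'
    refine ⟨C * C', by nlinarith, ?_⟩
    filter_upwards [hev, (tendsto_sh h (-((i : ℤ) + 1)) 0).eventually hev', ge_ev θ (i + 1)]
      with p h1 h2 h3
    have e1 : (sh (-((i : ℤ) + 1)) 0 p).1 = p.1 - (i + 1) := by
      show ((p.1 : ℤ) + -((i : ℤ) + 1)).toNat = p.1 - (i + 1)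
      omega
    have e2 : (sh (-((i : ℤ) + 1)) 0 p).2 = p.2 := by
      show ((p.2 : ℤ) + 0).toNat = p.2
      omega
    have e3 : p.1 - (i + 1) + 1 = p.1 - i := by omega
    rw [e1, e2, e3] at h2
    calc tt p.1 p.2 ≤ C * tt (p.1 - i) p.2 := h1
      _ ≤ C * (C' * tt (p.1 - (i + 1)) p.2) := mul_le_mul_of_nonneg_left h2 (by linarith)
      _ = C * C' * tt (p.1 - (i + 1)) p.2 := by ring

theorem Pw_one_ge (hG : GJ) {θ : ℝ} (h : 0 < θ) (h' : θ < 1 / 2) (i : ℕ) :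
    ∃ c : ℝ, 0 < c ∧ ∀ᶠ p in Fth θ, c ≤ Pw i 1 p := by
  obtain ⟨C, hC, hev⟩ := wl_down h h' i
  have hC0 : 0 < C := lt_of_lt_of_le one_pos hC
  refine ⟨1 / C, by positivity, ?_⟩
  filter_upwards [hev, ge_ev θ (i + 1), ev_pos h'] with p h1 h2 h3
  have h4 := tt_le10 hG (n := p.1 - i) (by omega) p.2
  have e1 : p.1 - i + 1 = p.1 + 1 - i := by omega
  rw [e1] at h4
  have h5 := tt_nn (p.1 - i) p.2
  unfold Pw
  have e2 : p.2 + 1 - 1 = p.2 := by omega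
  have e3 : 2 * (1 - 1) = 0 := by norm_num
  rw [e2, e3, pow_zero, one_mul, le_div_iff₀ h3, div_mul_eq_mul_div, one_mul, div_le_iff₀ hC0]
  calc tt p.1 p.2 ≤ C * tt (p.1 - i) p.2 := h1
    _ ≤ C * tt (p.1 + 1 - i) p.2 := mul_le_mul_of_nonneg_left (by linarith) hC0.le
    _ = tt (p.1 + 1 - i) p.2 * C := by ring

private theorem wl_prod {F : Filter (ℕ × ℕ)} {f g u : ℕ × ℕ → ℝ} {a c : ℝ} (ha : 0 < a) (hc : 0 < c)
    (hf : Tendsto f F (𝓝 a)) (hg : ∀ᶠ p in F, c ≤ g p) (hu : ∀ᶠ p in F, u p = f p * g p) :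
    ∃ c' : ℝ, 0 < c' ∧ ∀ᶠ p in F, c' ≤ u p := by
  refine ⟨a / 2 * c, by positivity, ?_⟩
  have h1 : ∀ᶠ p in F, a / 2 < f p := (tendsto_order.1 hf).1 _ (by linarith)
  filter_upwards [h1, hg, hu] with p k1 k2 k3
  rw [k3]
  exact mul_le_mul k1.le k2 hc.le (by linarith)

private theorem wl_pos {θ : ℝ} (h' : θ < 1 / 2) (i l : ℕ) :
    0 < tt i 0 / 9 * ((1 - 2 * θ) ^ (2 * l) / ((2 * l).factorial : ℝ)) := by
  have h1 : 0 < tt i 0 := tt_pos (by omega)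
  have h2 : 0 < 1 - 2 * θ := by linarith
  have h3 : (0 : ℝ) < ((2 * l).factorial : ℝ) := by exact_mod_cast Nat.factorial_pos _
  positivity

theorem w_pos_one (hG : GJ) {θ : ℝ} (h : 0 < θ) (h' : θ < 1 / 2) (i : ℕ) :
    ∃ c : ℝ, 0 < c ∧ ∀ᶠ p in Fth θ, c ≤ wt i 1 p := by
  obtain ⟨c, hc, hev⟩ := Pw_one_ge hG h h' i
  exact wl_prod (wl_pos h' i 1) hc (El_lim h h' (i := i) le_rfl) hev (wt_eq θ (i := i) le_rfl)

theorem w_pos_two (hG : GJ) {θ : ℝ} (h : 0 < θ) (h' : θ < 1 / 2) {U : Ultrafilter (ℕ × ℕ)}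
    (hU : Adm θ U) {q : ℝ} (hq : IsQ (SH 1 0 U) q) (hq0 : 0 < q) :
    ∃ c : ℝ, 0 < c ∧ ∀ᶠ p in (U : Filter (ℕ × ℕ)), c ≤ wt 0 2 p := by
  have hq' : Tendsto (fun p => kap (sh 1 0 p)) (U : Filter (ℕ × ℕ)) (𝓝 q) := isQ_SH.1 hq
  have hkap : ∀ᶠ p in (U : Filter (ℕ × ℕ)), q / 2 < kap (sh 1 0 p) :=
    (tendsto_order.1 hq').1 _ (by linarith)
  refine wl_prod (wl_pos h' 0 2) (show 0 < q / 8 by linarith)
    ((El_lim h h' (i := 0) (l := 2) (by norm_num)).mono_left hU) ?_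
    ((wt_eq θ (i := 0) (l := 2) (by norm_num)).filter_mono hU)
  filter_upwards [hkap, (ge_ev θ 1).filter_mono hU, (ev_pos h').filter_mono hU,
    (ge_ev' h 1).filter_mono hU] with p h1 h2 h3 h4
  have e1 : (sh 1 0 p).1 = p.1 + 1 := by
    show ((p.1 : ℤ) + 1).toNat = p.1 + 1
    omega
  have e2 : (sh 1 0 p).2 = p.2 := by
    show ((p.2 : ℤ) + 0).toNat = p.2
    omega
  unfold kap at h1
  rw [e1, e2] at h1
  have h5 := tt_le10 hG (n := p.1) h2 p.2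
  have h6 : 0 < tt (p.1 + 1) p.2 := by linarith
  rw [lt_div_iff₀ h6] at h1
  have h7 := tt_nn (p.1 + 1) (p.2 - 1)
  unfold Pw
  have e3 : p.2 + 1 - 2 = p.2 - 1 := by omega
  have e4 : 2 * (2 - 1) = 2 := by norm_num
  have e5 : p.1 + 1 - 0 = p.1 + 1 := by omega
  rw [e3, e4, e5, le_div_iff₀ h3]
  have h8 : (1 : ℝ) ≤ (p.1 : ℝ) := by exact_mod_cast h2
  have h9 : (((p.1 + 1 : ℕ) : ℝ)) ^ 2 ≤ 4 * (p.1 : ℝ) ^ 2 := by
    push_cast
    nlinarith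
  have h10 := mul_le_mul_of_nonneg_right h9 h7
  have h11 : q / 2 * tt p.1 p.2 ≤ q / 2 * tt (p.1 + 1) p.2 :=
    mul_le_mul_of_nonneg_left (by linarith) (by linarith)
  nlinarith

end SYS.RB
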