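import Pool.Agent.SYS.RB.GlB
import Pool.Agent.SYS.RB.Wl

/-!
# SYS-RB-Pr: propagation of an extremal ratio to all rows that matter

PROOF.
* `row_const`: if `Adm θ U`, `IsR U r` then `IsR (SH a 0 U) r` for all `a : ℤ`: `MP` with `(i, l) = (0, 1)` (`w_pos_one`) gives `SH 1 0`, with `(2, 1)` gives
  `SH (-1) 0` (`1 - 2 = -1`, `1 - 1 = 0`); induction on `|a|` with `SH_SH`, `Adm_SH`.
* `row_q`: by `exists_isQ` (for `SH a 0 U`) and `gjl` applied to `SH (a+2) 0 U` (all its shifts `SH (-b) 0` have ratio `r`; `SH (-2) 0 (SH (a+2) 0 U) = SH a 0 U`):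
  the limit of `kap` along `SH a 0 U` is `q := (1 - 24 r GG r)/(36 r²)`, the same for all `a`.
* `prop`: rows `b`: induction on `b`: the statement `row_const` + `row_q` for `SH 0 (-b) U`; if `q > 0`, `w_pos_two` for `U' = SH 0 (-b) U` (`IsQ (SH 1 0 U') q`) and `MP`
  with `(i, l) = (0, 2)` gives `IsR (SH 1 (-1) U') r`, hence (by `row_const` for `SH 1 (-1) U'`) `IsR (SH 0 (-(b+1)) U) r`.
-/

namespace SYS.RB

open Filter Topology Finset

private theorem pr_up (hG : GJ) {θ : ℝ} (h : 0 < θ) (h' : θ < 1 / 2) {r : ℝ} (hm : MP θ r)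
    {U : Ultrafilter (ℕ × ℕ)} (hU : Adm θ U) (hr : IsR U r) : IsR (SH 1 0 U) r := by
  obtain ⟨c, hc, hw⟩ := w_pos_one hG h h' 0
  have := hm U hU hr 0 1 le_rfl ⟨c, hc, hw.filter_mono hU⟩
  simpa using this

private theorem pr_down (hG : GJ) {θ : ℝ} (h : 0 < θ) (h' : θ < 1 / 2) {r : ℝ} (hm : MP θ r)
    {U : Ultrafilter (ℕ × ℕ)} (hU : Adm θ U) (hr : IsR U r) : IsR (SH (-1) 0 U) r := by
  obtain ⟨c, hc, hw⟩ := w_pos_one hG h h' 2
  have := hm U hU hr 2 1 le_rfl ⟨c, hc, hw.filter_mono hU⟩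
  have e1 : (1 - ((2 : ℕ) : ℤ)) = -1 := by norm_num
  have e2 : (1 - ((1 : ℕ) : ℤ)) = 0 := by norm_num
  rw [e1, e2] at this
  exact this

theorem row_const (hG : GJ) {θ : ℝ} (h : 0 < θ) (h' : θ < 1 / 2) {r : ℝ} (hm : MP θ r)
    {U : Ultrafilter (ℕ × ℕ)} (hU : Adm θ U) (hr : IsR U r) (a : ℤ) : IsR (SH a 0 U) r := by
  have hpos : ∀ n : ℕ, IsR (SH (n : ℤ) 0 U) r := by
    intro n
    induction n with
    | zero =>
      have e : ((0 : ℕ) : ℤ) = 0 := rfl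
      rw [e, SH_zero]
      exact hr
    | succ n ih =>
      have h1 := pr_up hG h h' hm (Adm_SH h hU (n : ℤ) 0) ih
      rw [SH_SH h hU, add_comm] at h1
      push_cast
      simpa using h1
  have hneg : ∀ n : ℕ, IsR (SH (-(n : ℤ)) 0 U) r := by
    intro n
    induction n with
    | zero =>
      have e : -((0 : ℕ) : ℤ) = 0 := rfl
      rw [e, SH_zero]
      exact hr
    | succ n ih =>
      have h1 := pr_down hG h h' hm (Adm_SH h hU (-(n : ℤ)) 0) ih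
      rw [SH_SH h hU] at h1
      have e : -((n + 1 : ℕ) : ℤ) = -1 + -(n : ℤ) := by push_cast; ring
      rw [e]
      simpa using h1
  obtain ⟨n, rfl | rfl⟩ := a.eq_nat_or_neg
  · exact hpos n
  · exact hneg n

theorem row_q (hG : GJ) {θ : ℝ} (h : 0 < θ) (h' : θ < 1 / 2) {r : ℝ} (hm : MP θ r)
    {U : Ultrafilter (ℕ × ℕ)} (hU : Adm θ U) (hr : IsR U r) (a : ℤ) :
    Summable (fun i => tt i 0 * r ^ i) ∧ IsQ (SH a 0 U) ((1 - 24 * r * GG r) / (36 * r ^ 2)) := by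
  obtain ⟨q, hq⟩ := exists_isQ hG h h' (Adm_SH h hU a 0)
  have hrow : ∀ b : ℕ, IsR (SH (-(b : ℤ)) 0 (SH (a + 2) 0 U)) r := by
    intro b
    rw [SH_SH h hU, add_zero]
    exact row_const hG h h' hm hU hr _
  have hq' : IsQ (SH (-2) 0 (SH (a + 2) 0 U)) q := by
    rw [SH_SH h hU, add_zero]
    have e : (-2 + (a + 2) : ℤ) = a := by ring
    rw [e]
    exact hq
  obtain ⟨hs, he⟩ := gjl hG h h' (Adm_SH h hU (a + 2) 0) hrow hq'
  refine ⟨hs, ?_⟩
  have hr0 : 0 < r := rpos_of_isR hG h h' hU hr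
  have e : (1 - 24 * r * GG r) / (36 * r ^ 2) = q := by
    rw [div_eq_iff (by positivity)]
    linarith
  rw [e]
  exact hq

theorem prop (hG : GJ) {θ : ℝ} (h : 0 < θ) (h' : θ < 1 / 2) {r : ℝ} (hm : MP θ r)
    {U : Ultrafilter (ℕ × ℕ)} (hU : Adm θ U) (hr : IsR U r) :
    ∃ q : ℝ, Cst θ U r q ∧ Summable (fun i => tt i 0 * r ^ i) ∧
      24 * r * GG r + 36 * q * r ^ 2 = 1 := by
  have hr0 : 0 < r := rpos_of_isR hG h h' hU hr
  obtain ⟨q, hq⟩ : ∃ q : ℝ, q = (1 - 24 * r * GG r) / (36 * r ^ 2) := ⟨_, rfl⟩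
  have hrq : ∀ {U : Ultrafilter (ℕ × ℕ)} (_ : Adm θ U) (_ : IsR U r) (a : ℤ),
      IsQ (SH a 0 U) q := by
    intro U hU hr a
    rw [hq]
    exact (row_q hG h h' hm hU hr a).2
  have hqU : IsQ U q := by
    have := hrq hU hr 0
    rwa [SH_zero] at this
  have hqnn : 0 ≤ q := qnn_of_isQ hqU
  refine ⟨q, ?_, (row_q hG h h' hm hU hr 0).1, ?_⟩
  swap
  · rw [hq]
    field_simp
    ring
  · refine ⟨hU, hr0, hqnn, fun a => ⟨row_const hG h h' hm hU hr a, hrq hU hr a⟩, ?_⟩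
    intro hq0
    have hqpos : 0 < q := lt_of_le_of_ne hqnn (Ne.symm hq0)
    have hb : ∀ b : ℕ, IsR (SH 0 (-(b : ℤ)) U) r := by
      intro b
      induction b with
      | zero =>
        have e : -((0 : ℕ) : ℤ) = 0 := rfl
        rw [e, SH_zero]
        exact hr
      | succ b ih =>
        have hU' := Adm_SH h hU 0 (-(b : ℤ))
        obtain ⟨c, hc, hw⟩ := w_pos_two hG h h' hU' (hrq hU' ih 1) hqpos
        have h2 := hm _ hU' ih 0 2 (by norm_num) ⟨c, hc, hw⟩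
        have e1 : (1 - ((0 : ℕ) : ℤ)) = 1 := by norm_num
        have e2 : (1 - ((2 : ℕ) : ℤ)) = -1 := by norm_num
        rw [e1, e2] at h2
        have h3 := row_const hG h h' hm (Adm_SH h hU' 1 (-1)) h2 (-1)
        rw [SH_SH h hU', SH_SH h hU] at h3
        have e3 : (-1 + 1 + 0 : ℤ) = 0 := by norm_num
        have e4 : (0 + -1 + -(b : ℤ)) = -((b + 1 : ℕ) : ℤ) := by push_cast; ring
        rw [e3, e4] at h3
        exact h3
    intro a b
    have e : SH a (-(b : ℤ)) U = SH a 0 (SH 0 (-(b : ℤ)) U) := by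
      rw [SH_SH h hU]
      congr 1
      · ring
      · ring
    rw [e]
    have hU' := Adm_SH h hU 0 (-(b : ℤ))
    exact ⟨row_const hG h h' hm hU' (hb b) a, hrq hU' (hb b) a⟩

end SYS.RB
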