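import Pool.Agent.SYS.RB.TcA
import Pool.Agent.SYS.RB.Wl
import Pool.Agent.SYS.RB.Av

/-!
# SYS-RB-TcB: the Toda equation in the constant case

PROOF.  `v = 1 - 2θ`.  By `Pw_lim` and `wt_lim`: `wt i l → w i l := tt i 0/9 * (v^(2l)/(2l)!) * (r^i/r * q^(l-1))` for `l ≥ 1`.
`∑_{i<K} ∑_{l ∈ Icc 1 L} w i l = (1/(9 r)) * (∑_{i<K} tt i 0 r^i) * (∑_{l<L} v^(2l+2) q^l/(2l+2)!)`
(`Finset.sum_mul_sum`, shift `l ↦ l - 1`: `Finset.range_eq_Ico`, `Finset.sum_Ico_add'`).
It is `≤ 1` (`sum_le_one`) and `≥ 1 - ε` for large `K, L` (`sum_ge`).  The second series is summable (`SS_summable`: terms `v² (q v²)^l/(2l+2)!`, compare with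
`(q v²)^l/l!`: `Real.summable_pow_div_factorial`); partial sums converge (`Summable.hasSum.tendsto_sum_nat`), so the product of the limits `GG r * SS v q/(9 r)` is
both `≤ 1` and `≥ 1 - ε` for all `ε`.
-/

namespace SYS.RB

open Filter Topology Finset

theorem SS_summable (v : ℝ) {q : ℝ} (hq : 0 ≤ q) :
    Summable (fun l : ℕ => v ^ (2 * l + 2) * q ^ l / ((2 * l + 2).factorial : ℝ)) := by
  have h1 := (Real.summable_pow_div_factorial (v ^ 2 * q)).mul_left (v ^ 2)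
  refine Summable.of_nonneg_of_le (fun l => ?_) (fun l => ?_) h1
  · have e : v ^ (2 * l + 2) = (v ^ 2) ^ (l + 1) := by rw [← pow_mul]; congr 1
    rw [e]
    positivity
  · have e : v ^ (2 * l + 2) * q ^ l = v ^ 2 * (v ^ 2 * q) ^ l := by
      rw [mul_pow, ← pow_mul, pow_add]
      ring
    rw [e, ← mul_div_assoc]
    refine div_le_div_of_nonneg_left ?_ ?_ ?_
    · positivity
    · exact_mod_cast Nat.factorial_pos l
    · exact_mod_cast Nat.factorial_le (by omega)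

private theorem tcb_shift (f : ℕ → ℝ) (L : ℕ) : ∑ l ∈ Icc 1 L, f l = ∑ l ∈ range L, f (l + 1) := by
  induction L with
  | zero => simp
  | succ L ih => rw [Finset.sum_Icc_succ_top (by omega), ih, Finset.sum_range_succ]

theorem toda_const (hG : GJ) (hT : TODA) {θ : ℝ} (h : 0 < θ) (h' : θ < 1 / 2)
    {U : Ultrafilter (ℕ × ℕ)} {r q : ℝ} (hc : Cst θ U r q)
    (hs : Summable (fun i => tt i 0 * r ^ i)) : GG r * SS (1 - 2 * θ) q = 9 * r := by
  have hr : 0 < r := hc.rpos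
  obtain ⟨v, hv⟩ : ∃ v : ℝ, v = 1 - 2 * θ := ⟨_, rfl⟩
  rw [← hv]
  have hw : ∀ i l : ℕ, 1 ≤ l → Tendsto (wt i l) (U : Filter (ℕ × ℕ))
      (𝓝 (tt i 0 / 9 * (v ^ (2 * l) / ((2 * l).factorial : ℝ)) * (r ^ i / r * q ^ (l - 1)))) := by
    intro i l hl
    rw [hv]
    exact wt_lim h h' hc.adm hl (Pw_lim hG h h' hc i hl)
  have hsum : ∀ K L : ℕ, ∑ i ∈ range K, ∑ l ∈ Icc 1 L,
      (tt i 0 / 9 * (v ^ (2 * l) / ((2 * l).factorial : ℝ)) * (r ^ i / r * q ^ (l - 1))) =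
      1 / (9 * r) * ((∑ i ∈ range K, tt i 0 * r ^ i) *
        ∑ l ∈ range L, v ^ (2 * l + 2) * q ^ l / ((2 * l + 2).factorial : ℝ)) := by
    intro K L
    rw [Finset.sum_mul_sum, Finset.mul_sum]
    refine Finset.sum_congr rfl fun i _ => ?_
    rw [tcb_shift, Finset.mul_sum]
    refine Finset.sum_congr rfl fun l _ => ?_
    have e1 : 2 * (l + 1) = 2 * l + 2 := by ring
    have e2 : l + 1 - 1 = l := by omega
    rw [e1, e2]
    have hf : ((2 * l + 2).factorial : ℝ) ≠ 0 := by exact_mod_cast Nat.factorial_ne_zero _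
    field_simp
  have hA : Tendsto (fun n => ∑ i ∈ range n, tt i 0 * r ^ i) atTop (𝓝 (GG r)) :=
    hs.hasSum.tendsto_sum_nat
  have hB : Tendsto (fun n => ∑ l ∈ range n, v ^ (2 * l + 2) * q ^ l / ((2 * l + 2).factorial : ℝ))
      atTop (𝓝 (SS v q)) := (SS_summable v hc.qnn).hasSum.tendsto_sum_nat
  have hlim := (hA.mul hB).const_mul (1 / (9 * r))
  have hle : 1 / (9 * r) * (GG r * SS v q) ≤ 1 := by
    refine le_of_tendsto' hlim fun n => ?_
    rw [← hsum]
    exact sum_le_one hT h h' hc.adm hw n n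
  have hge : ∀ ε : ℝ, 0 < ε → 1 - ε ≤ 1 / (9 * r) * (GG r * SS v q) := by
    intro ε hε
    obtain ⟨K0, L0, hKL⟩ := sum_ge hG hT h h' hc.adm hw hε
    refine ge_of_tendsto hlim ?_
    filter_upwards [eventually_ge_atTop (max K0 L0)] with n hn
    rw [← hsum]
    exact hKL n (le_trans (le_max_left _ _) hn) n (le_trans (le_max_right _ _) hn)
  have heq : 1 / (9 * r) * (GG r * SS v q) = 1 := by
    refine le_antisymm hle ?_
    by_contra hlt
    push Not at hlt
    have := hge ((1 - 1 / (9 * r) * (GG r * SS v q)) / 2) (by linarith)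
    linarith
  have : GG r * SS v q = 9 * r * (1 / (9 * r) * (GG r * SS v q)) := by
    field_simp
  rw [this, heq, mul_one]

end SYS.RB
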