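import Pool.Agent.SYS.RB.Mx
import Pool.Agent.SYS.RB.Pr
import Pool.Agent.SYS.RB.TcB
import Pool.Agent.SYS.RB.Pl
import Pool.Agent.SYS.RB.Pa
import Pool.Agent.SYS.RB.Mo
import Pool.Agent.SYS.RB.Cv

/-!
# SYS-RB-Fin: the ratio theorem

For `0 < θ < 1/2` there is a (unique) `x > 0` with `3 x cosh x = (1 - 2 θ) sinh x (cosh² x + 2)`; as `n → ∞`, `g/n → θ`
`nu (n-1) g/nu n g → cosh x/(4 (cosh² x + 2)^(3/2))` and `n² nu n (g-1)/nu n g → (4/9) sinh² x (cosh² x + 2)²/cosh² x`.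
-/

namespace SYS.RB

open Filter Topology Finset

private theorem fin_solve (hG : GJ) (hT : TODA) {θ : ℝ} (h : 0 < θ) (h' : θ < 1 / 2) {r : ℝ}
    (hm : MP θ r) {U : Ultrafilter (ℕ × ℕ)} (hU : Adm θ U) (hr : IsR U r) :
    ∃ x : ℝ, 0 < x ∧
      3 * x * Real.cosh x = (1 - 2 * θ) * (Real.sinh x * (Real.cosh x ^ 2 + 2)) ∧
      r = Real.cosh x / (4 * (Real.cosh x ^ 2 + 2) ^ (3 / 2 : ℝ)) ∧
      (1 - 24 * r * GG r) / (36 * r ^ 2) =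
        4 / 9 * Real.sinh x ^ 2 * (Real.cosh x ^ 2 + 2) ^ 2 / Real.cosh x ^ 2 := by
  obtain ⟨q, hc, hs, he⟩ := prop hG h h' hm hU hr
  have hr0 : 0 < r := hc.rpos
  have h3 := toda_const hG hT h h' hc hs
  obtain ⟨x, hx, h1, h2, h4⟩ := param (v := 1 - 2 * θ) (by linarith) (by linarith) hr0 hc.qnn
    (GG_gt hr0 hs) (planar hG hr0.le hs) he h3
  refine ⟨x, hx, h1, h2, ?_⟩
  rw [← h4, div_eq_iff (by positivity)]
  linarith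

theorem rat_tt (hG : GJ) (hT : TODA) {θ : ℝ} (h : 0 < θ) (h' : θ < 1 / 2) :
    ∃ x : ℝ, 0 < x ∧
      3 * x * Real.cosh x = (1 - 2 * θ) * (Real.sinh x * (Real.cosh x ^ 2 + 2)) ∧
      Tendsto rho (Fth θ) (𝓝 (Real.cosh x / (4 * (Real.cosh x ^ 2 + 2) ^ (3 / 2 : ℝ)))) ∧
      Tendsto kap (Fth θ)
        (𝓝 (4 / 9 * Real.sinh x ^ 2 * (Real.cosh x ^ 2 + 2) ^ 2 / Real.cosh x ^ 2)) := by
  obtain ⟨c, hc, hmem⟩ := rho_mem hG h h'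
  obtain ⟨U1, r1, hU1, hr1, hmax⟩ := exists_max h.le hmem
  obtain ⟨U2, r2, hU2, hr2, hmin⟩ := exists_min h.le hmem
  have hm1 : MP θ r1 := mp_max hG hT h h' fun U r' hU hr => hmax U r' hU hr
  have hm2 : MP θ r2 := mp_min hG hT h h' fun U r' hU hr => hmin U r' hU hr
  obtain ⟨x1, hx1, e1, f1, g1⟩ := fin_solve hG hT h h' hm1 hU1 hr1
  obtain ⟨x2, hx2, e2, f2, g2⟩ := fin_solve hG hT h h' hm2 hU2 hr2
  have hx : x1 = x2 := V_inj hx1 hx2 e1 e2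
  subst hx
  have hr12 : r1 = r2 := f1.trans f2.symm
  subst hr12
  have key : ∀ U : Ultrafilter (ℕ × ℕ), Adm θ U → IsR U r1 := by
    intro U hU
    obtain ⟨r, hr⟩ := exists_isR hG h h' hU
    have a1 := hmax U r hU hr
    have a2 := hmin U r hU hr
    rw [le_antisymm a2 a1]
    exact hr
  refine ⟨x1, hx1, e1, ?_, ?_⟩
  · rw [← f1]
    exact lim_of_all key
  · rw [← g1]
    refine lim_of_all fun U hU => ?_
    have := (row_q hG h h' hm1 hU (key U hU) 0).2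
    rw [SH_zero] at this
    exact this

/-- THEOREM RAT. -/
theorem rat (hG : GJ) (hT : TODA) {θ : ℝ} (h : 0 < θ) (h' : θ < 1 / 2) :
    ∃ x : ℝ, 0 < x ∧
      3 * x * Real.cosh x = (1 - 2 * θ) * (Real.sinh x * (Real.cosh x ^ 2 + 2)) ∧
      Tendsto (fun p : ℕ × ℕ => SST.nu (p.1 - 1) p.2 / SST.nu p.1 p.2) (Fth θ)
        (𝓝 (Real.cosh x / (4 * (Real.cosh x ^ 2 + 2) ^ (3 / 2 : ℝ)))) ∧
      Tendsto (fun p : ℕ × ℕ => (p.1 : ℝ) ^ 2 * SST.nu p.1 (p.2 - 1) / SST.nu p.1 p.2) (Fth θ)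
        (𝓝 (4 / 9 * Real.sinh x ^ 2 * (Real.cosh x ^ 2 + 2) ^ 2 / Real.cosh x ^ 2)) := by
  obtain ⟨x, hx, e, hr, hq⟩ := rat_tt hG hT h h'
  exact ⟨x, hx, e, nu_ratio h hr, nu_ratio_g h hq⟩

end SYS.RB
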