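import Pool.Agent.SYS.RB.Be

/-!
# SYS-RB-GlA: limits of the single terms of GJ along an ultrafilter with constant ratio
-/

namespace SYS.RB

open Filter Topology Finset

private theorem gla_sh (p : ℕ × ℕ) (i : ℕ) : sh (-(i : ℤ)) 0 p = (p.1 - i, p.2) := by
  unfold sh
  refine Prod.ext ?_ ?_
  · show ((p.1 : ℤ) + -(i : ℤ)).toNat = p.1 - i
    omega
  · show ((p.2 : ℤ) + 0).toNat = p.2
    omega

private theorem gla_inv {f : ℕ × ℕ → ℕ} {θ : ℝ} (hf : Tendsto f (Fth θ) atTop) :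
    Tendsto (fun p => ((f p : ℕ) : ℝ)⁻¹) (Fth θ) (𝓝 0) :=
  tendsto_inv_atTop_zero.comp (tendsto_natCast_atTop_atTop.comp hf)

theorem an_lim (θ : ℝ) : Tendsto (fun p : ℕ × ℕ => an (p.1 - 1)) (Fth θ) (𝓝 12) := by
  have h1 : Tendsto (fun n : ℕ => (12 : ℝ) - 4 * (1 / ((n : ℝ) + 1))) atTop (𝓝 (12 - 4 * 0)) :=
    tendsto_const_nhds.sub (tendsto_const_nhds.mul tendsto_one_div_add_atTop_nhds_zero_nat)
  have h2 : Tendsto (fun n : ℕ => an n) atTop (𝓝 12) := by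
    rw [show (12 : ℝ) = 12 - 4 * 0 by norm_num]
    refine h1.congr fun n => ?_
    rw [an_eq]
    ring
  exact h2.comp ((tendsto_sub_atTop_nat 1).comp (fst_nat_atTop θ))

theorem row_lim {θ : ℝ} (h : 0 < θ) (h' : θ < 1 / 2) {U : Ultrafilter (ℕ × ℕ)} (hU : Adm θ U)
    {r : ℝ} (hr : ∀ a : ℕ, IsR (SH (-(a : ℤ)) 0 U) r) (i : ℕ) :
    Tendsto (fun p : ℕ × ℕ => tt (p.1 - i) p.2 / tt p.1 p.2) (U : Filter (ℕ × ℕ)) (𝓝 (r ^ i)) := by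
  induction i with
  | zero =>
    rw [pow_zero]
    refine Tendsto.congr' ?_ (tendsto_const_nhds (x := (1 : ℝ)))
    filter_upwards [(ev_pos h').filter_mono hU] with p hp
    rw [Nat.sub_zero, div_self hp.ne']
  | succ i ih =>
    rw [pow_succ']
    have h1 : Tendsto (fun p => rho (sh (-(i : ℤ)) 0 p)) (U : Filter (ℕ × ℕ)) (𝓝 r) :=
      isR_SH.1 (hr i)
    refine Tendsto.congr' ?_ (h1.mul ih)
    filter_upwards [((tendsto_sh h (-(i : ℤ)) 0).eventually (ev_pos h')).filter_mono hU] with p hp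
    rw [gla_sh] at hp ⊢
    unfold rho
    show tt (p.1 - i - 1) p.2 / tt (p.1 - i) p.2 * (tt (p.1 - i) p.2 / tt p.1 p.2) =
      tt (p.1 - (i + 1)) p.2 / tt p.1 p.2
    have hp' : tt (p.1 - i) p.2 ≠ 0 := (show 0 < tt (p.1 - i) p.2 from hp).ne'
    rw [Nat.sub_sub, div_mul_div_cancel₀ hp']

theorem handle_lim {θ : ℝ} (h : 0 < θ) (h' : θ < 1 / 2) {U : Ultrafilter (ℕ × ℕ)} (hU : Adm θ U)
    {r q : ℝ} (hr : ∀ a : ℕ, IsR (SH (-(a : ℤ)) 0 U) r) (hq : IsQ (SH (-2) 0 U) q) :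
    Tendsto (fun p : ℕ × ℕ => an (p.1 - 1) * (((p.1 - 1 : ℕ) : ℝ) * (3 * ((p.1 - 1 : ℕ) : ℝ) - 2) *
      (if p.2 = 0 then 0 else tt (p.1 - 1 - 1) (p.2 - 1))) / tt p.1 p.2) (U : Filter (ℕ × ℕ))
      (𝓝 (36 * q * r ^ 2)) := by
  have h1 : Tendsto (fun p : ℕ × ℕ => an (p.1 - 1)) (U : Filter (ℕ × ℕ)) (𝓝 12) :=
    (an_lim θ).mono_left hU
  have h2 : Tendsto (fun p : ℕ × ℕ => ((p.1 - 2 : ℕ) : ℝ)⁻¹) (U : Filter (ℕ × ℕ)) (𝓝 0) :=
    (gla_inv ((tendsto_sub_atTop_nat 2).comp (fst_nat_atTop θ))).mono_left hU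
  have h3 : Tendsto (fun p => kap (sh (-2) 0 p)) (U : Filter (ℕ × ℕ)) (𝓝 q) := isQ_SH.1 hq
  have h4 := row_lim h h' hU hr 2
  have h5 : Tendsto (fun p : ℕ × ℕ => an (p.1 - 1) *
      ((1 + ((p.1 - 2 : ℕ) : ℝ)⁻¹) * (3 + ((p.1 - 2 : ℕ) : ℝ)⁻¹)) * kap (sh (-2) 0 p) *
      (tt (p.1 - 2) p.2 / tt p.1 p.2)) (U : Filter (ℕ × ℕ))
      (𝓝 (12 * ((1 + 0) * (3 + 0)) * q * r ^ 2)) :=
    ((h1.mul ((tendsto_const_nhds.add h2).mul (tendsto_const_nhds.add h2))).mul h3).mul h4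
  rw [show (36 : ℝ) * q * r ^ 2 = 12 * ((1 + 0) * (3 + 0)) * q * r ^ 2 by ring]
  refine Tendsto.congr' ?_ h5
  filter_upwards [((tendsto_sh h (-((2 : ℕ) : ℤ)) 0).eventually (ev_pos h')).filter_mono hU,
    (ge_ev θ 3).filter_mono hU, (ge_ev' h 1).filter_mono hU] with p hp hp1 hp2
  rw [gla_sh] at hp
  have hp' : tt (p.1 - 2) p.2 ≠ 0 := (show 0 < tt (p.1 - 2) p.2 from hp).ne'
  have hsh : sh (-2) 0 p = (p.1 - 2, p.2) := gla_sh p 2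
  have h6 : ((p.1 - 2 : ℕ) : ℝ) ≠ 0 := by
    have : 0 < p.1 - 2 := by omega
    exact_mod_cast this.ne'
  have h7 : ((p.1 - 1 : ℕ) : ℝ) = ((p.1 - 2 : ℕ) : ℝ) + 1 := by
    have : p.1 - 1 = (p.1 - 2) + 1 := by omega
    rw [this]
    push_cast
    rfl
  rw [hsh, if_neg (by omega : ¬ p.2 = 0)]
  unfold kap
  have h8 : p.1 - 1 - 1 = p.1 - 2 := by omega
  rw [h8]
  show an (p.1 - 1) * ((1 + ((p.1 - 2 : ℕ) : ℝ)⁻¹) * (3 + ((p.1 - 2 : ℕ) : ℝ)⁻¹)) *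
      (((p.1 - 2 : ℕ) : ℝ) ^ 2 * tt (p.1 - 2) (p.2 - 1) / tt (p.1 - 2) p.2) *
      (tt (p.1 - 2) p.2 / tt p.1 p.2) = _
  rw [h7]
  have h9 : (((p.1 - 2 : ℕ) : ℝ) ^ 2 * tt (p.1 - 2) (p.2 - 1) / tt (p.1 - 2) p.2) *
      (tt (p.1 - 2) p.2 / tt p.1 p.2) =
      ((p.1 - 2 : ℕ) : ℝ) ^ 2 * tt (p.1 - 2) (p.2 - 1) / tt p.1 p.2 := by
    rw [div_mul_div_cancel₀ hp']
  rw [mul_assoc _ (((p.1 - 2 : ℕ) : ℝ) ^ 2 * tt (p.1 - 2) (p.2 - 1) / tt (p.1 - 2) p.2) _, h9]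
  have h10 : (1 + ((p.1 - 2 : ℕ) : ℝ)⁻¹) * (3 + ((p.1 - 2 : ℕ) : ℝ)⁻¹) * ((p.1 - 2 : ℕ) : ℝ) ^ 2 =
      (((p.1 - 2 : ℕ) : ℝ) + 1) * (3 * (((p.1 - 2 : ℕ) : ℝ) + 1) - 2) := by
    field_simp
    ring
  rw [← h10]
  ring

theorem pair_lim (hG : GJ) {θ : ℝ} (h : 0 < θ) (h' : θ < 1 / 2) {U : Ultrafilter (ℕ × ℕ)}
    (hU : Adm θ U) {r : ℝ} (hr : ∀ a : ℕ, IsR (SH (-(a : ℤ)) 0 U) r) (i : ℕ) :
    Tendsto (fun p : ℕ × ℕ => (∑ s ∈ antidiagonal p.2, tt i s.1 * tt (p.1 - 1 - i) s.2) /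
      tt p.1 p.2) (U : Filter (ℕ × ℕ)) (𝓝 (tt i 0 * r ^ (i + 1))) := by
  have hsub : ∀ m : ℕ, m - 1 - i = m - (i + 1) := fun m => by omega
  have hterm : ∀ k ∈ range (i + 1), Tendsto (fun p : ℕ × ℕ =>
      tt i k * tt (p.1 - 1 - i) (p.2 - k) / tt p.1 p.2) (U : Filter (ℕ × ℕ))
      (𝓝 (if k = 0 then tt i 0 * r ^ (i + 1) else 0)) := by
    intro k _
    rcases Nat.eq_zero_or_pos k with hk | hk
    · subst hk
      rw [if_pos rfl]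
      refine (tendsto_const_nhds.mul (row_lim h h' hU hr (i + 1))).congr fun p => ?_
      rw [Nat.sub_zero, hsub, mul_div_assoc]
    · rw [if_neg hk.ne']
      obtain ⟨C, _, hbd⟩ := bd hG h h' (i + 2) k
      have h2 : Tendsto (fun p : ℕ × ℕ => tt i k * C * ((p.1 : ℝ)⁻¹) ^ (2 * k))
          (U : Filter (ℕ × ℕ)) (𝓝 (tt i k * C * 0 ^ (2 * k))) :=
        tendsto_const_nhds.mul (((gla_inv (fst_nat_atTop θ)).mono_left hU).pow (2 * k))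
      have h3 : tt i k * C * (0 : ℝ) ^ (2 * k) = 0 := by
        rw [zero_pow (by omega), mul_zero]
      rw [h3] at h2
      refine squeeze_zero' ?_ ?_ h2
      · exact Eventually.of_forall fun p =>
          div_nonneg (mul_nonneg (tt_nn _ _) (tt_nn _ _)) (tt_nn _ _)
      · filter_upwards [hbd.filter_mono hU, (ev_pos h').filter_mono hU,
          (ge_ev θ 1).filter_mono hU] with p hp hp1 hp2
        have hm : (0 : ℝ) < p.1 := by exact_mod_cast hp2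
        have e1 : p.1 + 1 - (i + 2) = p.1 - 1 - i := by omega
        rw [e1] at hp
        have h4 : tt (p.1 - 1 - i) (p.2 - k) ≤ C * tt p.1 p.2 * ((p.1 : ℝ)⁻¹) ^ (2 * k) := by
          rw [inv_pow, ← div_eq_mul_inv, le_div_iff₀ (pow_pos hm _), mul_comm]
          exact hp
        rw [div_le_iff₀ hp1]
        calc tt i k * tt (p.1 - 1 - i) (p.2 - k) ≤
            tt i k * (C * tt p.1 p.2 * ((p.1 : ℝ)⁻¹) ^ (2 * k)) :=
              mul_le_mul_of_nonneg_left h4 (tt_nn _ _)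
          _ = tt i k * C * ((p.1 : ℝ)⁻¹) ^ (2 * k) * tt p.1 p.2 := by ring
  have hsum := tendsto_finset_sum (range (i + 1)) hterm
  have hval : ∑ k ∈ range (i + 1), (if k = 0 then tt i 0 * r ^ (i + 1) else 0) =
      tt i 0 * r ^ (i + 1) := by
    rw [Finset.sum_ite_eq' (range (i + 1)) 0 (fun _ => tt i 0 * r ^ (i + 1)),
      if_pos (Finset.mem_range.2 (Nat.succ_pos i))]
  rw [hval] at hsum
  refine Tendsto.congr' ?_ hsum
  filter_upwards [(ge_ev' h i).filter_mono hU] with p hp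
  rw [← Finset.sum_div]
  congr 1
  rw [Finset.Nat.sum_antidiagonal_eq_sum_range_succ (fun a b => tt i a * tt (p.1 - 1 - i) b) p.2]
  refine Finset.sum_subset (Finset.range_mono (by omega)) ?_
  intro k _ hk
  have : i < k := by
    by_contra hcon
    exact hk (Finset.mem_range.2 (by omega))
  rw [tt_eq_zero (by omega : i < 2 * k), zero_mul]

end SYS.RB
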