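import Pool.Agent.SYS.RB.Sym
import Pool.Agent.SYS.RB.Cr

/-!
# SYS-RB-NmII: second part of the expansion (one of the two new indices is `< K'`)

PROOF.  For `p ∈ HS K n`: `p.1 - 1 ≥ K - 1 ≥ 2 K' + 1`, so `SP (p.1 - 1) - WP K' (p.1 - 1) = C 2 * ∑_{l<K'} tp l * tp (p.1 - 1 - l)` (`SP_split`).
So the left side is `C 2 * ∑_{l<K'} tp l * (∑_{p ∈ HS K n} C (an (p.1 - 1)) * tp (p.1 - 1 - l) * tp p.2)`.  Fix `l < K'`.  If `p ∈ HS K n` then
`p.1 + l ≤ n` (`l < K ≤ p.1 ≤ p.2`), so `an (p.1 - 1) ≤ an (n - 1 - l)`; the map `p ↦ (p.1 - 1 - l, p.2)` is injective from `HS K n` into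
`LS (K - K') (n - 1 - l)`.  So the inner sum is `≤ C (an (n-1-l)) * LP (K-K') (n-1-l) ≤ C (1/2) * (C (an (n-1-l)) * WP (K-K') (n-1-l))
≤ C (A/2) * tp (n - l)` (`LP_le_WP`, `hA` at `n - 1 - l ≥ N`, `n - 1 - l + 1 = n - l`).  Total `≤ C (A/2) * (C 2 * ∑_{l<K'} tp l * tp (n-l))
= C (A/2) * (SP n - WP K' n)` (`SP_split`, `2 K' ≤ n`).
-/

namespace SYS.RB

open Finset PowerSeries

theorem nm_II {K K' N n : ℕ} {A : ℝ} (hK : 2 * K' + 2 ≤ K) (hn : N + K' + 1 ≤ n) (hn' : 2 * K ≤ n)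
    (hA0 : 0 ≤ A) (hA : NM (K - K') N A) :
    SLe (∑ p ∈ HS K n, C (an (p.1 - 1)) * (SP (p.1 - 1) - WP K' (p.1 - 1)) * tp p.2)
      (C (A / 2) * (SP n - WP K' n)) := by
  have hK2 : 2 * K' ≤ n := by omega
  have hL : ∑ p ∈ HS K n, C (an (p.1 - 1)) * (SP (p.1 - 1) - WP K' (p.1 - 1)) * tp p.2 =
      ∑ l ∈ range K', C 2 * tp l *
        ∑ p ∈ HS K n, C (an (p.1 - 1)) * (tp (p.1 - 1 - l) * tp p.2) := by
    have h1 : ∀ p ∈ HS K n, C (an (p.1 - 1)) * (SP (p.1 - 1) - WP K' (p.1 - 1)) * tp p.2 =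
        ∑ l ∈ range K', C 2 * tp l * (C (an (p.1 - 1)) * (tp (p.1 - 1 - l) * tp p.2)) := by
      intro p hp
      have hp' := (Finset.mem_filter.1 hp).2
      rw [SP_split (K := K') (n := p.1 - 1) (by omega), add_sub_cancel_right, Finset.mul_sum,
        Finset.mul_sum, Finset.sum_mul]
      refine Finset.sum_congr rfl fun l _ => ?_
      ring
    rw [Finset.sum_congr rfl h1, Finset.sum_comm]
    refine Finset.sum_congr rfl fun l _ => ?_
    rw [Finset.mul_sum]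
  have hR : C (A / 2) * (SP n - WP K' n) =
      ∑ l ∈ range K', C 2 * tp l * (C (A / 2) * tp (n - l)) := by
    rw [SP_split hK2, add_sub_cancel_right, Finset.mul_sum, Finset.mul_sum]
    refine Finset.sum_congr rfl fun l _ => ?_
    ring
  rw [hL, hR]
  refine SLe.sum fun l hl => SLe.mul_left (SLe.mul_nn (SLe.C_nn (by norm_num)) (tp_nn l)) ?_
  have hl' := Finset.mem_range.1 hl
  have h8 := an_ge (n - 1 - l)
  have h1 : SLe (∑ p ∈ HS K n, C (an (p.1 - 1)) * (tp (p.1 - 1 - l) * tp p.2))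
      (∑ p ∈ HS K n, C (an (n - 1 - l)) * (tp (p.1 - 1 - l) * tp p.2)) := by
    refine SLe.sum fun p hp => ?_
    obtain ⟨hp1, hp2⟩ := Finset.mem_filter.1 hp
    have hs := Finset.HasAntidiagonal.mem_antidiagonal.1 hp1
    have h8' := an_ge (p.1 - 1)
    exact SLe.C_mul (by linarith) (an_mono (by omega)) (SLe.mul_nn (tp_nn _) (tp_nn _))
      (SLe.refl _)
  refine SLe.trans h1 ?_
  rw [← Finset.mul_sum]
  have h2 : SLe (∑ p ∈ HS K n, tp (p.1 - 1 - l) * tp p.2) (LP (K - K') (n - 1 - l)) := by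
    have e : ∑ p ∈ HS K n, tp (p.1 - 1 - l) * tp p.2 =
        ∑ q ∈ (HS K n).image (fun p : ℕ × ℕ => (p.1 - 1 - l, p.2)), tp q.1 * tp q.2 := by
      rw [Finset.sum_image]
      intro p hp p' hp' he
      obtain ⟨hp1, hp2⟩ := Finset.mem_filter.1 (Finset.mem_coe.1 hp)
      obtain ⟨hp1', hp2'⟩ := Finset.mem_filter.1 (Finset.mem_coe.1 hp')
      have hs := Finset.HasAntidiagonal.mem_antidiagonal.1 hp1
      have hs' := Finset.HasAntidiagonal.mem_antidiagonal.1 hp1'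
      have h3 : p.2 = p'.2 := (Prod.ext_iff.1 he).2
      exact Prod.ext (by omega) h3
    rw [e]
    unfold LP
    refine SLe.sum_subset ?_ (fun q _ => SLe.mul_nn (tp_nn _) (tp_nn _))
    intro q hq
    obtain ⟨p, hp, rfl⟩ := Finset.mem_image.1 hq
    obtain ⟨hp1, hp2⟩ := Finset.mem_filter.1 hp
    have hs := Finset.HasAntidiagonal.mem_antidiagonal.1 hp1
    refine Finset.mem_filter.2 ⟨Finset.HasAntidiagonal.mem_antidiagonal.2 ?_, ?_, ?_⟩
    · show p.1 - 1 - l + p.2 = n - 1 - l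
      omega
    · show K - K' ≤ p.1 - 1 - l
      omega
    · show p.1 - 1 - l < p.2
      omega
  have h3 : SLe (C (an (n - 1 - l)) * ∑ p ∈ HS K n, tp (p.1 - 1 - l) * tp p.2)
      (C (an (n - 1 - l)) * LP (K - K') (n - 1 - l)) := SLe.C_mul_left (by linarith) h2
  refine SLe.trans h3 ?_
  have e1 : C (an (n - 1 - l)) * LP (K - K') (n - 1 - l) =
      C (1 / 2 : ℝ) * (C (an (n - 1 - l)) * (C 2 * LP (K - K') (n - 1 - l))) := by
    have : (C (1 / 2 : ℝ) * C (2 : ℝ) : PowerSeries ℝ) = 1 := by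
      rw [← map_mul]
      norm_num
    calc C (an (n - 1 - l)) * LP (K - K') (n - 1 - l)
        = (C (1 / 2 : ℝ) * C (2 : ℝ)) * (C (an (n - 1 - l)) * LP (K - K') (n - 1 - l)) := by
          rw [this, one_mul]
      _ = _ := by ring
  have e2 : C (A / 2) * tp (n - l) = C (1 / 2 : ℝ) * (C A * tp (n - 1 - l + 1)) := by
    have h4 : n - 1 - l + 1 = n - l := by omega
    rw [h4, ← mul_assoc, ← map_mul]
    congr 2
    ring
  rw [e1, e2]
  refine SLe.C_mul_left (by norm_num) ?_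
  refine SLe.trans (SLe.C_mul_left (by linarith) (LP_le_WP (K - K') (n - 1 - l))) ?_
  exact hA (n - 1 - l) (by omega)

end SYS.RB
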