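import Pool.Agent.SYS.RB.Sym
import Pool.Agent.SYS.RB.Cr

/-!
# SYS-RB-NmIII: third part of the expansion (both new indices are `≥ K'`)

The sum is regrouped by the smallest index; the map of the index sets is injective.
-/

namespace SYS.RB

open Finset PowerSeries

private theorem nm3_inj {ι κ : Type} [DecidableEq κ] {s : Finset ι} {t : Finset κ} (φ : ι → κ)
    (hφ : ∀ i ∈ s, φ i ∈ t) (hinj : ∀ i ∈ s, ∀ j ∈ s, φ i = φ j → i = j)
    (f : ι → PowerSeries ℝ) (g : κ → PowerSeries ℝ) (hfg : ∀ i ∈ s, SLe (f i) (g (φ i)))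
    (hg : ∀ k ∈ t, SLe 0 (g k)) : SLe (∑ i ∈ s, f i) (∑ k ∈ t, g k) := by
  refine (SLe.sum hfg).trans ?_
  have e : ∑ i ∈ s, g (φ i) = ∑ k ∈ s.image φ, g k :=
    (sum_image fun i hi j hj h => hinj i hi j hj h).symm
  rw [e]
  refine SLe.sum_subset ?_ hg
  intro k hk
  obtain ⟨i, hi, rfl⟩ := mem_image.1 hk
  exact hφ i hi

private theorem nm3_eq (C1 a b c : PowerSeries ℝ) : C1 * (a * b) * c = C1 * (a * (b * c)) := by
  ring

private theorem nm3_eq' (C1 a b c : PowerSeries ℝ) : a * (C1 * (b * c)) = C1 * (a * (b * c)) := by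
  ring

private theorem nm3_half {K' N : ℕ} {B : ℝ} (hB : NM K' N B) {m : ℕ} (hm : N ≤ m) :
    SLe (C (an m) * LP K' m) (C (B / 2) * tp (m + 1)) := by
  have h1 : SLe (C 2 * LP K' m) (WP K' m) := LP_le_WP K' m
  have h0 : (0 : ℝ) ≤ an m := by linarith [an_ge m]
  have h2 : SLe (C (an m / 2) * (C 2 * LP K' m)) (C (an m / 2) * WP K' m) :=
    SLe.C_mul_left (by linarith) h1
  have h3 : SLe (C (1 / 2 : ℝ) * (C (an m) * WP K' m)) (C (1 / 2 : ℝ) * (C B * tp (m + 1))) :=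
    SLe.C_mul_left (by norm_num) (hB m hm)
  have e1 : C (an m / 2) * (C 2 * LP K' m) = C (an m) * LP K' m := by
    rw [← mul_assoc, ← map_mul]
    congr 2
    ring
  have e2 : C (1 / 2 : ℝ) * (C (an m) * WP K' m) = C (an m / 2) * WP K' m := by
    rw [← mul_assoc, ← map_mul]
    congr 2
    ring
  have e3 : C (1 / 2 : ℝ) * (C B * tp (m + 1)) = C (B / 2) * tp (m + 1) := by
    rw [← mul_assoc, ← map_mul]
    congr 2
    ring
  rw [e1] at h2
  rw [e2, e3] at h3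
  exact h2.trans h3

theorem nm_III {K K' N n : ℕ} {B : ℝ} (hK : 1 ≤ K) (hn : 2 * N + 2 ≤ n) (hB0 : 0 ≤ B)
    (hB : NM K' N B) :
    SLe (∑ p ∈ HS K n, C (an (p.1 - 1)) * WP K' (p.1 - 1) * tp p.2) (C (B / 4) * WP K' n) := by
  -- the left side as a double sum
  have e1 : ∑ p ∈ HS K n, C (an (p.1 - 1)) * WP K' (p.1 - 1) * tp p.2 =
      ∑ q ∈ (HS K n).sigma (fun p => WS K' (p.1 - 1)),
        C (an (q.1.1 - 1)) * (tp q.2.1 * tp q.2.2) * tp q.1.2 := by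
    rw [sum_sigma]
    refine sum_congr rfl fun p _ => ?_
    rw [WP, mul_sum, sum_mul]
  have e2 : ∑ y ∈ LS K' n, tp y.1 * (C (an (y.2 - 1)) * LP K' (y.2 - 1)) =
      ∑ q ∈ (LS K' n).sigma (fun y => LS K' (y.2 - 1)),
        tp q.1.1 * (C (an (q.1.2 - 1)) * (tp q.2.1 * tp q.2.2)) := by
    rw [sum_sigma]
    refine sum_congr rfl fun y _ => ?_
    rw [LP, mul_sum, mul_sum]
  have h1 : SLe (∑ p ∈ HS K n, C (an (p.1 - 1)) * WP K' (p.1 - 1) * tp p.2)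
      (∑ y ∈ LS K' n, tp y.1 * (C (an (y.2 - 1)) * LP K' (y.2 - 1))) := by
    rw [e1, e2]
    refine nm3_inj (fun q : (Σ _ : ℕ × ℕ, ℕ × ℕ) =>
      (⟨(q.2.1, n - q.2.1), (q.2.2, q.1.2)⟩ : (Σ _ : ℕ × ℕ, ℕ × ℕ))) ?_ ?_ _ _ ?_ ?_
    · rintro ⟨p, x⟩ hq
      obtain ⟨hp, hx⟩ := mem_sigma.1 hq
      simp only [HS, WS, mem_filter, HasAntidiagonal.mem_antidiagonal] at hp hx
      refine mem_sigma.2 ⟨?_, ?_⟩
      · simp only [LS, mem_filter, HasAntidiagonal.mem_antidiagonal]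
        omega
      · simp only [LS, mem_filter, HasAntidiagonal.mem_antidiagonal]
        omega
    · rintro ⟨⟨p1, p2⟩, ⟨x1, x2⟩⟩ hq ⟨⟨q1, q2⟩, ⟨y1, y2⟩⟩ hq' heq
      obtain ⟨hp, -⟩ := mem_sigma.1 hq
      obtain ⟨hp', -⟩ := mem_sigma.1 hq'
      simp only [HS, mem_filter, HasAntidiagonal.mem_antidiagonal] at hp hp'
      simp only [Sigma.mk.injEq, Prod.mk.injEq, heq_eq_eq] at heq
      have a1 : x1 = y1 := heq.1.1
      have a2 : x2 = y2 := heq.2.1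
      have a3 : p2 = q2 := heq.2.2
      have a4 : p1 = q1 := by omega
      subst a1 a2 a3 a4
      rfl
    · rintro ⟨p, x⟩ hq
      obtain ⟨hp, hx⟩ := mem_sigma.1 hq
      simp only [HS, WS, mem_filter, HasAntidiagonal.mem_antidiagonal] at hp hx
      show SLe (C (an (p.1 - 1)) * (tp x.1 * tp x.2) * tp p.2)
        (tp x.1 * (C (an (n - x.1 - 1)) * (tp x.2 * tp p.2)))
      rw [nm3_eq, nm3_eq' (C (an (n - x.1 - 1))) (tp x.1) (tp x.2) (tp p.2)]
      refine SLe.C_mul (by linarith [an_ge (p.1 - 1)]) (an_mono (show p.1 - 1 ≤ n - x.1 - 1 by omega)) ?_ (SLe.refl _)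
      exact SLe.mul_nn (tp_nn _) (SLe.mul_nn (tp_nn _) (tp_nn _))
    · rintro ⟨y, z⟩ _
      exact SLe.mul_nn (tp_nn _) (SLe.mul_nn (SLe.C_nn (by linarith [an_ge (y.2 - 1)]))
        (SLe.mul_nn (tp_nn _) (tp_nn _)))
  have h2 : SLe (∑ y ∈ LS K' n, tp y.1 * (C (an (y.2 - 1)) * LP K' (y.2 - 1)))
      (∑ y ∈ LS K' n, tp y.1 * (C (B / 2) * tp y.2)) := by
    refine SLe.sum fun y hy => SLe.mul_left (tp_nn _) ?_
    simp only [LS, mem_filter, HasAntidiagonal.mem_antidiagonal] at hy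
    have h3 := nm3_half hB (m := y.2 - 1) (by omega)
    have e3 : y.2 - 1 + 1 = y.2 := by omega
    rw [e3] at h3
    exact h3
  have e3 : ∑ y ∈ LS K' n, tp y.1 * (C (B / 2) * tp y.2) = C (B / 2) * LP K' n := by
    rw [LP, mul_sum]
    refine sum_congr rfl fun y _ => ?_
    ring
  have h3 : SLe (C (B / 2) * LP K' n) (C (B / 4) * WP K' n) := by
    have h4 : SLe (C (B / 4) * (C 2 * LP K' n)) (C (B / 4) * WP K' n) :=
      SLe.C_mul_left (by linarith) (LP_le_WP K' n)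
    have e4 : C (B / 4) * (C 2 * LP K' n) = C (B / 2) * LP K' n := by
      rw [← mul_assoc, ← map_mul]
      congr 2
      ring
    rw [e4] at h4
    exact h4
  rw [e3] at h2
  exact (h1.trans h2).trans h3

end SYS.RB
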