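import Pool.Agent.SYS.RB.NmI
import Pool.Agent.SYS.RB.NmII
import Pool.Agent.SYS.RB.NmIII

/-!
# SYS-RB-Nm: no mass is lost in the recursion GJ, uniformly in the genus

PROOF.
* `nm_step`: write `tp p.1` (`p ∈ HS K n`, `p.1 ≥ K ≥ 2`) by `gj_series` at `p.1 - 1`:
  `tp p.1 = C (an i) * (C (i (3i-2)) * X * tp (i-1) + (SP i - WP K' i) + WP K' i)`, `i = p.1 - 1`; so `HP K n` is the sum of the three sums of
  `nm_I`, `nm_II`, `nm_III` (with `NM (K-2) N A`, `NM (K-K') N A` from `NM.mono`).  With `WP_le_HP`: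
  `WP K n ≤ C (A/4) * H + C A * (SP n - WP K' n) + C (B/2) * WP K' n`, `H = C (n (3n-2)) * X * tp (n-1)`, `H ≥ 0`.  As `A/4 ≤ A` and
  `C (an n) * (H + SP n) = tp (n+1)` (`gj_series`): `C (an n) * WP K n ≤ C A * tp (n+1) - C (A - B/2) * C (an n) * WP K' n`; coefficient `g`.
* `nm_one`: `NM 0 0 1`: `WP 0 n ≤ SP n` and `gj_series` (first term `≥ 0`).
* `nm_inf`: let `M` be the infimum of the set of `c ≥ 0` with `∃ K N, NM K N c` (nonempty by `nm_one`).  Suppose `M > 0`.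
  Choose `K', N'` with `NM K' N' B`, `M ≤ B ≤ (3/2) M`; `K0, N0` with `NM K0 N0 A`, `M ≤ A ≤ M + M²/16` (elements of the set near the infimum;
  `M ≤ 1`).  `K := K0 + 2 K' + 2`, `n ≥ N1 := max ..`.  For all `n ≥ N1`, `g`, with `w = an n * WW K n g`, `w' = an n * WW K' n g ≥ w`
  (`WP_mono`), `t = tt (n+1) g ≥ 0`: if `w' ≤ (M/2) t` then `w ≤ (M/2) t`; otherwise `nm_step` gives
  `w ≤ A t - (A - B/2) w' ≤ (M + M²/16) t - (M/4)(M/2) t = (M - M²/16) t`.  So `NM K N1 (max (M/2) (M - M²/16))`, and this number is `≥ 0` and `< M`: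
  contradiction.  So `M = 0` and for every `ε > 0` there are `K, N` and `c < ε` with `NM K N c`.
* `no_mass`: coefficient `g` of `NM`, `an n ≥ 1`.
-/

namespace SYS.RB

open Finset PowerSeries

private theorem H_nn (n g : ℕ) : 0 ≤ coeff g (C ((n : ℝ) * (3 * n - 2)) * X * tp (n - 1)) := by
  have h0 : 0 ≤ (n : ℝ) * (3 * n - 2) := by
    rcases Nat.eq_zero_or_pos n with h | h
    · rw [h, Nat.cast_zero, zero_mul]
    · have h1 : (1 : ℝ) ≤ n := by exact_mod_cast h
      exact mul_nonneg (by linarith) (by linarith)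
  have h := SLe.mul_nn (SLe.mul_nn (SLe.C_nn h0) SLe.X_nn) (tp_nn (n - 1)) g
  rw [map_zero] at h
  exact h

private theorem an_nn (n : ℕ) : 0 ≤ an n := by
  have := an_ge n
  linarith

private theorem WW_nn (K n g : ℕ) : 0 ≤ WW K n g := by
  have h := WP_nn K n g
  rw [map_zero, coeff_WP] at h
  exact h

private theorem tt_coeff (h : GJ) (n g : ℕ) : tt (n + 1) g =
    an n * (coeff g (C ((n : ℝ) * (3 * n - 2)) * X * tp (n - 1)) + coeff g (SP n)) := by
  have h1 := congrArg (coeff g) (gj_series h n)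
  rw [coeff_tp, coeff_C_mul, map_add] at h1
  exact h1

theorem nm_step (h : GJ) {K K' K0 N N' n : ℕ} {A B : ℝ} (hA0 : 0 ≤ A) (hB0 : 0 ≤ B)
    (hA : NM K0 N A) (hB : NM K' N' B) (hK : K0 + 2 * K' + 2 ≤ K) (h1 : N + K' + 2 ≤ n)
    (h2 : 2 * N' + 2 ≤ n) (h3 : 2 * K ≤ n) (g : ℕ) :
    an n * WW K n g ≤ A * tt (n + 1) g - (A - B / 2) * (an n * WW K' n g) := by
  have hI := nm_I (K := K) (N := N) (n := n) (A := A) (by omega) (by omega) hA0
    (NM.mono (by omega) le_rfl le_rfl hA) g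
  have hII := nm_II (K := K) (K' := K') (N := N) (n := n) (A := A) (by omega) (by omega) (by omega) hA0
    (NM.mono (by omega) le_rfl le_rfl hA) g
  have hIII := nm_III (K := K) (K' := K') (N := N') (n := n) (B := B) (by omega) (by omega) hB0 hB g
  have hH : HP K n =
      (∑ p ∈ HS K n, C (an (p.1 - 1)) * (C (((p.1 - 1 : ℕ) : ℝ) * (3 * ((p.1 - 1 : ℕ) : ℝ) - 2)) *
        X * tp (p.1 - 1 - 1)) * tp p.2) +
      (∑ p ∈ HS K n, C (an (p.1 - 1)) * (SP (p.1 - 1) - WP K' (p.1 - 1)) * tp p.2) +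
      (∑ p ∈ HS K n, C (an (p.1 - 1)) * WP K' (p.1 - 1) * tp p.2) := by
    rw [HP, ← Finset.sum_add_distrib, ← Finset.sum_add_distrib]
    refine Finset.sum_congr rfl fun p hp => ?_
    have hp1 : K ≤ p.1 := (Finset.mem_filter.1 hp).2.1
    have e : p.1 - 1 + 1 = p.1 := by omega
    have h4 := gj_series h (p.1 - 1)
    rw [e] at h4
    rw [h4]
    ring
  have h5 := WP_le_HP K n g
  rw [coeff_WP, coeff_C_mul, hH, map_add, map_add] at h5
  rw [coeff_C_mul] at hI hII hIII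
  rw [map_sub, coeff_WP] at hII
  rw [coeff_WP] at hIII
  have h6 := tt_coeff h n g
  have h7 := H_nn n g
  have h8 := an_nn n
  have h9 : WW K n g ≤ 2 * (A / 8 * coeff g (C ((n : ℝ) * (3 * n - 2)) * X * tp (n - 1)) +
      A / 2 * (coeff g (SP n) - WW K' n g) + B / 4 * WW K' n g) := by
    linarith
  have h10 := mul_le_mul_of_nonneg_left h9 h8
  have h11 : 0 ≤ A * (an n * coeff g (C ((n : ℝ) * (3 * n - 2)) * X * tp (n - 1))) :=
    mul_nonneg hA0 (mul_nonneg h8 h7)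
  rw [h6]
  linarith

theorem nm_one (h : GJ) : NM 0 0 1 := by
  intro n _ g
  rw [coeff_C_mul, coeff_C_mul, coeff_WP, coeff_tp, one_mul, tt_coeff h n g]
  refine mul_le_mul_of_nonneg_left ?_ (an_nn n)
  have h1 := WP_le_SP 0 n g
  rw [coeff_WP] at h1
  have h2 := H_nn n g
  linarith

theorem nm_inf (h : GJ) : ∀ ε : ℝ, 0 < ε → ∃ (K N : ℕ), NM K N ε := by
  set S : Set ℝ := {c | 0 ≤ c ∧ ∃ K N : ℕ, NM K N c} with hS
  have hne : (1 : ℝ) ∈ S := ⟨zero_le_one, 0, 0, nm_one h⟩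
  have hbd : BddBelow S := ⟨0, fun c hc => hc.1⟩
  have hM0 : 0 ≤ sInf S := le_csInf ⟨1, hne⟩ fun c hc => hc.1
  have hM1 : sInf S ≤ 1 := csInf_le hbd hne
  rcases hM0.eq_or_lt with hM | hM
  · intro ε hε
    rw [hM] at hε
    obtain ⟨c, hc, hcε⟩ := exists_lt_of_csInf_lt ⟨1, hne⟩ hε
    obtain ⟨_, K, N, hKN⟩ := hc
    exact ⟨K, N, NM.mono le_rfl le_rfl hcε.le hKN⟩
  · exfalso
    set M := sInf S with hMd
    obtain ⟨B, hB, hBM⟩ := exists_lt_of_csInf_lt (s := S) (b := 3 / 2 * M) ⟨1, hne⟩ (by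
      rw [← hMd]
      linarith)
    obtain ⟨A, hA, hAM⟩ := exists_lt_of_csInf_lt (s := S) (b := M + M ^ 2 / 16) ⟨1, hne⟩ (by
      rw [← hMd]
      have : 0 < M ^ 2 := by positivity
      linarith)
    have hBge : M ≤ B := csInf_le hbd hB
    have hAge : M ≤ A := csInf_le hbd hA
    obtain ⟨hB0, K', N', hB'⟩ := hB
    obtain ⟨hA0, K0, N, hA'⟩ := hA
    have hnew : NM (K0 + 2 * K' + 2) (max (N + K' + 2) (max (2 * N' + 2) (2 * (K0 + 2 * K' + 2))))
        (max (M / 2) (M - M ^ 2 / 16)) := by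
      intro n hn g
      have hn1 : N + K' + 2 ≤ n := le_trans (le_max_left _ _) hn
      have hn2 : 2 * N' + 2 ≤ n := le_trans (le_trans (le_max_left _ _) (le_max_right _ _)) hn
      have hn3 : 2 * (K0 + 2 * K' + 2) ≤ n :=
        le_trans (le_trans (le_max_right _ _) (le_max_right _ _)) hn
      have hs := nm_step h (K := K0 + 2 * K' + 2) hA0 hB0 hA' hB' le_rfl hn1 hn2 hn3 g
      rw [coeff_C_mul, coeff_C_mul, coeff_WP, coeff_tp]
      have hww := WP_mono (K := K0 + 2 * K' + 2) (K' := K') (by omega) n g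
      rw [coeff_WP, coeff_WP] at hww
      have ht := tt_nn (n + 1) g
      have hw' := mul_le_mul_of_nonneg_left hww (an_nn n)
      have hw0 : 0 ≤ an n * WW K' n g := mul_nonneg (an_nn n) (WW_nn _ _ _)
      rcases le_total (an n * WW K' n g) (M / 2 * tt (n + 1) g) with hc | hc
      · exact le_trans (le_trans hw' hc) (mul_le_mul_of_nonneg_right (le_max_left _ _) ht)
      · refine le_trans ?_ (mul_le_mul_of_nonneg_right (le_max_right (M / 2) (M - M ^ 2 / 16)) ht)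
        have h1 : M / 4 * (an n * WW K' n g) ≤ (A - B / 2) * (an n * WW K' n g) :=
          mul_le_mul_of_nonneg_right (by linarith) hw0
        have h2 : M / 4 * (M / 2 * tt (n + 1) g) ≤ M / 4 * (an n * WW K' n g) :=
          mul_le_mul_of_nonneg_left hc (by linarith)
        have h3 : A * tt (n + 1) g ≤ (M + M ^ 2 / 16) * tt (n + 1) g :=
          mul_le_mul_of_nonneg_right hAM.le ht
        have h4 : M / 4 * (M / 2 * tt (n + 1) g) = M ^ 2 / 8 * tt (n + 1) g := by ring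
        have h5 : (M + M ^ 2 / 16) * tt (n + 1) g - M ^ 2 / 8 * tt (n + 1) g =
            (M - M ^ 2 / 16) * tt (n + 1) g := by ring
        linarith
    have hmem : max (M / 2) (M - M ^ 2 / 16) ∈ S :=
      ⟨le_trans (by linarith) (le_max_left _ _), _, _, hnew⟩
    have hle : M ≤ max (M / 2) (M - M ^ 2 / 16) := csInf_le hbd hmem
    have hlt : max (M / 2) (M - M ^ 2 / 16) < M := by
      have : 0 < M ^ 2 := by positivity
      exact max_lt (by linarith) (by linarith)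
    linarith

theorem no_mass (h : GJ) : ∀ ε : ℝ, 0 < ε → ∃ K N : ℕ, ∀ n ≥ N, ∀ g, WW K n g ≤ ε * tt (n + 1) g := by
  intro ε hε
  obtain ⟨K, N, hKN⟩ := nm_inf h ε hε
  refine ⟨K, N, fun n hn g => ?_⟩
  have h1 := hKN n hn g
  rw [coeff_C_mul, coeff_C_mul, coeff_WP, coeff_tp] at h1
  have h2 := an_ge n
  have h3 := WW_nn K n g
  have h4 : 1 * WW K n g ≤ an n * WW K n g := mul_le_mul_of_nonneg_right (by linarith) h3
  linarith

end SYS.RB
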