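import Pool.Agent.SYS.RB.GlA
import Pool.Agent.SYS.RB.Nm

/-!
# SYS-RB-GlB: the limit of GJ along an ultrafilter with constant ratio
-/

namespace SYS.RB

open Filter Topology Finset

private theorem glb_split {K n : ℕ} (h : 2 * K ≤ n) (g : ℕ) :
    ∑ p ∈ antidiagonal n, ∑ q ∈ antidiagonal g, tt p.1 q.1 * tt p.2 q.2 =
      2 * (∑ i ∈ range K, ∑ s ∈ antidiagonal g, tt i s.1 * tt (n - i) s.2) + WW K n g := by
  rw [← coeff_SP, SP_split h, map_add, coeff_WP, PowerSeries.coeff_C_mul, map_sum]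
  congr 2
  refine Finset.sum_congr rfl fun i _ => ?_
  rw [PowerSeries.coeff_mul]
  refine Finset.sum_congr rfl fun s _ => ?_
  rw [coeff_tp, coeff_tp]

private theorem glb_id (hG : GJ) {K m g : ℕ} (hm : 2 * K + 1 ≤ m) (ht : 0 < tt m g) :
    1 - (an (m - 1) * (((m - 1 : ℕ) : ℝ) * (3 * ((m - 1 : ℕ) : ℝ) - 2) *
      (if g = 0 then 0 else tt (m - 1 - 1) (g - 1))) / tt m g + an (m - 1) *
      (2 * ∑ i ∈ range K, (∑ s ∈ antidiagonal g, tt i s.1 * tt (m - 1 - i) s.2) / tt m g)) =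
      an (m - 1) * WW K (m - 1) g / tt m g := by
  obtain ⟨n, rfl⟩ : ∃ n, m = n + 1 := ⟨m - 1, by omega⟩
  rw [Nat.add_sub_cancel] at *
  have h1 := gj_an hG n g
  rw [glb_split (K := K) (by omega) g] at h1
  rw [← Finset.sum_div]
  generalize (if g = 0 then (0 : ℝ) else tt (n - 1) (g - 1)) = a at h1 ⊢
  generalize (∑ i ∈ range K, ∑ s ∈ antidiagonal g, tt i s.1 * tt (n - i) s.2) = b at h1 ⊢
  generalize WW K n g = c at h1 ⊢
  generalize tt (n + 1) g = t at h1 ht ⊢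
  have ht0 : t ≠ 0 := ht.ne'
  field_simp
  linarith

private theorem glb_WW (K n g : ℕ) : 0 ≤ WW K n g := by
  unfold WW
  exact Finset.sum_nonneg fun p _ => Finset.sum_nonneg fun q _ => mul_nonneg (tt_nn _ _) (tt_nn _ _)

private theorem glb_mono {K K' : ℕ} (h : K' ≤ K) (n g : ℕ) : WW K n g ≤ WW K' n g := by
  rw [← coeff_WP, ← coeff_WP]
  exact WP_mono h n g

theorem gjl (hG : GJ) {θ : ℝ} (h : 0 < θ) (h' : θ < 1 / 2) {U : Ultrafilter (ℕ × ℕ)} (hU : Adm θ U)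
    {r q : ℝ} (hr : ∀ a : ℕ, IsR (SH (-(a : ℤ)) 0 U) r) (hq : IsQ (SH (-2) 0 U) q) :
    Summable (fun i => tt i 0 * r ^ i) ∧ 24 * r * GG r + 36 * q * r ^ 2 = 1 := by
  have hr0 : 0 < r := by
    have h1 := hr 0
    rw [Nat.cast_zero, neg_zero, SH_zero] at h1
    exact rpos_of_isR hG h h' hU h1
  have hH := handle_lim h h' hU hr hq
  have hP := fun i => pair_lim hG h h' hU hr i
  have hA : Tendsto (fun p : ℕ × ℕ => an (p.1 - 1)) (U : Filter (ℕ × ℕ)) (𝓝 12) :=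
    (an_lim θ).mono_left hU
  have hW : ∀ K : ℕ, Tendsto (fun p : ℕ × ℕ => an (p.1 - 1) * WW K (p.1 - 1) p.2 / tt p.1 p.2)
      (U : Filter (ℕ × ℕ))
      (𝓝 (1 - (36 * q * r ^ 2 + 12 * (2 * ∑ i ∈ range K, tt i 0 * r ^ (i + 1))))) := by
    intro K
    have h1 := tendsto_const_nhds (x := (1 : ℝ)) (f := (U : Filter (ℕ × ℕ))) |>.sub
      (hH.add (hA.mul ((tendsto_finsetSum (range K) fun i _ => hP i).const_mul 2)))
    refine h1.congr' ?_
    filter_upwards [(ev_pos h').filter_mono hU, (ge_ev θ (2 * K + 1)).filter_mono hU] with p hp hm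
    exact glb_id hG hm hp
  set A : ℝ := (1 - 36 * q * r ^ 2) / 24 with hAdef
  have hup : ∀ K : ℕ, ∑ i ∈ range K, tt i 0 * r ^ (i + 1) ≤ A := by
    intro K
    have h1 : 0 ≤ 1 - (36 * q * r ^ 2 + 12 * (2 * ∑ i ∈ range K, tt i 0 * r ^ (i + 1))) := by
      refine ge_of_tendsto' (hW K) fun p => ?_
      refine div_nonneg (mul_nonneg ?_ (glb_WW _ _ _)) (tt_nn _ _)
      have := an_ge (p.1 - 1)
      linarith
    rw [hAdef]
    linarith
  have hlow : ∀ ε : ℝ, 0 < ε → ∃ K0 : ℕ, ∀ K ≥ K0,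
      A - ε ≤ ∑ i ∈ range K, tt i 0 * r ^ (i + 1) := by
    intro ε hε
    obtain ⟨K0, N, hN⟩ := no_mass hG ε hε
    refine ⟨K0, fun K hK => ?_⟩
    have h1 : 1 - (36 * q * r ^ 2 + 12 * (2 * ∑ i ∈ range K, tt i 0 * r ^ (i + 1))) ≤ 12 * ε := by
      refine le_of_tendsto (hW K) ?_
      filter_upwards [(ev_pos h').filter_mono hU, (ge_ev θ (N + 1)).filter_mono hU] with p hp hm
      rw [div_le_iff₀ hp]
      have h2 := hN (p.1 - 1) (by omega) p.2
      have h3 := glb_mono hK (p.1 - 1) p.2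
      have h4 := an_lt (p.1 - 1)
      have h5 := an_ge (p.1 - 1)
      have h6 := glb_WW K (p.1 - 1) p.2
      have e1 : p.1 - 1 + 1 = p.1 := by omega
      rw [e1] at h2
      calc an (p.1 - 1) * WW K (p.1 - 1) p.2 ≤ 12 * WW K (p.1 - 1) p.2 :=
            mul_le_mul_of_nonneg_right h4.le h6
        _ ≤ 12 * (ε * tt p.1 p.2) := by linarith
        _ = 12 * ε * tt p.1 p.2 := by ring
    rw [hAdef]
    linarith
  have hlim : Tendsto (fun K => ∑ i ∈ range K, tt i 0 * r ^ (i + 1)) atTop (𝓝 A) := by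
    rw [Metric.tendsto_atTop]
    intro ε hε
    obtain ⟨K0, hK0⟩ := hlow (ε / 2) (by positivity)
    refine ⟨K0, fun K hK => ?_⟩
    have h1 := hK0 K hK
    have h2 := hup K
    rw [Real.dist_eq, abs_lt]
    constructor <;> linarith
  have hsum : HasSum (fun i => tt i 0 * r ^ (i + 1)) A :=
    (hasSum_iff_tendsto_nat_of_nonneg (fun i => mul_nonneg (tt_nn _ _) (by positivity)) A).2 hlim
  have hsum2 : HasSum (fun i => tt i 0 * r ^ i) (A / r) := by
    have e : (fun i => tt i 0 * r ^ i) = fun i => tt i 0 * r ^ (i + 1) / r := by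
      funext i
      rw [pow_succ, ← mul_assoc, mul_div_assoc, div_self hr0.ne', mul_one]
    rw [e]
    exact hsum.div_const r
  refine ⟨hsum2.summable, ?_⟩
  have h1 : GG r = A / r := hsum2.tsum_eq
  rw [h1, hAdef]
  field_simp
  ring

end SYS.RB
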