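import Pool.Agent.SYS.RB.Av

/-!
# SYS-RB-Mx: maximum and minimum principle

PROOF.  `w i l` by `exists_w` (and `0` for `l = 0`), `R i l` by `exists_isR` for `SH (1-i) (1-l) U` (`Adm_SH`).  Let `(i0, l0)` be given with
`c ≤ wt i0 l0 p` eventually, so `w i0 l0 ≥ c > 0` (`ge_of_tendsto`).
Max: all `R i l ≤ r`.  For every `ε > 0` and large `K > i0`, `L ≥ l0` (`aver_ge`, `sum_le_one`):
`(1-ε) r ≤ ∑∑ w R = ∑∑ w r - ∑∑ w (r - R) ≤ r - w i0 l0 (r - R i0 l0)`, so `w i0 l0 (r - R i0 l0) ≤ ε r`; `ε → 0`: `R i0 l0 = r`.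
Min: all `R i l ≥ r`: `r ≥ ∑∑ w R ≥ r ∑∑ w + w i0 l0 (R i0 l0 - r) ≥ (1-ε) r + w i0 l0 (R i0 l0 - r)` (`aver_le`, `sum_ge`).
`r > 0` by `rpos_of_isR`.
-/

namespace SYS.RB

open Filter Topology Finset

private theorem mx_setup (hG : GJ) (hT : TODA) {θ : ℝ} (h : 0 < θ) (h' : θ < 1 / 2)
    {U : Ultrafilter (ℕ × ℕ)} (hU : Adm θ U) {i0 l0 : ℕ} (hl0 : 1 ≤ l0) {c : ℝ} (hc : 0 < c)
    (hcw : ∀ᶠ p in (U : Filter (ℕ × ℕ)), c ≤ wt i0 l0 p) :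
    ∃ w R : ℕ → ℕ → ℝ, (∀ i l, 0 ≤ w i l) ∧ 0 < w i0 l0 ∧
      (∀ i l, 1 ≤ l → Tendsto (wt i l) (U : Filter (ℕ × ℕ)) (𝓝 (w i l))) ∧
      (∀ i l : ℕ, 1 ≤ l → IsR (SH (1 - (i : ℤ)) (1 - (l : ℤ)) U) (R i l)) := by
  have h1 : ∀ i l : ℕ, ∃ w : ℝ, 0 ≤ w ∧
      (1 ≤ l → Tendsto (wt i l) (U : Filter (ℕ × ℕ)) (𝓝 w)) := by
    intro i l
    by_cases hl : 1 ≤ l
    · obtain ⟨w, hw, hw'⟩ := exists_w hT h h' hU (i := i) hl
      exact ⟨w, hw, fun _ => hw'⟩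
    · exact ⟨0, le_rfl, fun h2 => absurd h2 hl⟩
  choose w hw hw' using h1
  have h2 : ∀ i l : ℕ, ∃ r : ℝ, IsR (SH (1 - (i : ℤ)) (1 - (l : ℤ)) U) r := fun i l =>
    exists_isR hG h h' (Adm_SH h hU _ _)
  choose R hR using h2
  refine ⟨w, R, hw, ?_, fun i l hl => hw' i l hl, fun i l _ => hR i l⟩
  exact lt_of_lt_of_le hc (ge_of_tendsto (hw' i0 l0 hl0) hcw)

private theorem mx_le {K L i0 l0 : ℕ} {f : ℕ → ℕ → ℝ} (hf : ∀ i l, 1 ≤ l → 0 ≤ f i l)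
    (hi : i0 < K) (hl : 1 ≤ l0) (hl' : l0 ≤ L) :
    f i0 l0 ≤ ∑ i ∈ range K, ∑ l ∈ Icc 1 L, f i l := by
  have h1 : f i0 l0 ≤ ∑ l ∈ Icc 1 L, f i0 l :=
    Finset.single_le_sum (f := fun l => f i0 l) (fun l hl => hf i0 l (Finset.mem_Icc.1 hl).1)
      (Finset.mem_Icc.2 ⟨hl, hl'⟩)
  refine h1.trans ?_
  exact Finset.single_le_sum (f := fun i => ∑ l ∈ Icc 1 L, f i l)
    (fun i _ => Finset.sum_nonneg fun l hl => hf i l (Finset.mem_Icc.1 hl).1)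
    (Finset.mem_range.2 hi)

theorem mp_max (hG : GJ) (hT : TODA) {θ : ℝ} (h : 0 < θ) (h' : θ < 1 / 2) {r : ℝ}
    (hr : ∀ (U : Ultrafilter (ℕ × ℕ)) (r' : ℝ), Adm θ U → IsR U r' → r' ≤ r) : MP θ r := by
  intro U hU hUr i0 l0 hl0 ⟨c, hc, hcw⟩
  obtain ⟨w, R, hw, hw0, hwl, hR⟩ := mx_setup hG hT h h' hU hl0 hc hcw
  have hrpos : 0 < r := rpos_of_isR hG h h' hU hUr
  have hRr : ∀ i l, 1 ≤ l → R i l ≤ r := fun i l hl => hr _ _ (Adm_SH h hU _ _) (hR i l hl)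
  have key : ∀ ε : ℝ, 0 < ε → w i0 l0 * (r - R i0 l0) ≤ ε * r := by
    intro ε hε
    obtain ⟨K0, L0, h0⟩ := aver_ge hG hT h h' hU hUr hwl hR hε
    have h1 := h0 (max K0 (i0 + 1)) (le_max_left _ _) (max L0 l0) (le_max_left _ _)
    have h2 := sum_le_one hT h h' hU hwl (max K0 (i0 + 1)) (max L0 l0)
    have h3 := mx_le (K := max K0 (i0 + 1)) (L := max L0 l0) (i0 := i0) (l0 := l0)
      (f := fun i l => w i l * (r - R i l))
      (fun i l hl => mul_nonneg (hw i l) (sub_nonneg.2 (hRr i l hl)))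
      (lt_of_lt_of_le (Nat.lt_succ_self i0) (le_max_right _ _)) hl0 (le_max_right _ _)
    have h4 : ∑ i ∈ range (max K0 (i0 + 1)), ∑ l ∈ Icc 1 (max L0 l0), w i l * (r - R i l) =
        r * ∑ i ∈ range (max K0 (i0 + 1)), ∑ l ∈ Icc 1 (max L0 l0), w i l -
        ∑ i ∈ range (max K0 (i0 + 1)), ∑ l ∈ Icc 1 (max L0 l0), w i l * R i l := by
      simp only [Finset.mul_sum, ← Finset.sum_sub_distrib]
      refine Finset.sum_congr rfl fun i _ => Finset.sum_congr rfl fun l _ => ?_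
      ring
    rw [h4] at h3
    have h5 := mul_le_mul_of_nonneg_left h2 hrpos.le
    linarith
  have h6 : w i0 l0 * (r - R i0 l0) ≤ 0 := by
    refine le_of_forall_pos_le_add fun δ hδ => ?_
    have h7 := key (δ / r) (div_pos hδ hrpos)
    rw [div_mul_cancel₀ _ hrpos.ne'] at h7
    linarith
  have h8 : r - R i0 l0 ≤ 0 := by
    by_contra hcon
    exact absurd h6 (not_le.2 (mul_pos hw0 (not_le.1 hcon)))
  have h9 : R i0 l0 = r := le_antisymm (hRr i0 l0 hl0) (by linarith)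
  rw [← h9]
  exact hR i0 l0 hl0

theorem mp_min (hG : GJ) (hT : TODA) {θ : ℝ} (h : 0 < θ) (h' : θ < 1 / 2) {r : ℝ}
    (hr : ∀ (U : Ultrafilter (ℕ × ℕ)) (r' : ℝ), Adm θ U → IsR U r' → r ≤ r') : MP θ r := by
  intro U hU hUr i0 l0 hl0 ⟨c, hc, hcw⟩
  obtain ⟨w, R, hw, hw0, hwl, hR⟩ := mx_setup hG hT h h' hU hl0 hc hcw
  have hrpos : 0 < r := rpos_of_isR hG h h' hU hUr
  have hRr : ∀ i l, 1 ≤ l → r ≤ R i l := fun i l hl => hr _ _ (Adm_SH h hU _ _) (hR i l hl)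
  have key : ∀ ε : ℝ, 0 < ε → w i0 l0 * (R i0 l0 - r) ≤ ε * r := by
    intro ε hε
    obtain ⟨K0, L0, h0⟩ := sum_ge hG hT h h' hU hwl hε
    have h1 := h0 (max K0 (i0 + 1)) (le_max_left _ _) (max L0 l0) (le_max_left _ _)
    have h2 := aver_le hT h h' hU hUr hwl hR (max K0 (i0 + 1)) (max L0 l0)
    have h3 := mx_le (K := max K0 (i0 + 1)) (L := max L0 l0) (i0 := i0) (l0 := l0)
      (f := fun i l => w i l * (R i l - r))
      (fun i l hl => mul_nonneg (hw i l) (sub_nonneg.2 (hRr i l hl)))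
      (lt_of_lt_of_le (Nat.lt_succ_self i0) (le_max_right _ _)) hl0 (le_max_right _ _)
    have h4 : ∑ i ∈ range (max K0 (i0 + 1)), ∑ l ∈ Icc 1 (max L0 l0), w i l * (R i l - r) =
        ∑ i ∈ range (max K0 (i0 + 1)), ∑ l ∈ Icc 1 (max L0 l0), w i l * R i l -
        r * ∑ i ∈ range (max K0 (i0 + 1)), ∑ l ∈ Icc 1 (max L0 l0), w i l := by
      simp only [Finset.mul_sum, ← Finset.sum_sub_distrib]
      refine Finset.sum_congr rfl fun i _ => Finset.sum_congr rfl fun l _ => ?_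
      ring
    rw [h4] at h3
    have h5 := mul_le_mul_of_nonneg_left h1 hrpos.le
    linarith
  have h6 : w i0 l0 * (R i0 l0 - r) ≤ 0 := by
    refine le_of_forall_pos_le_add fun δ hδ => ?_
    have h7 := key (δ / r) (div_pos hδ hrpos)
    rw [div_mul_cancel₀ _ hrpos.ne'] at h7
    linarith
  have h8 : R i0 l0 - r ≤ 0 := by
    by_contra hcon
    exact absurd h6 (not_le.2 (mul_pos hw0 (not_le.1 hcon)))
  have h9 : R i0 l0 = r := le_antisymm (by linarith) (hRr i0 l0 hl0)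
  rw [← h9]
  exact hR i0 l0 hl0

end SYS.RB
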