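import Pool.Agent.SYS.RB.Sym
import Pool.Agent.SYS.RB.Cr

/-!
# SYS-RB-NmI: first part of the expansion (handle term)

`p ∈ HS K n`: `K ≤ p.1 ≤ p.2`, `p.1 + p.2 = n`; put `i = p.1 - 1` (so `i ≤ n/2 - 1`, `i ≥ 1`).
PROOF.  `an i * (i (3i-2)) ≤ an (n-2) * (n (3n-2)/4)`: `an_mono` (`i ≤ n - 2`) and `i (3i-2) ≤ (n/2) (3n/2 - 2) ≤ n (3n-2)/4` (real numbers,
`2 (i+1) ≤ n`, `1 ≤ i`, so `3 i - 2 ≥ 0`).  So the sum is `≤ C (an (n-2) * (n (3n-2)/4)) * X * ∑_{p ∈ HS K n} tp (p.1 - 2) * tp p.2`, and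
`p ↦ (p.1 - 2, p.2)` is injective from `HS K n` (`K ≥ 2`) into `LS (K-2) (n-2)` (`p.1 - 2 < p.2`): the last sum is `≤ LP (K-2) (n-2)`
(`Finset.sum_image`, `SLe.sum_subset`), and `C 2 * LP ≤ WP` (`LP_le_WP`).  Finally `C (an (n-2)) * WP (K-2) (n-2) ≤ C A * tp (n-1)` by `hA` at `n - 2`.
The factor: `n (3n-2)/4 * (1/2) = n (3n-2)/8`.
(If `HS K n` is empty the left side is `0` and the right side is nonnegative, `A ≥ 0`; it is not necessary to distinguish.)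
-/

namespace SYS.RB

open Finset PowerSeries

private theorem nmI_fac {n i : ℕ} (hi : 1 ≤ i) (hin : 2 * (i + 1) ≤ n) :
    0 ≤ an i * ((i : ℝ) * (3 * (i : ℝ) - 2)) ∧
      an i * ((i : ℝ) * (3 * (i : ℝ) - 2)) ≤ an (n - 2) * ((n : ℝ) * (3 * n - 2) / 4) := by
  have h1 : (1 : ℝ) ≤ i := by exact_mod_cast hi
  have h2 : 2 * ((i : ℝ) + 1) ≤ n := by exact_mod_cast hin
  have h3 : 0 ≤ (i : ℝ) * (3 * (i : ℝ) - 2) := mul_nonneg (by linarith) (by linarith)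
  have h4 : (i : ℝ) * (3 * (i : ℝ) - 2) ≤ (n : ℝ) * (3 * n - 2) / 4 := by nlinarith
  have h5 : an i ≤ an (n - 2) := an_mono (by omega)
  have h6 := an_ge i
  refine ⟨mul_nonneg (by linarith) h3, ?_⟩
  exact mul_le_mul h5 h4 h3 (by linarith)

private theorem nmI_img {K n : ℕ} (hK : 2 ≤ K) :
    SLe (∑ p ∈ HS K n, tp (p.1 - 1 - 1) * tp p.2) (LP (K - 2) (n - 2)) := by
  classical
  have hinj : Set.InjOn (fun p : ℕ × ℕ => (p.1 - 1 - 1, p.2)) (HS K n : Set (ℕ × ℕ)) := by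
    intro p hp q hq hpq
    have hp' := Finset.mem_coe.mp hp
    have hq' := Finset.mem_coe.mp hq
    simp only [HS, Finset.mem_filter] at hp' hq'
    simp only [Prod.mk.injEq] at hpq
    ext
    · omega
    · exact hpq.2
  have h1 : ∑ p ∈ HS K n, tp (p.1 - 1 - 1) * tp p.2 =
      ∑ q ∈ (HS K n).image (fun p : ℕ × ℕ => (p.1 - 1 - 1, p.2)), tp q.1 * tp q.2 := by
    rw [Finset.sum_image hinj]
  rw [h1]
  unfold LP
  refine SLe.sum_subset ?_ (fun q _ => SLe.mul_nn (tp_nn _) (tp_nn _))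
  intro q hq
  obtain ⟨p, hp, rfl⟩ := Finset.mem_image.mp hq
  simp only [HS, Finset.mem_filter, Finset.HasAntidiagonal.mem_antidiagonal] at hp
  simp only [LS, Finset.mem_filter, Finset.HasAntidiagonal.mem_antidiagonal]
  omega

theorem nm_I {K N n : ℕ} {A : ℝ} (hK : 2 ≤ K) (hn : N + 2 ≤ n) (hA0 : 0 ≤ A)
    (hA : NM (K - 2) N A) :
    SLe (∑ p ∈ HS K n, C (an (p.1 - 1)) * (C (((p.1 - 1 : ℕ) : ℝ) * (3 * ((p.1 - 1 : ℕ) : ℝ) - 2)) *
        X * tp (p.1 - 1 - 1)) * tp p.2)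
      (C (A / 8) * (C ((n : ℝ) * (3 * n - 2)) * X * tp (n - 1))) := by
  have hn2 : (2 : ℝ) ≤ n := by exact_mod_cast (by omega : 2 ≤ n)
  have hc0 : 0 ≤ (n : ℝ) * (3 * n - 2) / 8 := by
    apply div_nonneg _ (by norm_num)
    exact mul_nonneg (by linarith) (by linarith)
  have h1 : SLe (∑ p ∈ HS K n, C (an (p.1 - 1)) *
      (C (((p.1 - 1 : ℕ) : ℝ) * (3 * ((p.1 - 1 : ℕ) : ℝ) - 2)) * X * tp (p.1 - 1 - 1)) * tp p.2)
      (∑ p ∈ HS K n, C (an (n - 2) * ((n : ℝ) * (3 * n - 2) / 4)) *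
        (X * (tp (p.1 - 1 - 1) * tp p.2))) := by
    refine SLe.sum fun p hp => ?_
    simp only [HS, Finset.mem_filter, Finset.HasAntidiagonal.mem_antidiagonal] at hp
    have h2 := nmI_fac (n := n) (i := p.1 - 1) (by omega) (by omega)
    have h3 : C (an (p.1 - 1)) *
        (C (((p.1 - 1 : ℕ) : ℝ) * (3 * ((p.1 - 1 : ℕ) : ℝ) - 2)) * X * tp (p.1 - 1 - 1)) * tp p.2 =
        C (an (p.1 - 1) * (((p.1 - 1 : ℕ) : ℝ) * (3 * ((p.1 - 1 : ℕ) : ℝ) - 2))) *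
          (X * (tp (p.1 - 1 - 1) * tp p.2)) := by
      rw [map_mul C (an (p.1 - 1)) (((p.1 - 1 : ℕ) : ℝ) * (3 * ((p.1 - 1 : ℕ) : ℝ) - 2))]
      ring
    rw [h3]
    exact SLe.C_mul h2.1 h2.2 (SLe.mul_nn SLe.X_nn (SLe.mul_nn (tp_nn _) (tp_nn _))) (SLe.refl _)
  refine h1.trans ?_
  rw [← Finset.mul_sum, ← Finset.mul_sum]
  have h4 : (C (an (n - 2) * ((n : ℝ) * (3 * n - 2) / 4)) : PowerSeries ℝ) =
      C ((n : ℝ) * (3 * n - 2) / 8) * (C (an (n - 2)) * C 2) := by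
    rw [← map_mul, ← map_mul]
    congr 1
    ring
  have h5 : C (an (n - 2) * ((n : ℝ) * (3 * n - 2) / 4)) *
      (X * ∑ p ∈ HS K n, tp (p.1 - 1 - 1) * tp p.2) =
      C ((n : ℝ) * (3 * n - 2) / 8) * (X * (C (an (n - 2)) *
        (C 2 * ∑ p ∈ HS K n, tp (p.1 - 1 - 1) * tp p.2))) := by
    rw [h4]; ring
  rw [h5]
  have h6 : C (A / 8) * (C ((n : ℝ) * (3 * n - 2)) * X * tp (n - 1)) =
      C ((n : ℝ) * (3 * n - 2) / 8) * (X * (C A * tp (n - 1))) := by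
    have h7 : (C (A / 8) * C ((n : ℝ) * (3 * n - 2)) : PowerSeries ℝ) =
        C ((n : ℝ) * (3 * n - 2) / 8) * C A := by
      rw [← map_mul, ← map_mul]
      congr 1
      ring
    calc C (A / 8) * (C ((n : ℝ) * (3 * n - 2)) * X * tp (n - 1)) =
        (C (A / 8) * C ((n : ℝ) * (3 * n - 2))) * (X * tp (n - 1)) := by ring
      _ = (C ((n : ℝ) * (3 * n - 2) / 8) * C A) * (X * tp (n - 1)) := by rw [h7]
      _ = _ := by ring
  rw [h6]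
  have h8 : SLe (C (an (n - 2)) * (C 2 * ∑ p ∈ HS K n, tp (p.1 - 1 - 1) * tp p.2))
      (C A * tp (n - 1)) := by
    have h9 : SLe (C 2 * ∑ p ∈ HS K n, tp (p.1 - 1 - 1) * tp p.2) (WP (K - 2) (n - 2)) :=
      (SLe.C_mul_left (by norm_num) (nmI_img hK)).trans (LP_le_WP _ _)
    have h10 := hA (n - 2) (by omega)
    have h11 : n - 2 + 1 = n - 1 := by omega
    rw [h11] at h10
    refine SLe.trans (SLe.C_mul_left ?_ h9) h10
    have := an_ge (n - 2)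
    linarith
  exact SLe.C_mul_left hc0 (SLe.mul_left SLe.X_nn h8)

end SYS.RB
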