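import Pool.Agent.SYS.RB.Defs
import Pool.Agent.SST.T.Main
import Pool.Agent.SST.E.Pos

/-!
# SYS-RB-Pos: signs, closed forms
-/

namespace SYS.RB

open Filter Topology Finset

theorem nu_nn (n g : ℕ) : 0 ≤ SST.nu n g := by
  unfold SST.nu
  positivity

theorem nu_zero {n g : ℕ} (hn : 1 ≤ n) (hg : n + 1 < 2 * g) : SST.nu n g = 0 := by
  have h1 : SST.Trn n g = ∅ := by
    rw [Set.eq_empty_iff_forall_notMem]
    intro T hT
    have h2 : Nat.card T.V + 2 * g = n + 2 := hT.2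
    have hfin : Finite T.V := inferInstanceAs (Finite (Quotient _))
    have hne : Nonempty T.V := ⟨T.tl ⟨0, by omega⟩⟩
    have h3 : 0 < Nat.card T.V := Nat.card_pos
    omega
  unfold SST.nu
  rw [h1, Set.ncard_empty]
  simp

theorem hypOne : SST.HypOne := by
  intro n g hn
  exact SST.toda_one hn

theorem hypTwo : SST.HypTwo := by
  intro n g hn
  exact SST.toda_two hn

theorem tt_zero_zero : tt 0 0 = 1 / 2 := by
  show (if (0 : ℕ) = 0 then (1 / 2 : ℝ) else 0) = 1 / 2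
  rw [if_pos rfl]

theorem tt_one_zero : tt 1 0 = 2 := by
  show (if (0 : ℕ) = 0 then (2 : ℝ) else 0) = 2
  rw [if_pos rfl]

theorem tt_succ {n : ℕ} (hn : 1 ≤ n) (g : ℕ) :
    tt (n + 1) g = (3 * n + 2) * (6 * n) * SST.nu n g := by
  obtain ⟨m, rfl⟩ : ∃ m, n = m + 1 := ⟨n - 1, by omega⟩
  show (3 * ((m : ℝ) + 1) + 2) * (6 * ((m : ℝ) + 1)) * SST.nu (m + 1) g = _
  push_cast
  rfl

theorem tt_nn (m g : ℕ) : 0 ≤ tt m g := by
  rcases m with _ | _ | m
  · show 0 ≤ if g = 0 then (1 / 2 : ℝ) else 0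
    split_ifs <;> norm_num
  · show 0 ≤ if g = 0 then (2 : ℝ) else 0
    split_ifs <;> norm_num
  · show 0 ≤ (3 * ((m : ℝ) + 1) + 2) * (6 * ((m : ℝ) + 1)) * SST.nu (m + 1) g
    have h1 := nu_nn (m + 1) g
    positivity

theorem tt_pos {m g : ℕ} (h : 2 * g ≤ m) : 0 < tt m g := by
  rcases m with _ | _ | m
  · have hg : g = 0 := by omega
    rw [hg, tt_zero_zero]
    norm_num
  · have hg : g = 0 := by omega
    rw [hg, tt_one_zero]
    norm_num
  · show 0 < (3 * ((m : ℝ) + 1) + 2) * (6 * ((m : ℝ) + 1)) * SST.nu (m + 1) g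
    have h1 : 0 < SST.nu (m + 1) g := SST.nu_pos hypTwo (by omega) (by omega)
    positivity

theorem tt_eq_zero {m g : ℕ} (h : m < 2 * g) : tt m g = 0 := by
  rcases m with _ | _ | m
  · show (if g = 0 then (1 / 2 : ℝ) else 0) = 0
    rw [if_neg (by omega)]
  · show (if g = 0 then (2 : ℝ) else 0) = 0
    rw [if_neg (by omega)]
  · show (3 * ((m : ℝ) + 1) + 2) * (6 * ((m : ℝ) + 1)) * SST.nu (m + 1) g = 0
    rw [nu_zero (by omega) (by omega), mul_zero]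

theorem tau_eq {j : ℕ} (hj : 1 ≤ j) (h : ℕ) : 6 * (j : ℝ) * SST.nu j h = tt (j + 1) h / (3 * j + 2) := by
  have h1 : (3 * (j : ℝ) + 2) ≠ 0 := by positivity
  rw [tt_succ hj, eq_div_iff h1]
  ring

theorem cc_nn (j k : ℕ) : 0 ≤ cc j k := by
  unfold cc
  refine Finset.sum_nonneg fun h _ => ?_
  have h1 := nu_nn j h
  positivity

theorem cc_zero_left (k : ℕ) : cc 0 k = 0 := by
  simp [cc]

theorem cc_zero_right (j : ℕ) : cc j 0 = 0 := by
  simp [cc]

theorem Dt_nn (i l : ℕ) (p : ℕ × ℕ) : 0 ≤ Dt i l p := by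
  unfold Dt
  have h1 := nu_nn (p.1 - i) (p.2 + 1 - l)
  have h2 := tt_nn i 0
  positivity

theorem wt_nn (i l : ℕ) (p : ℕ × ℕ) : 0 ≤ wt i l p := by
  unfold wt
  have h1 := Dt_nn i l p
  have h2 := tt_nn p.1 p.2
  positivity

theorem rho_nn (p : ℕ × ℕ) : 0 ≤ rho p := by
  unfold rho
  exact div_nonneg (tt_nn _ _) (tt_nn _ _)

theorem kap_nn (p : ℕ × ℕ) : 0 ≤ kap p := by
  unfold kap
  exact div_nonneg (mul_nonneg (sq_nonneg _) (tt_nn _ _)) (tt_nn _ _)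

end SYS.RB
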