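import Pool.Agent.SYS.RB.Pos

/-!
# SYS-RB-Sle: coefficientwise order on power series; the series `tp`

PROOF.  Everything by `PowerSeries.coeff_mul` (`coeff n (f * g) = ∑ p ∈ antidiagonal n, ..`), `map_add`, `map_sum`, `coeff_C_mul`,
`mul_le_mul_of_nonneg`, `Finset.sum_le_sum`.  `SLe.mul_left` : `h * (g - f)` has nonnegative coefficients.
`coeff_WP`: `coeff_mul`, `coeff_mk`.  `gj_series` : `PowerSeries.ext`, `GJ` divided by `n + 1` (`an n = 4 (3n+2)/(n+1)`); the coefficient `g` of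
`X * tp (n-1)` is `0` for `g = 0` and `tt (n-1) (g-1)` otherwise (`coeff_zero_X_mul`, `coeff_succ_X_mul`).
-/

namespace SYS.RB

open Finset PowerSeries

private theorem sle_coeff_zero (k : ℕ) : coeff k (0 : PowerSeries ℝ) = 0 := by
  simp

theorem SLe.refl (f : PowerSeries ℝ) : SLe f f := fun _ => le_rfl

theorem SLe.trans {f g h : PowerSeries ℝ} (h1 : SLe f g) (h2 : SLe g h) : SLe f h :=
  fun k => (h1 k).trans (h2 k)

theorem SLe.add {f g f' g' : PowerSeries ℝ} (h1 : SLe f g) (h2 : SLe f' g') :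
    SLe (f + f') (g + g') := by
  intro k
  rw [map_add, map_add]
  exact add_le_add (h1 k) (h2 k)

theorem SLe.mul_left {f g h : PowerSeries ℝ} (h0 : SLe 0 h) (h1 : SLe f g) : SLe (h * f) (h * g) := by
  intro k
  rw [coeff_mul, coeff_mul]
  refine Finset.sum_le_sum fun p _ => mul_le_mul_of_nonneg_left (h1 _) ?_
  have := h0 p.1
  rwa [sle_coeff_zero] at this

theorem SLe.mul_right {f g h : PowerSeries ℝ} (h0 : SLe 0 h) (h1 : SLe f g) : SLe (f * h) (g * h) := by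
  rw [mul_comm f, mul_comm g]
  exact SLe.mul_left h0 h1

theorem SLe.mul_nn {f g : PowerSeries ℝ} (h0 : SLe 0 f) (h1 : SLe 0 g) : SLe 0 (f * g) := by
  have h := SLe.mul_left h0 h1
  rwa [mul_zero] at h

theorem SLe.C_mul {a b : ℝ} {f g : PowerSeries ℝ} (ha : 0 ≤ a) (hab : a ≤ b) (hf : SLe 0 f)
    (h1 : SLe f g) : SLe (C a * f) (C b * g) := by
  intro k
  rw [coeff_C_mul, coeff_C_mul]
  have h2 := hf k
  rw [sle_coeff_zero] at h2
  exact mul_le_mul hab (h1 k) h2 (ha.trans hab)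

theorem SLe.C_mul_left {a : ℝ} {f g : PowerSeries ℝ} (ha : 0 ≤ a) (h1 : SLe f g) :
    SLe (C a * f) (C a * g) := by
  intro k
  rw [coeff_C_mul, coeff_C_mul]
  exact mul_le_mul_of_nonneg_left (h1 k) ha

theorem SLe.C_nn {a : ℝ} (ha : 0 ≤ a) : SLe 0 (C a) := by
  intro k
  rw [sle_coeff_zero, coeff_C]
  split
  · exact ha
  · exact le_rfl

theorem SLe.X_nn : SLe 0 (X : PowerSeries ℝ) := by
  intro k
  rw [sle_coeff_zero, coeff_X]
  split
  · exact zero_le_one
  · exact le_rfl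

theorem SLe.sum {ι : Type*} {s : Finset ι} {f g : ι → PowerSeries ℝ} (h : ∀ i ∈ s, SLe (f i) (g i)) :
    SLe (∑ i ∈ s, f i) (∑ i ∈ s, g i) := by
  intro k
  rw [map_sum, map_sum]
  exact Finset.sum_le_sum fun i hi => h i hi k

theorem SLe.sum_nn {ι : Type*} {s : Finset ι} {f : ι → PowerSeries ℝ} (h : ∀ i ∈ s, SLe 0 (f i)) :
    SLe 0 (∑ i ∈ s, f i) := by
  intro k
  rw [sle_coeff_zero, map_sum]
  refine Finset.sum_nonneg fun i hi => ?_
  have := h i hi k
  rwa [sle_coeff_zero] at this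

theorem SLe.sum_subset {ι : Type*} {s t : Finset ι} {f : ι → PowerSeries ℝ} (hst : s ⊆ t)
    (h : ∀ i ∈ t, SLe 0 (f i)) : SLe (∑ i ∈ s, f i) (∑ i ∈ t, f i) := by
  intro k
  rw [map_sum, map_sum]
  refine Finset.sum_le_sum_of_subset_of_nonneg hst fun i hi _ => ?_
  have := h i hi k
  rwa [sle_coeff_zero] at this

theorem tp_nn (i : ℕ) : SLe 0 (tp i) := by
  intro k
  rw [sle_coeff_zero, tp, coeff_mk]
  exact tt_nn i k

theorem SP_nn (n : ℕ) : SLe 0 (SP n) :=
  SLe.sum_nn fun _ _ => SLe.mul_nn (tp_nn _) (tp_nn _)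

theorem WP_nn (K n : ℕ) : SLe 0 (WP K n) :=
  SLe.sum_nn fun _ _ => SLe.mul_nn (tp_nn _) (tp_nn _)

theorem coeff_tp (i g : ℕ) : coeff g (tp i) = tt i g := by
  rw [tp, coeff_mk]

theorem coeff_WP (K n g : ℕ) : coeff g (WP K n) = WW K n g := by
  unfold WP WW
  rw [map_sum]
  refine Finset.sum_congr rfl fun p _ => ?_
  rw [coeff_mul]
  exact Finset.sum_congr rfl fun q _ => by rw [coeff_tp, coeff_tp]

theorem coeff_SP (n g : ℕ) :
    coeff g (SP n) = ∑ p ∈ antidiagonal n, ∑ q ∈ antidiagonal g, tt p.1 q.1 * tt p.2 q.2 := by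
  unfold SP
  rw [map_sum]
  refine Finset.sum_congr rfl fun p _ => ?_
  rw [coeff_mul]
  exact Finset.sum_congr rfl fun q _ => by rw [coeff_tp, coeff_tp]

theorem gj_series (h : GJ) (n : ℕ) : tp (n + 1) =
    C (an n) * (C ((n : ℝ) * (3 * n - 2)) * X * tp (n - 1) + SP n) := by
  ext g
  have h1 := h n g
  have h2 : coeff g (C ((n : ℝ) * (3 * n - 2)) * X * tp (n - 1)) =
      (n : ℝ) * (3 * n - 2) * (if g = 0 then 0 else tt (n - 1) (g - 1)) := by
    rw [mul_assoc, coeff_C_mul]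
    congr 1
    cases g with
    | zero => rw [coeff_zero_X_mul, if_pos rfl]
    | succ g => rw [coeff_succ_X_mul, if_neg (Nat.succ_ne_zero g), coeff_tp, Nat.add_sub_cancel]
  rw [coeff_tp, coeff_C_mul, map_add, h2, coeff_SP]
  have h3 : (0 : ℝ) < (n : ℝ) + 1 := by positivity
  apply mul_left_cancel₀ h3.ne'
  rw [h1, an]
  field_simp

end SYS.RB
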