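import Pool.Agent.SYS.RB.Defs

/-!
# SYS-RB-Ssr: closed form of the series `SS v q`

PROOF.  `Real.hasSum_cosh` (`cosh r = ∑ r^(2n)/(2n)!`) at `v √q`: `(v √q)^(2n) = v^(2n) q^n` (`Real.sq_sqrt`); remove the term `n = 0` (`hasSum_nat_add_iff` with 1) and
divide by `q`: `v^(2(l+1)) q^(l+1)/(2l+2)!/q`.  For `q = 0` only `l = 0` remains (`tsum_eq_single`), `2! = 2`.
-/

namespace SYS.RB

open Filter Topology Finset

theorem SS_pos_eq (v : ℝ) {q : ℝ} (hq : 0 < q) : SS v q = (Real.cosh (v * √q) - 1) / q := by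
  have h1 := Real.hasSum_cosh (v * √q)
  have h2 := (hasSum_nat_add_iff' 1).2 h1
  have h3 := h2.div_const q
  have h4 : (fun n : ℕ => (v * √q) ^ (2 * (n + 1)) / ((2 * (n + 1)).factorial : ℝ) / q) =
      fun l : ℕ => v ^ (2 * l + 2) * q ^ l / ((2 * l + 2).factorial : ℝ) := by
    funext l
    have h5 : (v * √q) ^ (2 * (l + 1)) = v ^ (2 * l + 2) * q ^ l * q := by
      rw [mul_pow, pow_mul √q, Real.sq_sqrt hq.le]
      ring
    have h6 : 2 * (l + 1) = 2 * l + 2 := by ring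
    rw [h5, h6]
    field_simp
  rw [h4] at h3
  unfold SS
  rw [h3.tsum_eq]
  simp

theorem SS_zero_eq (v : ℝ) : SS v 0 = v ^ 2 / 2 := by
  unfold SS
  rw [tsum_eq_single 0]
  · simp
  · intro l hl
    simp [hl]

end SYS.RB
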