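import Pool.Agent.SYS.RB.Sle

/-!
# SYS-RB-Sym: symmetric double sums

`WP = HP + LP` exactly, by reflection of the pairs.
-/

namespace SYS.RB

open Finset PowerSeries

private theorem sy_nn (p : ℕ × ℕ) : SLe 0 (tp p.1 * tp p.2) := SLe.mul_nn (tp_nn _) (tp_nn _)

private theorem sy_eq (K n : ℕ) : WP K n = HP K n + LP K n := by
  unfold WP HP LP
  rw [← Finset.sum_filter_add_sum_filter_not (WS K n) (fun p => p.1 ≤ p.2)]
  congr 1
  · refine Finset.sum_congr ?_ fun _ _ => rfl
    ext p
    unfold WS HS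
    simp only [Finset.mem_filter]
    constructor
    · rintro ⟨⟨h1, h2, _⟩, h4⟩
      exact ⟨h1, h2, h4⟩
    · rintro ⟨h1, h2, h4⟩
      exact ⟨⟨h1, h2, h2.trans h4⟩, h4⟩
  · refine Finset.sum_nbij' (fun p => (p.2, p.1)) (fun p => (p.2, p.1)) ?_ ?_ ?_ ?_ ?_
    · intro p hp
      unfold WS at hp
      unfold LS
      simp only [Finset.mem_filter, HasAntidiagonal.mem_antidiagonal] at hp ⊢
      omega
    · intro p hp
      unfold LS at hp
      unfold WS
      simp only [Finset.mem_filter, HasAntidiagonal.mem_antidiagonal] at hp ⊢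
      omega
    · intro p _
      rfl
    · intro p _
      rfl
    · intro p _
      exact mul_comm _ _

private theorem sy_LH (K n : ℕ) : SLe (LP K n) (HP K n) := by
  unfold LP HP
  refine SLe.sum_subset ?_ fun p _ => sy_nn p
  intro p hp
  unfold LS at hp
  unfold HS
  simp only [Finset.mem_filter] at hp ⊢
  exact ⟨hp.1, hp.2.1, hp.2.2.le⟩

private theorem sy_two (f : PowerSeries ℝ) : C 2 * f = f + f := by
  have h : (C 2 : PowerSeries ℝ) = 2 := map_ofNat C 2
  rw [h, two_mul]

theorem WP_le_HP (K n : ℕ) : SLe (WP K n) (C 2 * HP K n) := by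
  rw [sy_eq, sy_two]
  exact SLe.add (SLe.refl _) (sy_LH K n)

theorem LP_le_WP (K n : ℕ) : SLe (C 2 * LP K n) (WP K n) := by
  rw [sy_eq, sy_two]
  exact SLe.add (sy_LH K n) (SLe.refl _)

theorem SP_split {K n : ℕ} (h : 2 * K ≤ n) :
    SP n = C 2 * (∑ l ∈ range K, tp l * tp (n - l)) + WP K n := by
  unfold SP WP
  rw [sy_two, ← Finset.sum_filter_add_sum_filter_not (antidiagonal n) (fun p => K ≤ p.1 ∧ K ≤ p.2),
    ← Finset.sum_filter_add_sum_filter_not ((antidiagonal n).filter fun p => ¬ (K ≤ p.1 ∧ K ≤ p.2))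
      (fun p => p.1 < K)]
  have h1 : ∑ p ∈ ((antidiagonal n).filter fun p => ¬ (K ≤ p.1 ∧ K ≤ p.2)).filter (fun p => p.1 < K),
      tp p.1 * tp p.2 = ∑ l ∈ range K, tp l * tp (n - l) := by
    refine Finset.sum_nbij' (fun p => p.1) (fun l => (l, n - l)) ?_ ?_ ?_ ?_ ?_
    · intro p hp
      simp only [Finset.mem_filter, HasAntidiagonal.mem_antidiagonal, Finset.mem_range] at hp ⊢
      exact hp.2
    · intro l hl
      simp only [Finset.mem_filter, HasAntidiagonal.mem_antidiagonal, Finset.mem_range] at hl ⊢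
      omega
    · intro p hp
      simp only [Finset.mem_filter, HasAntidiagonal.mem_antidiagonal] at hp
      refine Prod.ext rfl ?_
      show n - p.1 = p.2
      omega
    · intro l _
      rfl
    · intro p hp
      simp only [Finset.mem_filter, HasAntidiagonal.mem_antidiagonal] at hp
      have h2 : n - p.1 = p.2 := by omega
      rw [h2]
  have h2 : ∑ p ∈ ((antidiagonal n).filter fun p => ¬ (K ≤ p.1 ∧ K ≤ p.2)).filter (fun p => ¬ p.1 < K),
      tp p.1 * tp p.2 = ∑ l ∈ range K, tp l * tp (n - l) := by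
    refine Finset.sum_nbij' (fun p => p.2) (fun l => (n - l, l)) ?_ ?_ ?_ ?_ ?_
    · intro p hp
      simp only [Finset.mem_filter, HasAntidiagonal.mem_antidiagonal, Finset.mem_range] at hp ⊢
      omega
    · intro l hl
      simp only [Finset.mem_filter, HasAntidiagonal.mem_antidiagonal, Finset.mem_range] at hl ⊢
      omega
    · intro p hp
      simp only [Finset.mem_filter, HasAntidiagonal.mem_antidiagonal] at hp
      refine Prod.ext ?_ rfl
      show n - p.2 = p.1
      omega
    · intro l _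
      rfl
    · intro p hp
      simp only [Finset.mem_filter, HasAntidiagonal.mem_antidiagonal] at hp
      have h2 : n - p.2 = p.1 := by omega
      rw [h2]
      exact mul_comm _ _
  rw [h1, h2]
  unfold WS
  exact add_comm _ _

theorem WP_mono {K K' : ℕ} (h : K' ≤ K) (n : ℕ) : SLe (WP K n) (WP K' n) := by
  unfold WP
  refine SLe.sum_subset ?_ fun p _ => sy_nn p
  intro p hp
  unfold WS at hp ⊢
  simp only [Finset.mem_filter] at hp ⊢
  exact ⟨hp.1, h.trans hp.2.1, h.trans hp.2.2⟩

theorem WP_le_SP (K n : ℕ) : SLe (WP K n) (SP n) := by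
  unfold WP SP WS
  exact SLe.sum_subset (Finset.filter_subset _ _) fun p _ => sy_nn p

theorem NM.mono {K K' N N' : ℕ} {c c' : ℝ} (hK : K ≤ K') (hN : N ≤ N') (hc : c ≤ c')
    (h : NM K N c) : NM K' N' c' := by
  intro n hn
  have h0 : 0 ≤ an n := by
    unfold an
    positivity
  refine SLe.trans (SLe.C_mul_left h0 (WP_mono hK n)) (SLe.trans (h n (hN.trans hn)) ?_)
  intro k
  rw [coeff_C_mul, coeff_C_mul]
  have h1 := tp_nn (n + 1) k
  rw [map_zero] at h1
  exact mul_le_mul_of_nonneg_right hc h1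

end SYS.RB
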