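import Pool.Agent.SYS.RB.Be

/-!
# SYS-RB-TcA: limits of `Pw` for constant ratios

`p = (m, g)`.
PROOF.
* `tt_row`: induction on `i`: `tt (m+1) g/tt m g = 1/rho (sh 1 0 p) → 1/r = r^0/r`; step: `tt (m+1-(i+1)) g / tt (m+1-i) g = rho (sh (1-i) 0 p) → r`
  (`sh (1-i) 0 p = (m+1-i, g)`; everything positive eventually by `ev_pos` at shifted points).
* `tt_col` (for `U' = SH a 0 U`, written with the shifted point): by induction on `l`; for a point `(m, g)`: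
  `m^(2(l+1)) tt m (g-(l+1))/tt m g = kap (m, g-l) * (m^(2l) tt m (g-l)/tt m g)`.  If `q ≠ 0`: `kap` along `SH a (-l) U` tends to `q` (`rows`).
  If `q = 0` and `l + 1 ≥ 1`: `m^(2(l+1)) tt m (g-(l+1))/tt m g = kap (m, g) * (m^(2l) tt m (g-1-l)/tt m (g-1))`, the first factor tends to `q = 0` and the second one is
  bounded (`bd` at the point `sh 0 (-1)`, with `i = 1`): limit `0 = q^(l+1)`.
* `Pw_lim`: `Pw i l p = (m^(2(l-1)) tt (m+1-i) (g-(l-1))/tt (m+1-i) g) * (tt (m+1-i) g/tt m g)`; the first factor is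
  `(m/(m+1-i))^(2(l-1)) *` the function of `tt_col` at `sh (1-i) 0 p`.
-/

namespace SYS.RB

open Filter Topology Finset

private theorem tca_sh1 (p : ℕ × ℕ) (i : ℕ) : sh (1 - (i : ℤ)) 0 p = (p.1 + 1 - i, p.2) := by
  unfold sh
  refine Prod.ext ?_ ?_
  · change ((p.1 : ℤ) + (1 - (i : ℤ))).toNat = p.1 + 1 - i
    omega
  · change ((p.2 : ℤ) + 0).toNat = p.2
    omega

private theorem tca_sh2 (p : ℕ × ℕ) (l : ℕ) : sh 0 (-(l : ℤ)) p = (p.1, p.2 - l) := by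
  unfold sh
  refine Prod.ext ?_ ?_
  · change ((p.1 : ℤ) + 0).toNat = p.1
    omega
  · change ((p.2 : ℤ) + (-(l : ℤ))).toNat = p.2 - l
    omega

theorem tt_row {θ : ℝ} (h : 0 < θ) (h' : θ < 1 / 2) {U : Ultrafilter (ℕ × ℕ)} {r q : ℝ}
    (hc : Cst θ U r q) (i : ℕ) :
    Tendsto (fun p : ℕ × ℕ => tt (p.1 + 1 - i) p.2 / tt p.1 p.2) (U : Filter (ℕ × ℕ))
      (𝓝 (r ^ i / r)) := by
  have hr : r ≠ 0 := hc.rpos.ne'
  induction i with
  | zero =>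
    have h1 := isR_SH.1 (hc.row 1).1
    have h2 := h1.inv₀ hr
    have e : r ^ 0 / r = r⁻¹ := by rw [pow_zero, one_div]
    rw [e]
    refine h2.congr fun p => ?_
    have h3 := tca_sh1 p 0
    rw [Nat.cast_zero, sub_zero] at h3
    rw [h3]
    unfold rho
    rw [inv_div]
    rfl
  | succ i ih =>
    have h1 := isR_SH.1 (hc.row (1 - (i : ℤ))).1
    have h2 := h1.mul ih
    have e : r ^ (i + 1) / r = r * (r ^ i / r) := by
      rw [pow_succ]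
      field_simp
    rw [e]
    refine h2.congr' ?_
    have h3 : ∀ᶠ p in (U : Filter (ℕ × ℕ)), 0 < tt (sh (1 - (i : ℤ)) 0 p).1 (sh (1 - (i : ℤ)) 0 p).2 :=
      hc.adm ((tendsto_sh h (1 - (i : ℤ)) 0).eventually (ev_pos h'))
    filter_upwards [h3] with p hp
    rw [tca_sh1] at hp ⊢
    unfold rho
    have e2 : p.1 + 1 - (i + 1) = p.1 + 1 - i - 1 := by omega
    rw [e2]
    have hp' : tt (p.1 + 1 - i) p.2 ≠ 0 := hp.ne'
    simp only
    rw [div_mul_div_cancel₀ hp']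

theorem tt_col (hG : GJ) {θ : ℝ} (h : 0 < θ) (h' : θ < 1 / 2) {U : Ultrafilter (ℕ × ℕ)} {r q : ℝ}
    (hc : Cst θ U r q) (a : ℤ) (l : ℕ) :
    Tendsto (fun p : ℕ × ℕ => (p.1 : ℝ) ^ (2 * l) * tt p.1 (p.2 - l) / tt p.1 p.2)
      (SH a 0 U : Filter (ℕ × ℕ)) (𝓝 (q ^ l)) := by
  have hV : Adm θ (SH a 0 U) := Adm_SH h hc.adm a 0
  have hpos : ∀ᶠ p in (SH a 0 U : Filter (ℕ × ℕ)), 0 < tt p.1 p.2 := hV (ev_pos h')
  induction l with
  | zero =>
    rw [pow_zero]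
    refine tendsto_const_nhds.congr' ?_
    filter_upwards [hpos] with p hp
    rw [Nat.mul_zero, pow_zero, one_mul, Nat.sub_zero, div_self hp.ne']
  | succ l ih =>
    by_cases hq : q = 0
    · have e : q ^ (l + 1) = 0 := by rw [hq]; exact zero_pow (Nat.succ_ne_zero l)
      rw [e]
      obtain ⟨C, hC, hb⟩ := bd hG h h' 1 l
      have hb' : ∀ᶠ p in (SH a 0 U : Filter (ℕ × ℕ)),
          (((sh 0 (-((1 : ℕ) : ℤ)) p).1 : ℕ) : ℝ) ^ (2 * l) *
            tt ((sh 0 (-((1 : ℕ) : ℤ)) p).1 + 1 - 1) ((sh 0 (-((1 : ℕ) : ℤ)) p).2 - l) ≤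
            C * tt (sh 0 (-((1 : ℕ) : ℤ)) p).1 (sh 0 (-((1 : ℕ) : ℤ)) p).2 :=
        hV ((tendsto_sh h 0 (-((1 : ℕ) : ℤ))).eventually hb)
      have hk : Tendsto kap (SH a 0 U : Filter (ℕ × ℕ)) (𝓝 q) := (hc.row a).2
      have hk2 := hk.const_mul C
      rw [hq, mul_zero] at hk2
      refine tendsto_of_tendsto_of_tendsto_of_le_of_le' tendsto_const_nhds hk2 ?_ ?_
      · refine Eventually.of_forall fun p => ?_
        exact div_nonneg (mul_nonneg (pow_nonneg (Nat.cast_nonneg _) _) (tt_nn _ _)) (tt_nn _ _)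
      · filter_upwards [hpos, hb'] with p hp hb2
        rw [tca_sh2] at hb2
        simp only [Nat.add_sub_cancel] at hb2
        unfold kap
        rw [← mul_div_assoc]
        refine div_le_div_of_nonneg_right ?_ hp.le
        have e3 : p.2 - (l + 1) = p.2 - 1 - l := by omega
        rw [e3]
        calc (p.1 : ℝ) ^ (2 * (l + 1)) * tt p.1 (p.2 - 1 - l)
            = (p.1 : ℝ) ^ 2 * ((p.1 : ℝ) ^ (2 * l) * tt p.1 (p.2 - 1 - l)) := by ring
          _ ≤ (p.1 : ℝ) ^ 2 * (C * tt p.1 (p.2 - 1)) :=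
              mul_le_mul_of_nonneg_left hb2 (by positivity)
          _ = C * ((p.1 : ℝ) ^ 2 * tt p.1 (p.2 - 1)) := by ring
    · have h1 : IsQ (SH 0 (-(l : ℤ)) (SH a 0 U)) q := by
        rw [SH_SH h hc.adm, zero_add, add_zero]
        exact (hc.rows hq a l).2
      have h2 := (isQ_SH.1 h1).mul ih
      have e : q ^ (l + 1) = q * q ^ l := by ring
      rw [e]
      refine h2.congr' ?_
      have h3 : ∀ᶠ p in (SH a 0 U : Filter (ℕ × ℕ)),
          0 < tt (sh 0 (-(l : ℤ)) p).1 (sh 0 (-(l : ℤ)) p).2 :=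
        hV ((tendsto_sh h 0 (-(l : ℤ))).eventually (ev_pos h'))
      filter_upwards [h3, hpos] with p hp hp2
      rw [tca_sh2] at hp ⊢
      unfold kap
      simp only at hp ⊢
      have e2 : p.2 - (l + 1) = p.2 - l - 1 := by omega
      rw [e2]
      have hp' : tt p.1 (p.2 - l) ≠ 0 := hp.ne'
      have hp2' : tt p.1 p.2 ≠ 0 := hp2.ne'
      field_simp
      ring

theorem Pw_lim (hG : GJ) {θ : ℝ} (h : 0 < θ) (h' : θ < 1 / 2) {U : Ultrafilter (ℕ × ℕ)} {r q : ℝ}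
    (hc : Cst θ U r q) (i : ℕ) {l : ℕ} (hl : 1 ≤ l) :
    Tendsto (Pw i l) (U : Filter (ℕ × ℕ)) (𝓝 (r ^ i / r * q ^ (l - 1))) := by
  obtain ⟨k, rfl⟩ : ∃ k, l = k + 1 := ⟨l - 1, by omega⟩
  rw [Nat.add_sub_cancel]
  have h1 := tt_row h h' hc i
  have h2 : Tendsto (fun p : ℕ × ℕ => (((p.1 + 1 - i : ℕ) : ℝ)) ^ (2 * k) *
      tt (p.1 + 1 - i) (p.2 - k) / tt (p.1 + 1 - i) p.2) (U : Filter (ℕ × ℕ)) (𝓝 (q ^ k)) := by
    have h3 := tt_col hG h h' hc (1 - (i : ℤ)) k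
    unfold SH at h3
    rw [Ultrafilter.coe_map, tendsto_map'_iff] at h3
    refine h3.congr fun p => ?_
    simp only [Function.comp_apply]
    rw [tca_sh1]
  have h4 : Tendsto (fun p : ℕ × ℕ => ((p.1 : ℝ) / ((p.1 + 1 - i : ℕ) : ℝ)) ^ (2 * k))
      (U : Filter (ℕ × ℕ)) (𝓝 1) := by
    have h5 : Tendsto (fun p : ℕ × ℕ => (p.1 : ℝ)) (U : Filter (ℕ × ℕ)) atTop :=
      (fst_atTop θ).mono_left hc.adm
    have h6 : Tendsto (fun p : ℕ × ℕ => (1 + (1 - (i : ℝ)) / (p.1 : ℝ))) (U : Filter (ℕ × ℕ))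
        (𝓝 (1 + 0)) := tendsto_const_nhds.add (h5.const_div_atTop _)
    rw [add_zero] at h6
    have h7 := (h6.inv₀ one_ne_zero).pow (2 * k)
    rw [inv_one, one_pow] at h7
    refine h7.congr' ?_
    have h8 : ∀ᶠ p in (U : Filter (ℕ × ℕ)), i + 1 ≤ p.1 := hc.adm (ge_ev θ (i + 1))
    filter_upwards [h8] with p hp
    congr 1
    have hp0 : (0 : ℝ) < (p.1 : ℝ) := by
      have : 0 < p.1 := by omega
      exact_mod_cast this
    have hc2 : ((p.1 + 1 - i : ℕ) : ℝ) = (p.1 : ℝ) + 1 - (i : ℝ) := by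
      rw [Nat.cast_sub (by omega)]
      push_cast
      ring
    have hp1 : (0 : ℝ) < (p.1 : ℝ) + 1 - (i : ℝ) := by
      have : ((i + 1 : ℕ) : ℝ) ≤ (p.1 : ℝ) := by exact_mod_cast hp
      push_cast at this
      linarith
    rw [hc2]
    have e : 1 + (1 - (i : ℝ)) / (p.1 : ℝ) = ((p.1 : ℝ) + 1 - (i : ℝ)) / p.1 := by
      field_simp
      ring
    rw [e, inv_div]
  have h9 := (h4.mul h2).mul h1
  have e : 1 * q ^ k * (r ^ i / r) = r ^ i / r * q ^ k := by ring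
  rw [e] at h9
  refine h9.congr' ?_
  have h3 : ∀ᶠ p in (U : Filter (ℕ × ℕ)), 0 < tt (sh (1 - (i : ℤ)) 0 p).1 (sh (1 - (i : ℤ)) 0 p).2 :=
    hc.adm ((tendsto_sh h (1 - (i : ℤ)) 0).eventually (ev_pos h'))
  have h8 : ∀ᶠ p in (U : Filter (ℕ × ℕ)), i + 1 ≤ p.1 := hc.adm (ge_ev θ (i + 1))
  have hpos : ∀ᶠ p in (U : Filter (ℕ × ℕ)), 0 < tt p.1 p.2 := hc.adm (ev_pos h')
  filter_upwards [h3, h8, hpos] with p hp hp8 hp2
  rw [tca_sh1] at hp
  simp only at hp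
  unfold Pw
  have e2 : p.2 + 1 - (k + 1) = p.2 - k := by omega
  rw [e2, Nat.add_sub_cancel]
  have hp' : tt (p.1 + 1 - i) p.2 ≠ 0 := hp.ne'
  have hp2' : tt p.1 p.2 ≠ 0 := hp2.ne'
  have hm : ((p.1 + 1 - i : ℕ) : ℝ) ≠ 0 := by
    have : p.1 + 1 - i ≠ 0 := by omega
    exact_mod_cast this
  rw [div_pow]
  field_simp

end SYS.RB
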