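import Pool.Agent.SYS.RB.Bd

/-!
# SYS-RB-TlB: Toda terms with the index of `cc` small

Only finitely many terms contribute, each of them is at most a constant times `tt m g`.
-/

namespace SYS.RB

open Filter Topology Finset

theorem cc_zero' {j k : ℕ} (h : j + 2 < 2 * k) : cc j k = 0 := by
  unfold cc
  apply Finset.sum_eq_zero
  intro x hx
  have hx' := Finset.mem_range.1 hx
  rw [Nat.choose_eq_zero_of_lt (by omega), Nat.cast_zero, zero_mul]

private theorem tlB_one (hG : GJ) {θ : ℝ} (h : 0 < θ) (h' : θ < 1 / 2) (j k : ℕ) :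
    ∃ C : ℝ, 0 ≤ C ∧ ∀ᶠ p in Fth θ, tt (p.1 - j) (p.2 + 1 - k) * cc j k ≤ C * tt p.1 p.2 := by
  rcases Nat.eq_zero_or_pos k with rfl | hk
  · refine ⟨0, le_rfl, Eventually.of_forall fun p => ?_⟩
    rw [cc_zero_right, mul_zero, zero_mul]
  · obtain ⟨C, hC, hev⟩ := bd hG h h' (j + 1) (k - 1)
    have hcc := cc_nn j k
    refine ⟨C * cc j k, by positivity, ?_⟩
    filter_upwards [hev, ge_ev θ 1] with p hp h1
    have e1 : p.1 + 1 - (j + 1) = p.1 - j := by omega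
    have e2 : p.2 - (k - 1) = p.2 + 1 - k := by omega
    rw [e1, e2] at hp
    have h2 := tt_nn (p.1 - j) (p.2 + 1 - k)
    have h3 : (1 : ℝ) ≤ (p.1 : ℝ) ^ (2 * (k - 1)) := by
      apply one_le_pow₀
      exact_mod_cast h1
    have h4 : tt (p.1 - j) (p.2 + 1 - k) ≤ C * tt p.1 p.2 := by
      refine le_trans ?_ hp
      have := mul_le_mul_of_nonneg_right h3 h2
      rwa [one_mul] at this
    calc tt (p.1 - j) (p.2 + 1 - k) * cc j k ≤ C * tt p.1 p.2 * cc j k :=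
          mul_le_mul_of_nonneg_right h4 hcc
      _ = C * cc j k * tt p.1 p.2 := by ring

private theorem tlB_sum (hG : GJ) {θ : ℝ} (h : 0 < θ) (h' : θ < 1 / 2) (j : ℕ) (s : Finset ℕ) :
    ∃ C : ℝ, 0 ≤ C ∧ ∀ᶠ p in Fth θ,
      ∑ k ∈ s, tt (p.1 - j) (p.2 + 1 - k) * cc j k ≤ C * tt p.1 p.2 := by
  classical
  induction s using Finset.induction_on with
  | empty =>
    refine ⟨0, le_rfl, Eventually.of_forall fun p => ?_⟩
    rw [Finset.sum_empty, zero_mul]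
  | insert a t ha ih =>
    obtain ⟨C, hC, hev⟩ := ih
    obtain ⟨C', hC', hev'⟩ := tlB_one hG h h' j a
    refine ⟨C' + C, by positivity, ?_⟩
    filter_upwards [hev, hev'] with p hp hp'
    rw [Finset.sum_insert ha, add_mul]
    exact add_le_add hp' hp

private theorem tlB_row (hG : GJ) {θ : ℝ} (h : 0 < θ) (h' : θ < 1 / 2) (j : ℕ) :
    ∃ C : ℝ, 0 ≤ C ∧ ∀ᶠ p in Fth θ,
      ∑ s ∈ antidiagonal (p.2 + 1), tt (p.1 - j) s.1 * cc j s.2 ≤ C * tt p.1 p.2 := by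
  obtain ⟨C, hC, hev⟩ := tlB_sum hG h h' j (range (j + 3))
  refine ⟨C, hC, ?_⟩
  filter_upwards [hev, ge_ev' h (j + 3)] with p hp h1
  refine le_trans (le_of_eq ?_) hp
  rw [← Finset.Nat.sum_antidiagonal_swap, Finset.Nat.sum_antidiagonal_eq_sum_range_succ_mk]
  symm
  apply Finset.sum_subset
  · intro x hx
    rw [Finset.mem_range] at hx ⊢
    omega
  · intro x _ hx2
    rw [Finset.mem_range] at hx2
    rw [cc_zero' (by omega), mul_zero]

private theorem tlB_all (hG : GJ) {θ : ℝ} (h : 0 < θ) (h' : θ < 1 / 2) (K : ℕ) :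
    ∃ C : ℝ, 0 ≤ C ∧ ∀ᶠ p in Fth θ,
      ∑ j ∈ range K, ∑ s ∈ antidiagonal (p.2 + 1), tt (p.1 - j) s.1 * cc j s.2 ≤
        C * tt p.1 p.2 := by
  induction K with
  | zero =>
    refine ⟨0, le_rfl, Eventually.of_forall fun p => ?_⟩
    rw [Finset.range_zero, Finset.sum_empty, zero_mul]
  | succ K ih =>
    obtain ⟨C, hC, hev⟩ := ih
    obtain ⟨C', hC', hev'⟩ := tlB_row hG h h' K
    refine ⟨C + C', by positivity, ?_⟩
    filter_upwards [hev, hev'] with p hp hp'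
    rw [Finset.sum_range_succ, add_mul]
    exact add_le_add hp hp'

theorem tl_B (hG : GJ) {θ : ℝ} (h : 0 < θ) (h' : θ < 1 / 2) (K : ℕ) {ε : ℝ} (hε : 0 < ε) :
    ∀ᶠ p in Fth θ, ∑ j ∈ range K, ∑ s ∈ antidiagonal (p.2 + 1), tt (p.1 - j) s.1 * cc j s.2 ≤
        ε * (p.1 * tt p.1 p.2) := by
  obtain ⟨C, hC, hev⟩ := tlB_all hG h h' K
  filter_upwards [hev, (fst_atTop θ).eventually_ge_atTop (C / ε)] with p hp h1
  refine hp.trans ?_
  rw [div_le_iff₀ hε] at h1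
  have h2 := mul_le_mul_of_nonneg_right h1 (tt_nn p.1 p.2)
  calc C * tt p.1 p.2 ≤ p.1 * ε * tt p.1 p.2 := h2
    _ = ε * (p.1 * tt p.1 p.2) := by ring

end SYS.RB
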