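import Pool.Agent.SYS.RB.Bd

/-!
# SYS-RB-TlC: Toda terms with a small first index of positive genus

PROOF.  `p = (m, g)`; finite sum over `i < K`; fix `i`.  `tt i (s.1 + 1) = 0` unless `2 (s.1 + 1) ≤ i` (`tt_eq_zero`), so for `g ≥ i` the sum over `s` is
the sum over `a ∈ range i` of `tt i (a+1) * cc (m-i) (g - a)`; `cc_le`: `cc (m-i) (g-a) ≤ 6 (m-i) tt (m-i) (g-a-1)` (`m > i`, `g > a`), and `bd` with
`i + 1` and `k = a + 1`: `m^(2(a+1)) tt (m - i) (g - (a+1)) ≤ C tt m g`.  So every term is `≤ 6 m tt i (a+1) C tt m g / m² ≤ (ε/(K i)) m tt m g` for large `m`.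
-/

namespace SYS.RB

open Filter Topology Finset

theorem tl_C (hG : GJ) (hT : TODA) {θ : ℝ} (h : 0 < θ) (h' : θ < 1 / 2) (K : ℕ) {ε : ℝ}
    (hε : 0 < ε) :
    ∀ᶠ p in Fth θ, ∑ i ∈ range K, ∑ s ∈ antidiagonal p.2, tt i (s.1 + 1) * cc (p.1 - i) s.2 ≤
        ε * (p.1 * tt p.1 p.2) := by
  choose C hC1 hC using fun i k : ℕ => bd hG h h' i k
  set D : ℝ := ∑ i ∈ range K, ∑ a ∈ range K, 6 * tt i (a + 1) * C (i + 1) (a + 1) with hD
  have hD0 : 0 ≤ D := by
    refine Finset.sum_nonneg (fun i _ => Finset.sum_nonneg (fun a _ => ?_))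
    have h1 := tt_nn i (a + 1)
    have h2 := hC1 (i + 1) (a + 1)
    exact mul_nonneg (by linarith) (by linarith)
  have hev : ∀ᶠ p in Fth θ, ∀ i ∈ range K, ∀ a ∈ range K,
      (p.1 : ℝ) ^ (2 * (a + 1)) * tt (p.1 + 1 - (i + 1)) (p.2 - (a + 1)) ≤
        C (i + 1) (a + 1) * tt p.1 p.2 := by
    refine (Filter.eventually_all_finset (range K)).2 (fun i _ => ?_)
    exact (Filter.eventually_all_finset (range K)).2 (fun a _ => hC (i + 1) (a + 1))
  have hlarge : ∀ᶠ p in Fth θ, D / ε + 1 ≤ (p.1 : ℝ) :=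
    (fst_atTop θ).eventually (Filter.eventually_ge_atTop (D / ε + 1))
  filter_upwards [hev, hlarge, ge_ev θ (K + 1), ge_ev' h (K + 1)] with p hp hl hm hg
  obtain ⟨m, g⟩ := p
  simp only at hp hl hm hg ⊢
  have hm0 : (1 : ℝ) ≤ (m : ℝ) := by
    have : 0 ≤ D / ε := div_nonneg hD0 hε.le
    linarith
  have hmpos : (0 : ℝ) < (m : ℝ) := by linarith
  have ht := tt_nn m g
  -- each term
  have hterm : ∀ i ∈ range K, ∀ a ∈ range K, tt i (a + 1) * cc (m - i) (g - a) ≤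
      6 * tt i (a + 1) * C (i + 1) (a + 1) * (m * tt m g / (m : ℝ) ^ 2) := by
    intro i hi a ha
    have hi' := Finset.mem_range.1 hi
    have ha' := Finset.mem_range.1 ha
    have h1 : cc (m - i) (g - a) ≤ 6 * ((m - i : ℕ) : ℝ) * tt (m - i) (g - a - 1) :=
      cc_le hT (by omega) (by omega)
    have h2 := hp i hi a ha
    have e1 : m + 1 - (i + 1) = m - i := by omega
    have e2 : g - (a + 1) = g - a - 1 := by omega
    rw [e1, e2] at h2
    have h3 := tt_nn (m - i) (g - a - 1)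
    have h4 : (m : ℝ) ^ 2 * tt (m - i) (g - a - 1) ≤ C (i + 1) (a + 1) * tt m g := by
      refine le_trans (mul_le_mul_of_nonneg_right ?_ h3) h2
      exact pow_le_pow_right₀ hm0 (by omega)
    have h5 : tt (m - i) (g - a - 1) ≤ C (i + 1) (a + 1) * tt m g / (m : ℝ) ^ 2 := by
      rw [le_div_iff₀ (by positivity)]
      linarith
    have h6 : ((m - i : ℕ) : ℝ) ≤ (m : ℝ) := by exact_mod_cast Nat.sub_le m i
    have h7 : 6 * ((m - i : ℕ) : ℝ) * tt (m - i) (g - a - 1) ≤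
        6 * (m : ℝ) * (C (i + 1) (a + 1) * tt m g / (m : ℝ) ^ 2) :=
      mul_le_mul (by linarith) h5 h3 (by linarith)
    calc tt i (a + 1) * cc (m - i) (g - a)
        ≤ tt i (a + 1) * (6 * (m : ℝ) * (C (i + 1) (a + 1) * tt m g / (m : ℝ) ^ 2)) :=
          mul_le_mul_of_nonneg_left (h1.trans h7) (tt_nn i (a + 1))
      _ = 6 * tt i (a + 1) * C (i + 1) (a + 1) * (m * tt m g / (m : ℝ) ^ 2) := by ring
  have hinner : ∀ i ∈ range K, ∑ s ∈ antidiagonal g, tt i (s.1 + 1) * cc (m - i) s.2 =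
      ∑ a ∈ range K, tt i (a + 1) * cc (m - i) (g - a) := by
    intro i hi
    have hi' := Finset.mem_range.1 hi
    rw [Finset.Nat.sum_antidiagonal_eq_sum_range_succ_mk]
    symm
    refine Finset.sum_subset ?_ ?_
    · intro a ha
      rw [Finset.mem_range] at ha ⊢
      omega
    · intro a _ ha
      rw [Finset.mem_range] at ha
      have h1 : tt i (a + 1) = 0 := tt_eq_zero (by omega)
      show tt i (a + 1) * cc (m - i) (g - a) = 0
      rw [h1, zero_mul]
  rw [Finset.sum_congr rfl hinner]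
  have h1 : ∑ i ∈ range K, ∑ a ∈ range K, tt i (a + 1) * cc (m - i) (g - a) ≤
      D * (m * tt m g / (m : ℝ) ^ 2) := by
    rw [hD, Finset.sum_mul]
    refine Finset.sum_le_sum (fun i hi => ?_)
    rw [Finset.sum_mul]
    exact Finset.sum_le_sum (fun a ha => hterm i hi a ha)
  refine h1.trans ?_
  have h2 : D ≤ ε * (m : ℝ) ^ 2 := by
    have h3 : D / ε ≤ (m : ℝ) := by linarith
    rw [div_le_iff₀ hε] at h3
    have h4 : (m : ℝ) * ε ≤ (m : ℝ) ^ 2 * ε := by
      refine mul_le_mul_of_nonneg_right ?_ hε.le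
      nlinarith
    linarith
  have h3 : 0 ≤ (m : ℝ) * tt m g := mul_nonneg hmpos.le ht
  calc D * (m * tt m g / (m : ℝ) ^ 2) = D * (m * tt m g) / (m : ℝ) ^ 2 := by ring
    _ ≤ (ε * (m : ℝ) ^ 2) * (m * tt m g) / (m : ℝ) ^ 2 := by
        refine div_le_div_of_nonneg_right (mul_le_mul_of_nonneg_right h2 h3) (by positivity)
    _ = ε * (m * tt m g) := by
        field_simp

end SYS.RB
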