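import Pool.Agent.SYS.RB.Tsp
import Pool.Agent.SYS.RB.Cr
import Pool.Agent.SYS.RB.Win

/-!
# SYS-RB-TlD: the tail in `l` of the main terms

Two consecutive main terms have ratio at most `C0 / (l + 1) ^ 2`, hence the tail decays geometrically.
-/

namespace SYS.RB

open Filter Topology Finset

private theorem tlD_ch4 (W : ℕ) :
    24 * ((W + 4).choose 4 : ℝ) = ((W : ℝ) + 4) * (W + 3) * (W + 2) * (W + 1) := by
  have h1 := Nat.add_one_mul_choose_eq (W + 3) 3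
  have h2 := Nat.add_one_mul_choose_eq (W + 2) 2
  have h3 := Nat.add_one_mul_choose_eq (W + 1) 1
  rw [Nat.choose_one_right] at h3
  have h1' : ((W : ℝ) + 3 + 1) * ((W + 3).choose 3 : ℝ) = ((W + 4).choose 4 : ℝ) * (3 + 1) := by
    exact_mod_cast h1
  have h2' : ((W : ℝ) + 2 + 1) * ((W + 2).choose 2 : ℝ) = ((W + 3).choose 3 : ℝ) * (2 + 1) := by
    exact_mod_cast h2
  have h3' : ((W : ℝ) + 1 + 1) * ((W : ℝ) + 1) = ((W + 2).choose 2 : ℝ) * (1 + 1) := by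
    exact_mod_cast h3
  have e1 : ((W + 4).choose 4 : ℝ) = ((W : ℝ) + 4) * ((W + 3).choose 3 : ℝ) / 4 := by linarith
  have e2 : ((W + 3).choose 3 : ℝ) = ((W : ℝ) + 3) * ((W + 2).choose 2 : ℝ) / 3 := by linarith
  have e3 : ((W + 2).choose 2 : ℝ) = ((W : ℝ) + 2) * ((W : ℝ) + 1) / 2 := by linarith
  rw [e1, e2, e3]
  ring

private theorem tlD_ch2 (W l : ℕ) :
    ((W + 4).choose (2 * (l + 1)) : ℝ) * ((2 * (l : ℝ) + 2) * (2 * l + 1)) =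
      ((W : ℝ) + 4) * (W + 3) * ((W + 2).choose (2 * l) : ℝ) := by
  have h1 := Nat.add_one_mul_choose_eq (W + 3) (2 * l + 1)
  have h2 := Nat.add_one_mul_choose_eq (W + 2) (2 * l)
  have h1' : ((W : ℝ) + 3 + 1) * ((W + 3).choose (2 * l + 1) : ℝ) =
      ((W + 4).choose (2 * (l + 1)) : ℝ) * (2 * (l : ℝ) + 1 + 1) := by
    exact_mod_cast h1
  have h2' : ((W : ℝ) + 2 + 1) * ((W + 2).choose (2 * l) : ℝ) =
      ((W + 3).choose (2 * l + 1) : ℝ) * (2 * (l : ℝ) + 1) := by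
    exact_mod_cast h2
  calc ((W + 4).choose (2 * (l + 1)) : ℝ) * ((2 * (l : ℝ) + 2) * (2 * l + 1)) =
        (((W + 4).choose (2 * (l + 1)) : ℝ) * (2 * (l : ℝ) + 1 + 1)) * (2 * l + 1) := by ring
    _ = (((W : ℝ) + 3 + 1) * ((W + 3).choose (2 * l + 1) : ℝ)) * (2 * l + 1) := by rw [h1']
    _ = ((W : ℝ) + 4) * (((W + 3).choose (2 * l + 1) : ℝ) * (2 * (l : ℝ) + 1)) := by ring
    _ = ((W : ℝ) + 4) * (((W : ℝ) + 2 + 1) * ((W + 2).choose (2 * l) : ℝ)) := by rw [h2']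
    _ = _ := by ring

private theorem tlD_a {X W : ℝ} (h : X ≤ W + 1) (h0 : 0 ≤ X) (hW : 0 ≤ W) : X ^ 2 ≤ (W + 2) * (W + 1) := by
  have h1 : X ^ 2 ≤ (W + 1) ^ 2 := pow_le_pow_left₀ h0 h 2
  have h2 : (W + 2) * (W + 1) = (W + 1) ^ 2 + (W + 1) := by ring
  linarith

private theorem tlD_b {l : ℝ} (h : 1 ≤ l) : 2 * (l + 1) ^ 2 ≤ (2 * l + 2) * (2 * l + 1) := by
  have h1 : (2 * l + 2) * (2 * l + 1) = 2 * (l + 1) ^ 2 + 2 * (l + 1) * l := by ring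
  have h2 : 0 ≤ 2 * (l + 1) * l := by positivity
  linarith

private theorem tlD_c {j m K : ℝ} (h : j ≤ m) (hj : 0 ≤ j) (hm : 2 * K + 2 ≤ m) (hK : 0 ≤ K) : j * (3 * j + 2) ≤ 5 * m ^ 2 := by
  have h1 : j * j ≤ m * m := mul_le_mul h h hj (hj.trans h)
  have h2 : m * 1 ≤ m * m := mul_le_mul_of_nonneg_left (by linarith) (hj.trans h)
  have h3 : j * (3 * j + 2) = 3 * (j * j) + 2 * j := by ring
  have h4 : 5 * m ^ 2 = 5 * (m * m) := by ring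
  linarith

private theorem tlD_d {L l : ℝ} (h : L + 1 ≤ l) (h0 : 0 ≤ L) : L ≤ (l + 1) ^ 2 := by
  have h1 : (l + 1) * 1 ≤ (l + 1) * (l + 1) := mul_le_mul_of_nonneg_left (by linarith) (by linarith)
  have h2 : (l + 1) ^ 2 = (l + 1) * (l + 1) := by ring
  linarith

/-- The inequality for one step. -/
private theorem tlD_step (hG : GJ) {δ : ℝ} (hδ : 0 < δ) {m g i l K : ℕ} (hi : i < K) (hl : 1 ≤ l)
    (hlg : l ≤ g) (hm1 : 2 * K + 2 ≤ m) (hm2 : 2 * (K : ℝ) ≤ δ * m)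
    (hgap : 2 * (g : ℝ) + δ * m ≤ m) :
    Dt i (l + 1) (m, g) ≤ 144 / δ ^ 2 / ((l : ℝ) + 1) ^ 2 * Dt i l (m, g) := by
  obtain ⟨k, hk⟩ : ∃ k, g = k + l := ⟨g - l, by omega⟩
  obtain ⟨j, hj⟩ : ∃ j, m = j + i := ⟨m - i, by omega⟩
  have hiK : (i : ℝ) + 1 ≤ K := by exact_mod_cast hi
  have hgk : (g : ℝ) = k + l := by rw [hk]; push_cast; ring
  have hmj : (m : ℝ) = j + i := by rw [hj]; push_cast; ring
  have hl1 : (1 : ℝ) ≤ l := by exact_mod_cast hl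
  have hm1' : 2 * (K : ℝ) + 2 ≤ m := by exact_mod_cast hm1
  have hi0 : (0 : ℝ) ≤ i := Nat.cast_nonneg _
  have hK0 : (0 : ℝ) ≤ K := Nat.cast_nonneg _
  have hm0 : (0 : ℝ) < m := by linarith
  -- `V ≥ 4`
  have hV : 2 * k + 2 ≤ j := by
    have h1 : (2 * (k : ℝ) + 2) ≤ j := by linarith
    exact_mod_cast h1
  obtain ⟨W, hW⟩ : ∃ W, j + 2 - 2 * k = W + 4 := ⟨j + 2 - 2 * k - 4, by omega⟩
  have hWj : j = W + 2 + 2 * k := by omega
  have hWr : (j : ℝ) = W + 2 + 2 * k := by rw [hWj]; push_cast; ring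
  have hj2 : 2 ≤ j := by omega
  -- unfold
  have e1 : Dt i (l + 1) (m, g) = (1 / 3) * tt i 0 *
      (((W + 4).choose (2 * (l + 1)) : ℝ) * (6 * (j : ℝ) * SST.nu j k)) := by
    unfold Dt
    simp only
    have a1 : m - i = j := by omega
    have a2 : g + 1 - (l + 1) = k := by omega
    rw [a1, a2, hW]
  have e2 : Dt i l (m, g) = (1 / 3) * tt i 0 *
      (((W + 2).choose (2 * l) : ℝ) * (6 * (j : ℝ) * SST.nu j (k + 1))) := by
    unfold Dt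
    simp only
    have a1 : m - i = j := by omega
    have a2 : g + 1 - l = k + 1 := by omega
    have a3 : j + 2 - 2 * (k + 1) = W + 2 := by omega
    rw [a1, a2, a3]
  have hc2 := tlD_ch2 W l
  have hc4 := tlD_ch4 W
  have ht := tau_two hG hj2 k
  rw [hW] at ht
  set A : ℝ := ((W + 4).choose (2 * (l + 1)) : ℝ) with hA
  set Bc : ℝ := ((W + 2).choose (2 * l) : ℝ) with hBc
  set c4 : ℝ := ((W + 4).choose 4 : ℝ) with hc4d
  have htk : 0 ≤ 6 * (j : ℝ) * SST.nu j k :=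
    mul_nonneg (by positivity) (nu_nn _ _)
  have htk1 : 0 ≤ 6 * (j : ℝ) * SST.nu j (k + 1) :=
    mul_nonneg (by positivity) (nu_nn _ _)
  set tk : ℝ := 6 * (j : ℝ) * SST.nu j k with htkd
  set tk1 : ℝ := 6 * (j : ℝ) * SST.nu j (k + 1) with htk1d
  have hA0 : 0 ≤ A := Nat.cast_nonneg _
  have hB0 : 0 ≤ Bc := Nat.cast_nonneg _
  have hW0 : (0 : ℝ) ≤ W := Nat.cast_nonneg _
  have hj0 : (0 : ℝ) ≤ j := Nat.cast_nonneg _
  -- the product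
  have h1 : A * tk * (((2 * (l : ℝ) + 2) * (2 * l + 1)) * ((W + 2) * (W + 1))) ≤
      (144 / 10) * (j * (3 * j + 2)) * (Bc * tk1) := by
    calc A * tk * (((2 * (l : ℝ) + 2) * (2 * l + 1)) * ((W + 2) * (W + 1))) =
          (A * ((2 * (l : ℝ) + 2) * (2 * l + 1))) * ((W + 2) * (W + 1)) * tk := by ring
      _ = (((W : ℝ) + 4) * (W + 3) * Bc) * ((W + 2) * (W + 1)) * tk := by rw [hc2]
      _ = (((W : ℝ) + 4) * (W + 3) * (W + 2) * (W + 1)) * Bc * tk := by ring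
      _ = 24 * Bc * (c4 * tk) := by rw [← hc4]; ring
      _ ≤ 24 * Bc * ((1 / 10) * (3 * j + 2) * (6 * j) * tk1) :=
          mul_le_mul_of_nonneg_left ht (by positivity)
      _ = _ := by ring
  have hWm : δ * m / 2 ≤ W + 1 := by
    have h2 : (W : ℝ) + 1 = m - i - 1 - 2 * k := by linarith
    rw [h2]
    linarith
  have h2 : (δ * m / 2) ^ 2 ≤ ((W : ℝ) + 2) * (W + 1) := by
    have h3 : 0 ≤ δ * m / 2 := by positivity
    exact tlD_a hWm h3 hW0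
  have h3 : 2 * ((l : ℝ) + 1) ^ 2 ≤ (2 * (l : ℝ) + 2) * (2 * l + 1) := tlD_b hl1
  have h4 : (j : ℝ) * (3 * j + 2) ≤ 5 * (m : ℝ) ^ 2 := by
    have h5 : (j : ℝ) ≤ m := by linarith
    exact tlD_c h5 hj0 hm1' hK0
  have h5 : A * tk * ((2 * ((l : ℝ) + 1) ^ 2) * (δ * m / 2) ^ 2) ≤ 72 * (m : ℝ) ^ 2 * (Bc * tk1) := by
    calc A * tk * ((2 * ((l : ℝ) + 1) ^ 2) * (δ * m / 2) ^ 2) ≤
          A * tk * (((2 * (l : ℝ) + 2) * (2 * l + 1)) * ((W + 2) * (W + 1))) := by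
          refine mul_le_mul_of_nonneg_left ?_ (mul_nonneg hA0 htk)
          exact mul_le_mul h3 h2 (by positivity) (by positivity)
      _ ≤ (144 / 10) * (j * (3 * j + 2)) * (Bc * tk1) := h1
      _ ≤ (144 / 10) * (5 * (m : ℝ) ^ 2) * (Bc * tk1) := by
          refine mul_le_mul_of_nonneg_right ?_ (mul_nonneg hB0 htk1)
          linarith
      _ = _ := by ring
  have h6 : A * tk ≤ 144 / δ ^ 2 / ((l : ℝ) + 1) ^ 2 * (Bc * tk1) := by
    rw [div_div, div_mul_eq_mul_div, le_div_iff₀ (by positivity)]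
    have h7 : 0 < (m : ℝ) ^ 2 := by positivity
    refine le_of_mul_le_mul_right ?_ h7
    calc A * tk * (δ ^ 2 * ((l : ℝ) + 1) ^ 2) * (m : ℝ) ^ 2 =
          2 * (A * tk * ((2 * ((l : ℝ) + 1) ^ 2) * (δ * m / 2) ^ 2)) := by ring
      _ ≤ 2 * (72 * (m : ℝ) ^ 2 * (Bc * tk1)) := by linarith
      _ = _ := by ring
  have h7 : 0 ≤ (1 / 3) * tt i 0 := mul_nonneg (by norm_num) (tt_nn _ _)
  rw [e1, e2]
  calc (1 / 3) * tt i 0 * (A * tk) ≤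
        (1 / 3) * tt i 0 * (144 / δ ^ 2 / ((l : ℝ) + 1) ^ 2 * (Bc * tk1)) :=
        mul_le_mul_of_nonneg_left h6 h7
    _ = _ := by ring

theorem Dt_step (hG : GJ) {θ : ℝ} (h : 0 < θ) (h' : θ < 1 / 2) :
    ∃ C0 : ℝ, 0 < C0 ∧ ∀ K : ℕ, ∀ᶠ p in Fth θ, ∀ i < K, ∀ l : ℕ, 1 ≤ l → l ≤ p.2 →
      Dt i (l + 1) p ≤ C0 / ((l : ℝ) + 1) ^ 2 * Dt i l p := by
  obtain ⟨δ, hδ, hδ1, hgap⟩ := gap h'
  refine ⟨144 / δ ^ 2, by positivity, fun K => ?_⟩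
  have h1 : ∀ᶠ p in Fth θ, 2 * (K : ℝ) / δ ≤ (p.1 : ℝ) :=
    (fst_atTop θ).eventually_ge_atTop _
  filter_upwards [hgap, ge_ev θ (2 * K + 2), h1] with p hp1 hp2 hp3 i hi l hl hlg
  obtain ⟨m, g⟩ := p
  refine tlD_step hG hδ hi hl hlg hp2 ?_ hp1
  rw [div_le_iff₀ hδ] at hp3
  linarith

private theorem tlD_sum (D : ℕ → ℝ) (L g : ℕ) (hstep : ∀ l, L + 1 ≤ l → l ≤ g → D (l + 1) ≤ 1 / 2 * D l) :
    ∀ N, L + 1 ≤ N → N ≤ g + 1 → ∑ l ∈ Ioc L N, D l + D N ≤ 2 * D (L + 1) := by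
  intro N hN
  induction N, hN using Nat.le_induction with
  | base =>
    intro _
    rw [Nat.Ioc_succ_singleton, Finset.sum_singleton]
    linarith
  | succ N hN ih =>
    intro hN2
    have h1 := ih (by omega)
    have h2 := hstep N hN (by omega)
    rw [Finset.sum_Ioc_succ_top (by omega : L ≤ N)]
    linarith

theorem tl_D (hG : GJ) (hT : TODA) {θ : ℝ} (h : 0 < θ) (h' : θ < 1 / 2) {ε : ℝ} (hε : 0 < ε) :
    ∃ L0 : ℕ, 1 ≤ L0 ∧ ∀ L ≥ L0, ∀ K : ℕ, ∀ᶠ p in Fth θ,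
      ∑ i ∈ range K, ∑ l ∈ Ioc L (p.2 + 1), Dt i l p ≤ ε * (p.1 * tt p.1 p.2) := by
  obtain ⟨C0, hC0, hstep⟩ := Dt_step hG h h'
  set ε' : ℝ := min ε 1 with hε'
  have hε'0 : 0 < ε' := lt_min hε one_pos
  obtain ⟨L1, hL1⟩ := exists_nat_ge (2 * C0 / ε')
  have hr : ∀ l : ℕ, L1 + 1 ≤ l → 2 * (C0 / ((l : ℝ) + 1) ^ 2) ≤ ε' := by
    intro l hl
    have h1 : (L1 : ℝ) + 1 ≤ l := by exact_mod_cast hl
    have h2 : (0 : ℝ) ≤ L1 := Nat.cast_nonneg _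
    have h3 : (L1 : ℝ) ≤ ((l : ℝ) + 1) ^ 2 := tlD_d h1 h2
    rw [← mul_div_assoc, div_le_iff₀ (by positivity)]
    rw [div_le_iff₀ hε'0] at hL1
    have h4 := mul_le_mul_of_nonneg_right h3 hε'0.le
    linarith
  refine ⟨L1 + 1, by omega, fun L hL K => ?_⟩
  filter_upwards [hstep K, ge_ev θ (2 * K + 1), ge_ev' h (L + 1)] with p hp1 hp2 hp3
  obtain ⟨m, g⟩ := p
  simp only at hp1 hp2 hp3 ⊢
  have h1 : ∀ i ∈ range K, ∑ l ∈ Ioc L (g + 1), Dt i l (m, g) ≤ ε * Dt i L (m, g) := by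
    intro i hi
    have hiK := Finset.mem_range.1 hi
    have h2 : ∀ l, L + 1 ≤ l → l ≤ g → Dt i (l + 1) (m, g) ≤ 1 / 2 * Dt i l (m, g) := by
      intro l hl hlg
      refine (hp1 i hiK l (by omega) hlg).trans ?_
      refine mul_le_mul_of_nonneg_right ?_ (Dt_nn _ _ _)
      have h3 := hr l (by omega)
      have h4 : ε' ≤ 1 := min_le_right _ _
      linarith
    have h3 := tlD_sum (fun l => Dt i l (m, g)) L g h2 (g + 1) (by omega) le_rfl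
    have h4 := hp1 i hiK L (by omega) (by omega)
    have h5 := Dt_nn i (g + 1) (m, g)
    have h6 := Dt_nn i L (m, g)
    have h7 := hr L hL
    have h8 : ε' ≤ ε := min_le_left _ _
    calc ∑ l ∈ Ioc L (g + 1), Dt i l (m, g) ≤ 2 * Dt i (L + 1) (m, g) := by linarith
      _ ≤ 2 * (C0 / ((L : ℝ) + 1) ^ 2 * Dt i L (m, g)) := by linarith
      _ = (2 * (C0 / ((L : ℝ) + 1) ^ 2)) * Dt i L (m, g) := by ring
      _ ≤ ε * Dt i L (m, g) := mul_le_mul_of_nonneg_right (h7.trans h8) h6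
  have h2 : ∑ i ∈ range K, Dt i L (m, g) ≤ m * tt m g := by
    have h3 := toda_split hT (K := K) (m := m) (by omega) (by omega) g
    have h4 : ∑ i ∈ range K, Dt i L (m, g) ≤
        ∑ i ∈ range K, ∑ l ∈ Icc 1 (g + 1), Dt i l (m, g) := by
      refine Finset.sum_le_sum fun i _ => ?_
      exact Finset.single_le_sum (f := fun l => Dt i l (m, g)) (fun l _ => Dt_nn _ _ _)
        (Finset.mem_Icc.2 ⟨by omega, by omega⟩)
    have h5 : 0 ≤ ∑ i ∈ range K, ∑ s ∈ antidiagonal g, tt i (s.1 + 1) * cc (m - i) s.2 :=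
      Finset.sum_nonneg fun _ _ => Finset.sum_nonneg fun _ _ => mul_nonneg (tt_nn _ _) (cc_nn _ _)
    have h6 : 0 ≤ ∑ j ∈ range K, ∑ s ∈ antidiagonal (g + 1), tt (m - j) s.1 * cc j s.2 :=
      Finset.sum_nonneg fun _ _ => Finset.sum_nonneg fun _ _ => mul_nonneg (tt_nn _ _) (cc_nn _ _)
    have h7 : 0 ≤ ∑ P ∈ WS K m, ∑ s ∈ antidiagonal (g + 1), tt P.1 s.1 * cc P.2 s.2 :=
      Finset.sum_nonneg fun _ _ => Finset.sum_nonneg fun _ _ => mul_nonneg (tt_nn _ _) (cc_nn _ _)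
    linarith
  calc ∑ i ∈ range K, ∑ l ∈ Ioc L (g + 1), Dt i l (m, g) ≤ ∑ i ∈ range K, ε * Dt i L (m, g) :=
        Finset.sum_le_sum h1
    _ = ε * ∑ i ∈ range K, Dt i L (m, g) := by rw [Finset.mul_sum]
    _ ≤ ε * (m * tt m g) := mul_le_mul_of_nonneg_left h2 hε.le

end SYS.RB
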