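import Pool.Agent.SYS.RB.TlA
import Pool.Agent.SYS.RB.TlB
import Pool.Agent.SYS.RB.TlC
import Pool.Agent.SYS.RB.TlD

/-!
# SYS-RB-Tl: the main terms carry nearly the whole Toda sum
-/

namespace SYS.RB

open Filter Topology Finset

private theorem tl_split (i L m g : ℕ) (h : L ≤ g) : ∑ l ∈ Icc 1 (g + 1), Dt i l (m, g) =
    ∑ l ∈ Icc 1 L, Dt i l (m, g) + ∑ l ∈ Ioc L (g + 1), Dt i l (m, g) := by
  have h1 : Icc 1 (g + 1) = Icc 1 L ∪ Ioc L (g + 1) := by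
    ext x
    simp only [mem_union, mem_Icc, mem_Ioc]
    omega
  have h2 : Disjoint (Icc 1 L) (Ioc L (g + 1)) := by
    rw [disjoint_left]
    intro x hx hx'
    rw [mem_Icc] at hx
    rw [mem_Ioc] at hx'
    omega
  rw [h1, sum_union h2]

theorem main_le (hT : TODA) {θ : ℝ} (h : 0 < θ) (K L : ℕ) :
    ∀ᶠ p in Fth θ, ∑ i ∈ range K, ∑ l ∈ Icc 1 L, Dt i l p ≤ p.1 * tt p.1 p.2 := by
  filter_upwards [ge_ev θ (2 * K + 1), ge_ev' h L] with p hp hg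
  obtain ⟨m, g⟩ := p
  simp only at hp hg ⊢
  have t := toda_split hT (K := K) (m := m) (by omega) (by omega) g
  have h1 : 0 ≤ ∑ i ∈ range K, ∑ s ∈ antidiagonal g, tt i (s.1 + 1) * cc (m - i) s.2 :=
    sum_nonneg fun _ _ => sum_nonneg fun _ _ => mul_nonneg (tt_nn _ _) (cc_nn _ _)
  have h2 : 0 ≤ ∑ j ∈ range K, ∑ s ∈ antidiagonal (g + 1), tt (m - j) s.1 * cc j s.2 :=
    sum_nonneg fun _ _ => sum_nonneg fun _ _ => mul_nonneg (tt_nn _ _) (cc_nn _ _)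
  have h3 : 0 ≤ ∑ P ∈ WS K m, ∑ s ∈ antidiagonal (g + 1), tt P.1 s.1 * cc P.2 s.2 :=
    sum_nonneg fun _ _ => sum_nonneg fun _ _ => mul_nonneg (tt_nn _ _) (cc_nn _ _)
  have h4 : ∑ i ∈ range K, ∑ l ∈ Icc 1 L, Dt i l (m, g) ≤
      ∑ i ∈ range K, ∑ l ∈ Icc 1 (g + 1), Dt i l (m, g) := by
    refine sum_le_sum fun i _ => ?_
    refine sum_le_sum_of_subset_of_nonneg (Icc_subset_Icc_right (by omega)) fun l _ _ => Dt_nn i l _
  linarith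

theorem main_mass (hG : GJ) (hT : TODA) {θ : ℝ} (h : 0 < θ) (h' : θ < 1 / 2) {ε : ℝ} (hε : 0 < ε) :
    ∃ K0 L0 : ℕ, ∀ K ≥ K0, ∀ L ≥ L0, ∀ᶠ p in Fth θ,
      (1 - ε) * (p.1 * tt p.1 p.2) ≤ ∑ i ∈ range K, ∑ l ∈ Icc 1 L, Dt i l p := by
  obtain ⟨K0, hA⟩ := tl_A hG hT h' (ε := ε / 4) (by positivity)
  obtain ⟨L0, _, hD⟩ := tl_D hG hT h h' (ε := ε / 4) (by positivity)
  refine ⟨K0, L0, fun K hK L hL => ?_⟩
  filter_upwards [hA K hK, tl_B hG h h' K (ε := ε / 4) (by positivity),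
    tl_C hG hT h h' K (ε := ε / 4) (by positivity), hD L hL K, ge_ev θ (2 * K + 1), ge_ev' h L]
    with p a b c d hp hg
  obtain ⟨m, g⟩ := p
  simp only at a b c d hp hg ⊢
  have t := toda_split hT (K := K) (m := m) (by omega) (by omega) g
  rw [sum_congr rfl fun i _ => tl_split i L m g hg, sum_add_distrib] at t
  have h0 : 0 ≤ ε * ((m : ℝ) * tt m g) := mul_nonneg hε.le (mul_nonneg (Nat.cast_nonneg _) (tt_nn _ _))
  linarith

end SYS.RB
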