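import Pool.Agent.SYS.RB.Bd
import Pool.Agent.SYS.RB.Nm

/-!
# SYS-RB-TlA: Toda terms with both indices large
-/

namespace SYS.RB

open Filter Topology Finset

private theorem tl_cc0 (j : ℕ) : cc j 0 = 0 := by
  unfold cc
  rw [Finset.range_zero, Finset.sum_empty]

theorem tl_A (hG : GJ) (hT : TODA) {θ : ℝ} (h' : θ < 1 / 2) {ε : ℝ} (hε : 0 < ε) :
    ∃ K0 : ℕ, ∀ K ≥ K0, ∀ᶠ p in Fth θ,
      ∑ P ∈ WS K p.1, ∑ s ∈ antidiagonal (p.2 + 1), tt P.1 s.1 * cc P.2 s.2 ≤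
        ε * (p.1 * tt p.1 p.2) := by
  obtain ⟨C, hC1, hC⟩ := bd_up h'
  have hC0 : 0 < C := by linarith
  obtain ⟨K1, N, hN⟩ := no_mass hG (ε / (6 * C)) (by positivity)
  refine ⟨max K1 1, fun K hK => ?_⟩
  have hK1 : K1 ≤ K := (le_max_left _ _).trans hK
  have hK2 : 1 ≤ K := (le_max_right _ _).trans hK
  filter_upwards [hC, ge_ev θ N] with p hp hpN
  obtain ⟨m, g⟩ := p
  simp only at hp hpN ⊢
  have hm : (0 : ℝ) ≤ m := Nat.cast_nonneg _
  have h1 : ∀ P ∈ WS K m, ∑ s ∈ antidiagonal (g + 1), tt P.1 s.1 * cc P.2 s.2 ≤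
      6 * m * ∑ s ∈ antidiagonal g, tt P.1 s.1 * tt P.2 s.2 := by
    intro P hP
    unfold WS at hP
    rw [Finset.mem_filter, Finset.HasAntidiagonal.mem_antidiagonal] at hP
    obtain ⟨hP1, hP2, hP3⟩ := hP
    have hPm : (P.2 : ℝ) ≤ m := by
      have : P.2 ≤ m := by omega
      exact_mod_cast this
    rw [Finset.Nat.sum_antidiagonal_succ', tl_cc0, mul_zero, zero_add, Finset.mul_sum]
    refine Finset.sum_le_sum fun s _ => ?_
    have h2 := cc_le hT (j := P.2) (k := s.2 + 1) (by omega) (by omega)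
    rw [Nat.add_sub_cancel] at h2
    have h3 := tt_nn P.1 s.1
    have h4 := tt_nn P.2 s.2
    calc tt P.1 s.1 * cc P.2 (s.2 + 1) ≤ tt P.1 s.1 * (6 * P.2 * tt P.2 s.2) :=
          mul_le_mul_of_nonneg_left h2 h3
      _ ≤ tt P.1 s.1 * (6 * m * tt P.2 s.2) := by
          refine mul_le_mul_of_nonneg_left ?_ h3
          refine mul_le_mul_of_nonneg_right ?_ h4
          linarith
      _ = 6 * m * (tt P.1 s.1 * tt P.2 s.2) := by ring
  have h2 : ∑ P ∈ WS K m, ∑ s ∈ antidiagonal g, tt P.1 s.1 * tt P.2 s.2 ≤ WW K1 m g := by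
    unfold WW
    refine Finset.sum_le_sum_of_subset_of_nonneg ?_ ?_
    · intro P hP
      unfold WS at hP ⊢
      rw [Finset.mem_filter] at hP ⊢
      exact ⟨hP.1, hK1.trans hP.2.1, hK1.trans hP.2.2⟩
    · intro P _ _
      exact Finset.sum_nonneg fun s _ => mul_nonneg (tt_nn _ _) (tt_nn _ _)
  have h3 := hN m hpN g
  calc ∑ P ∈ WS K m, ∑ s ∈ antidiagonal (g + 1), tt P.1 s.1 * cc P.2 s.2
      ≤ ∑ P ∈ WS K m, 6 * m * ∑ s ∈ antidiagonal g, tt P.1 s.1 * tt P.2 s.2 :=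
        Finset.sum_le_sum h1
    _ = 6 * m * ∑ P ∈ WS K m, ∑ s ∈ antidiagonal g, tt P.1 s.1 * tt P.2 s.2 := by
        rw [Finset.mul_sum]
    _ ≤ 6 * m * (ε / (6 * C) * (C * tt m g)) := by
        refine mul_le_mul_of_nonneg_left ?_ (by positivity)
        refine h2.trans (h3.trans ?_)
        exact mul_le_mul_of_nonneg_left hp (by positivity)
    _ = ε * (m * tt m g) := by
        field_simp

end SYS.RB
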