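import Pool.Agent.SYS.RB.Pos

/-!
# SYS-RB-Tsp: splitting of the Toda equation
-/

namespace SYS.RB

open Filter Topology Finset

theorem cc_eq_Dt (i m g : ℕ) :
    (1 / 3) * (tt i 0 * cc (m - i) (g + 1)) = ∑ l ∈ Icc 1 (g + 1), Dt i l (m, g) := by
  unfold cc
  rw [mul_sum, mul_sum]
  refine Finset.sum_nbij' (fun h => g + 1 - h) (fun l => g + 1 - l) ?_ ?_ ?_ ?_ ?_
  · intro h hh
    rw [mem_range] at hh
    rw [mem_Icc]
    omega
  · intro l hl
    rw [mem_Icc] at hl
    rw [mem_range]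
    omega
  · intro h hh
    rw [mem_range] at hh
    omega
  · intro l hl
    rw [mem_Icc] at hl
    omega
  · intro h hh
    rw [mem_range] at hh
    unfold Dt
    have h1 : g + 1 - (g + 1 - h) = h := by omega
    simp only [h1]
    ring

private theorem tsp_row (i m g : ℕ) :
    (1 / 3) * ∑ s ∈ antidiagonal (g + 1), tt i s.1 * cc (m - i) s.2 =
      ∑ l ∈ Icc 1 (g + 1), Dt i l (m, g) +
        (1 / 3) * ∑ s ∈ antidiagonal g, tt i (s.1 + 1) * cc (m - i) s.2 := by
  rw [Finset.Nat.sum_antidiagonal_succ, mul_add, cc_eq_Dt]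

private theorem tsp_sets {K m : ℕ} (h : 2 * K ≤ m) (F : ℕ × ℕ → ℝ) :
    ∑ P ∈ antidiagonal m, F P = ∑ i ∈ range K, F (i, m - i) + ∑ j ∈ range K, F (m - j, j) +
      ∑ P ∈ WS K m, F P := by
  have h1 : ∑ i ∈ range K, F (i, m - i) = ∑ P ∈ (antidiagonal m).filter (fun P => P.1 < K), F P := by
    refine Finset.sum_nbij' (fun i => (i, m - i)) (fun P => P.1) ?_ ?_ ?_ ?_ ?_
    · intro i hi
      rw [mem_range] at hi
      rw [mem_filter, HasAntidiagonal.mem_antidiagonal]
      simp only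
      omega
    · intro P hP
      rw [mem_filter] at hP
      rw [mem_range]
      exact hP.2
    · intro i _
      rfl
    · rintro ⟨a, b⟩ hP
      rw [mem_filter, HasAntidiagonal.mem_antidiagonal] at hP
      simp only at hP ⊢
      rw [Prod.mk.injEq]
      omega
    · intro i _
      rfl
  have h2 : ∑ j ∈ range K, F (m - j, j) =
      ∑ P ∈ ((antidiagonal m).filter (fun P => ¬ P.1 < K)).filter (fun P => P.2 < K), F P := by
    refine Finset.sum_nbij' (fun j => (m - j, j)) (fun P => P.2) ?_ ?_ ?_ ?_ ?_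
    · intro i hi
      rw [mem_range] at hi
      rw [mem_filter, mem_filter, HasAntidiagonal.mem_antidiagonal]
      simp only
      omega
    · intro P hP
      rw [mem_filter] at hP
      rw [mem_range]
      exact hP.2
    · intro i _
      rfl
    · rintro ⟨a, b⟩ hP
      rw [mem_filter, mem_filter, HasAntidiagonal.mem_antidiagonal] at hP
      simp only at hP ⊢
      rw [Prod.mk.injEq]
      omega
    · intro i _
      rfl
  have h3 : WS K m = ((antidiagonal m).filter (fun P => ¬ P.1 < K)).filter (fun P => ¬ P.2 < K) := by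
    ext P
    unfold WS
    rw [mem_filter, mem_filter, mem_filter]
    constructor
    · rintro ⟨a, b, c⟩
      exact ⟨⟨a, by omega⟩, by omega⟩
    · rintro ⟨⟨a, b⟩, c⟩
      exact ⟨a, by omega, by omega⟩
  rw [h1, h2, h3, add_assoc, Finset.sum_filter_add_sum_filter_not, Finset.sum_filter_add_sum_filter_not]

theorem toda_split (hT : TODA) {K m : ℕ} (h : 2 * K ≤ m) (hm : 1 ≤ m) (g : ℕ) :
    (m : ℝ) * tt m g = ∑ i ∈ range K, ∑ l ∈ Icc 1 (g + 1), Dt i l (m, g) +
      (1 / 3) * (∑ i ∈ range K, ∑ s ∈ antidiagonal g, tt i (s.1 + 1) * cc (m - i) s.2) +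
      (1 / 3) * (∑ j ∈ range K, ∑ s ∈ antidiagonal (g + 1), tt (m - j) s.1 * cc j s.2) +
      (1 / 3) * (∑ P ∈ WS K m, ∑ s ∈ antidiagonal (g + 1), tt P.1 s.1 * cc P.2 s.2) := by
  obtain ⟨n, rfl⟩ : ∃ n, m = n + 1 := ⟨m - 1, by omega⟩
  have h1 := hT n g
  rw [tsp_sets h, mul_add, mul_add] at h1
  have h2 : (1 / 3) * ∑ i ∈ range K, ∑ s ∈ antidiagonal (g + 1), tt i s.1 * cc (n + 1 - i) s.2 =
      ∑ i ∈ range K, ∑ l ∈ Icc 1 (g + 1), Dt i l (n + 1, g) +
        (1 / 3) * (∑ i ∈ range K, ∑ s ∈ antidiagonal g, tt i (s.1 + 1) * cc (n + 1 - i) s.2) := by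
    rw [mul_sum, mul_sum, ← sum_add_distrib]
    exact sum_congr rfl fun i _ => tsp_row i (n + 1) g
  rw [← h2]
  push_cast
  exact h1

end SYS.RB
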